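import Pool.Agent.NH34.TC.Stm

set_option autoImplicit false

/-!
# TC-1: near zero momentum the effective interaction is almost constant
-/

open MeasureTheory UnitAddTorus Filter
open scoped ComplexConjugate ENNReal

namespace Pool.Agent.H751R2.LHY.MT

noncomputable section

theorem t01 : T01 := by
  intro W hW q μ hq hμ B0 c hc n
  have hcont : Continuous fun y => (1 : ℝ) - wf B0 c y :=
    continuous_const.sub (h464_wf_cont B0 c)
  have hcs1 : Continuous fun y => (1 : ℝ) - cs n y := continuous_const.sub (h464_cs_cont n)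
  have hWnn : 0 ≤ ∫ y, W y := integral_nonneg hW.nonneg
  have h0 : ∫ y, W y * (1 - wf B0 c y) ^ 2 ≤ ∫ y, W y := by
    refine (h464_int_sq_le_Q hq hμ B0 c).trans ((scat_min hW hq hμ hc (fun _ => 0)).trans ?_)
    rw [Qf]
    simp [h464_wf_zero]
  have h1 : gh W B0 c 0 - gh W B0 c n = ∫ y, W y * ((1 - wf B0 c y) * (1 - cs n y)) := by
    unfold gh
    have j1 : Integrable (fun y => W y * (1 - wf B0 c y) * cs 0 y) := by
      simpa [mul_assoc] using h464_int_mul hW.int (hcont.mul (h464_cs_cont 0))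
    have j2 : Integrable (fun y => W y * (1 - wf B0 c y) * cs n y) := by
      simpa [mul_assoc] using h464_int_mul hW.int (hcont.mul (h464_cs_cont n))
    rw [← integral_sub j1 j2]
    exact integral_congr_ae (ae_of_all _ fun y => by simp only [h464_cs_zero]; ring)
  have h2 := h464_cs_ineq hW hcont hcs1
  have h3 : ∫ y, W y * (1 - cs n y) ^ 2 ≤ 2 * ∫ y, W y * (1 - cs n y) := by
    have h4 : ∫ y, W y * (1 - cs n y) ^ 2 ≤ ∫ y, 2 * (W y * (1 - cs n y)) := by
      refine integral_mono (h464_int_mul hW.int (hcs1.pow 2))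
        ((h464_int_mul hW.int hcs1).const_mul 2) fun y => ?_
      have h5 := abs_le.mp (h464_cs_abs_le n y)
      have h6 : (1 - cs n y) ^ 2 ≤ 2 * (1 - cs n y) := by nlinarith
      calc W y * (1 - cs n y) ^ 2 ≤ W y * (2 * (1 - cs n y)) :=
            mul_le_mul_of_nonneg_left h6 (hW.nonneg y)
        _ = 2 * (W y * (1 - cs n y)) := by ring
    rw [integral_const_mul] at h4
    exact h4
  have h3' : 0 ≤ ∫ y, W y * (1 - cs n y) ^ 2 :=
    integral_nonneg fun y => mul_nonneg (hW.nonneg y) (sq_nonneg _)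
  rw [h1]
  exact h2.trans (mul_le_mul h0 h3 h3' hWnn)

end

end Pool.Agent.H751R2.LHY.MT
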