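import Pool.Agent.NH34.TC.Stm

/-!
# TC-2: two-sided version of `Xbound`

By helper17 (project TC of helper34).
-/

open MeasureTheory UnitAddTorus Filter
open scoped ComplexConjugate ENNReal

namespace Pool.Agent.H751R2.LHY.MT

noncomputable section

lemma p02_inv {κ s u D : ℝ} (hs0 : 0 < s) (hκ8 : 8 * s ≤ κ) (hu1 : -(1 / 4) ≤ u) (hu2 : u ≤ 1 / 4)
    (hD : κ * (1 + u) - 2 * s ≤ D) :
    κ ^ 2 ≤ (κ * (1 - u + 4 * u ^ 2) + 4 * s) * D := by
  have hκp : 0 < κ := by linarith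
  have h1 : 0 ≤ κ * (1 - u + 4 * u ^ 2) + 4 * s := by
    have : 0 ≤ 1 - u + 4 * u ^ 2 := by nlinarith [sq_nonneg u]
    positivity
  have h2 : 0 ≤ (κ - 8 * s) * κ * (u ^ 2 * (3 + 4 * u)) := by
    have a1 : 0 ≤ κ - 8 * s := by linarith
    have a2 : 0 ≤ 3 + 4 * u := by linarith
    positivity
  have h3 : 0 ≤ 8 * s * κ * ((u + 1 / 4) * (4 * u ^ 2 + u + 1 / 2)) := by
    have a1 : 0 ≤ u + 1 / 4 := by linarith
    have a2 : 0 ≤ 4 * u ^ 2 + u + 1 / 2 := by nlinarith [sq_nonneg (u + 1 / 8)]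
    positivity
  have h4 : 0 ≤ s * (κ - 8 * s) := by
    have a1 : 0 ≤ κ - 8 * s := by linarith
    positivity
  have h5 : (κ * (1 - u + 4 * u ^ 2) + 4 * s) * (κ * (1 + u) - 2 * s) ≤
      (κ * (1 - u + 4 * u ^ 2) + 4 * s) * D := mul_le_mul_of_nonneg_left hD h1
  have h6 : (κ * (1 - u + 4 * u ^ 2) + 4 * s) * (κ * (1 + u) - 2 * s) = κ ^ 2 +
      ((κ - 8 * s) * κ * (u ^ 2 * (3 + 4 * u)) +
        8 * s * κ * ((u + 1 / 4) * (4 * u ^ 2 + u + 1 / 2)) + s * (κ - 8 * s)) := by ring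
  linarith

lemma p02_high {N g s κ c D I u w : ℝ} (hs0 : 0 < s) (hN : 0 ≤ N) (hI : 0 < I)
    (hg0 : 0 ≤ g) (hgI : g ≤ I)
    (hb : N * g ≤ s) (hg2 : g ^ 2 = ((2 * κ + 2 * (5 * s)) * c) ^ 2)
    (hκ8 : 8 * s ≤ κ) (hu1 : -(1 / 4) ≤ u) (hu2 : u ≤ 1 / 4) (hw : w ≤ 2 * s)
    (hD : D = κ * (1 + u) - w) :
    (N * g) ^ 2 / (4 * D) * (1 + ((N * g) / D) ^ 2) ≤
      (N ^ 2 / 2) * ((2 * κ + 2 * (5 * s)) * c ^ 2 + 0.4 * s * c ^ 2
        + 8 * s * I ^ 2 * (1 / κ ^ 2)) + (-u + 4 * u ^ 2) * ((N * g) ^ 2 / (4 * κ)) := by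
  have hκp : 0 < κ := by linarith
  have hD1 : κ * (1 + u) - 2 * s ≤ D := by rw [hD]; linarith
  have hD2 : κ / 2 ≤ D := by nlinarith
  have hDp : 0 < D := by linarith
  have hb0 : 0 ≤ N * g := by positivity
  have hden : 0 < 2 * κ + 2 * (5 * s) := by positivity
  have hgI2 : g ^ 2 ≤ I ^ 2 := pow_le_pow_left₀ hg0 hgI 2
  have e1 : (N * g) ^ 2 / (4 * D) ≤
      (N * g) ^ 2 / (4 * κ ^ 2) * (κ * (1 - u + 4 * u ^ 2) + 4 * s) := by
    rw [div_mul_eq_mul_div, div_le_div_iff₀ (by positivity) (by positivity)]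
    have h := mul_le_mul_of_nonneg_left (p02_inv hs0 hκ8 hu1 hu2 hD1)
      (show 0 ≤ 4 * (N * g) ^ 2 by positivity)
    calc (N * g) ^ 2 * (4 * κ ^ 2) = 4 * (N * g) ^ 2 * κ ^ 2 := by ring
      _ ≤ _ := h
      _ = _ := by ring
  have e2 : (N * g) ^ 2 / (4 * D) * ((N * g) / D) ^ 2 ≤ (N * g) ^ 2 / (4 * κ ^ 2) * s := by
    have h1 : (N * g) ^ 2 / (4 * D) ≤ (N * g) ^ 2 / (2 * κ) :=
      div_le_div_of_nonneg_left (by positivity) (by positivity) (by linarith)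
    have h2 : ((N * g) / D) ^ 2 ≤ s / (2 * κ) := by
      rw [div_pow, div_le_div_iff₀ (by positivity) (by positivity)]
      have h1 : (N * g) ^ 2 ≤ s ^ 2 := pow_le_pow_left₀ hb0 hb 2
      have h3 : 2 * κ * s ≤ D ^ 2 := by nlinarith
      calc (N * g) ^ 2 * (2 * κ) ≤ s ^ 2 * (2 * κ) := mul_le_mul_of_nonneg_right h1 (by positivity)
        _ = s * (2 * κ * s) := by ring
        _ ≤ s * D ^ 2 := mul_le_mul_of_nonneg_left h3 hs0.le
    calc (N * g) ^ 2 / (4 * D) * ((N * g) / D) ^ 2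
        ≤ ((N * g) ^ 2 / (2 * κ)) * (s / (2 * κ)) :=
          mul_le_mul h1 h2 (by positivity) (by positivity)
      _ = (N * g) ^ 2 / (4 * κ ^ 2) * s := by
          field_simp
          ring
  have e3 : (N * g) ^ 2 / (4 * κ ^ 2) * (κ - 5 * s) ≤
      (N ^ 2 / 2) * ((2 * κ + 2 * (5 * s)) * c ^ 2) := by
    have h1 : (N ^ 2 / 2) * ((2 * κ + 2 * (5 * s)) * c ^ 2) = (N * g) ^ 2 / (4 * (κ + 5 * s)) := by
      rw [mul_pow, hg2]
      field_simp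
      ring
    rw [h1, div_mul_eq_mul_div, div_le_div_iff₀ (by positivity) (by positivity)]
    have h2 : (κ - 5 * s) * (κ + 5 * s) ≤ κ ^ 2 := by nlinarith
    have h3 := mul_le_mul_of_nonneg_left h2 (show 0 ≤ 4 * (N * g) ^ 2 by positivity)
    calc (N * g) ^ 2 * (κ - 5 * s) * (4 * (κ + 5 * s)) =
          4 * (N * g) ^ 2 * ((κ - 5 * s) * (κ + 5 * s)) := by ring
      _ ≤ _ := h3
      _ = _ := by ring
  have e4 : (N * g) ^ 2 / (4 * κ ^ 2) * (10 * s) ≤ (N ^ 2 / 2) * (8 * s * I ^ 2 * (1 / κ ^ 2)) := by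
    have h1 : (N * g) ^ 2 ≤ N ^ 2 * I ^ 2 := by
      rw [mul_pow]; exact mul_le_mul_of_nonneg_left hgI2 (by positivity)
    have h2 : (N * g) ^ 2 / (4 * κ ^ 2) ≤ N ^ 2 * I ^ 2 / (4 * κ ^ 2) :=
      div_le_div_of_nonneg_right h1 (by positivity)
    calc (N * g) ^ 2 / (4 * κ ^ 2) * (10 * s) ≤ N ^ 2 * I ^ 2 / (4 * κ ^ 2) * (10 * s) :=
          mul_le_mul_of_nonneg_right h2 (by positivity)
      _ = (N ^ 2 / 2) * (5 * s * I ^ 2 * (1 / κ ^ 2)) := by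
          field_simp
          ring
      _ ≤ _ := by
          apply mul_le_mul_of_nonneg_left _ (by positivity)
          apply mul_le_mul_of_nonneg_right _ (by positivity)
          apply mul_le_mul_of_nonneg_right _ (by positivity)
          linarith
  have hc2 : 0 ≤ (N ^ 2 / 2) * (0.4 * s * c ^ 2) := by positivity
  have e5 : (-u + 4 * u ^ 2) * ((N * g) ^ 2 / (4 * κ)) =
      (N * g) ^ 2 / (4 * κ ^ 2) * (κ * (-u + 4 * u ^ 2)) := by
    field_simp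
  rw [e5]
  have e6 : (N * g) ^ 2 / (4 * κ ^ 2) * (κ * (1 - u + 4 * u ^ 2) + 4 * s) +
      (N * g) ^ 2 / (4 * κ ^ 2) * s = (N * g) ^ 2 / (4 * κ ^ 2) * (κ - 5 * s) +
      (N * g) ^ 2 / (4 * κ ^ 2) * (10 * s) +
      (N * g) ^ 2 / (4 * κ ^ 2) * (κ * (-u + 4 * u ^ 2)) := by ring
  calc (N * g) ^ 2 / (4 * D) * (1 + ((N * g) / D) ^ 2)
      = (N * g) ^ 2 / (4 * D) + (N * g) ^ 2 / (4 * D) * ((N * g) / D) ^ 2 := by ring
    _ ≤ _ := by linarith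

theorem t02 : T02 := by
  intro W hW q hq N I s L T t σ hN hI hI0 hs hL ht0 ht hσ B0 cA hA hT θ hθ Γ hΓ A hAdef
  have hNr : (1 : ℝ) ≤ N := by exact_mod_cast hN
  have hs0 : 0 < s := by rw [hs]; positivity
  have h5 : 0 < 5 * s := by positivity
  set S2 := ∑ n ∈ B0, (2 * (q * sq n) + 2 * (5 * s)) * cA n ^ 2 with hS2
  have hS2n : 0 ≤ S2 := Finset.sum_nonneg (fun n _ => by
    have := sq_nonneg' n; positivity)
  have hWn : 0 ≤ ∫ y, W y * (1 - wf B0 cA y) ^ 2 :=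
    integral_nonneg (fun y => mul_nonneg (hW.nonneg y) (sq_nonneg _))
  have hQA := scat_Q hW hA
  have hQA' : gh W B0 cA 0 = (∫ y, W y * (1 - wf B0 cA y) ^ 2) + S2 := by
    rw [hQA]; rfl
  have hG0 : 0 ≤ gh W B0 cA 0 := by rw [hQA']; positivity
  have hGI : gh W B0 cA 0 ≤ I := (le_abs_self _).trans ((gh_le hW hq h5 hA 0).trans hI)
  have hΓ0 : 0 ≤ Γ := by rw [hΓ]; positivity
  have hΓN0 : 0 ≤ Γ * N := by positivity
  have hΓN : Γ * N ≤ 2 * s := by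
    have : Γ ≤ 2 * I := by rw [hΓ]; linarith
    rw [hs]; nlinarith
  refine ⟨?_, hΓ0, hΓN⟩
  have habs : ∀ n, |gh W B0 cA n| ≤ I := fun n => (gh_le hW hq h5 hA n).trans hI
  have hu : ∀ n, -(1 / 4) ≤ σ * t * θ n ∧ σ * t * θ n ≤ 1 / 4 := by
    intro n
    obtain ⟨h0, h1⟩ := hθ n
    have h2 : t * θ n ≤ 1 / 4 := by nlinarith
    have h3 : 0 ≤ t * θ n := by positivity
    rcases hσ with h | h
    · rw [h, one_mul]; constructor <;> linarith
    · rw [h]; constructor <;> linarith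
  have hu2 : ∀ n, (σ * t * θ n) ^ 2 = (t * θ n) ^ 2 := by
    intro n
    rcases hσ with h | h
    · rw [h, one_mul]
    · rw [h]; ring
  -- per-mode bound
  have key : ∀ n ∈ B0, ((N * |gh W B0 cA n|) ^ 2 / (4 * A n)) *
        (1 + ((N * |gh W B0 cA n|) / A n) ^ 2) ≤
      ((N : ℝ) ^ 2 / 2) * ((2 * (q * sq n) + 2 * (5 * s)) * cA n ^ 2 + 0.4 * s * cA n ^ 2
        + (if q * sq n ≤ L then 0 else 8 * s * I ^ 2 * (1 / (q * sq n) ^ 2)))
      + (if q * sq n ≤ L then 0 else (-(σ * t * θ n) + 4 * (t * θ n) ^ 2) *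
          ((N * gh W B0 cA n) ^ 2 / (4 * (q * sq n)))) := by
    intro n hn
    have hκ : 0 ≤ q * sq n := mul_nonneg hq.le (sq_nonneg' n)
    have hg := hA.eq n hn
    have hg0 : 0 ≤ |gh W B0 cA n| := abs_nonneg _
    have hgI : |gh W B0 cA n| ≤ I := habs n
    have hg2 : |gh W B0 cA n| ^ 2 = ((2 * (q * sq n) + 2 * (5 * s)) * cA n) ^ 2 := by
      rw [sq_abs, hg]
    have hb : N * |gh W B0 cA n| ≤ s := by rw [hs]; nlinarith
    have hb0 : 0 ≤ N * |gh W B0 cA n| := by positivity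
    rw [hAdef n]
    split_ifs with hlow
    · have := low_term hκ hs0 (by positivity) hb0 hb hg2
      linarith
    · have hκL : L < q * sq n := lt_of_not_ge hlow
      have h := p02_high hs0 (by positivity) hI0 hg0 hgI hb hg2 (by linarith) (hu n).1 (hu n).2
        hΓN (D := q * sq n * (1 + σ * t * θ n) - Γ * N) rfl
      rw [hu2 n] at h
      have h7 : ((N : ℝ) * |gh W B0 cA n|) ^ 2 = (N * gh W B0 cA n) ^ 2 := by
        rw [mul_pow, sq_abs, mul_pow]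
      rw [h7] at h ⊢
      exact h
  have hsum := Finset.sum_le_sum key
  rw [Finset.sum_add_distrib, ← Finset.mul_sum, Finset.sum_add_distrib, Finset.sum_add_distrib,
    ← hS2, ← Finset.mul_sum] at hsum
  have hT' : ∑ n ∈ B0, (if q * sq n ≤ L then (0 : ℝ) else 8 * s * I ^ 2 * (1 / (q * sq n) ^ 2))
      ≤ 8 * s * I ^ 2 * T := by
    have : ∑ n ∈ B0, (if q * sq n ≤ L then (0 : ℝ) else 8 * s * I ^ 2 * (1 / (q * sq n) ^ 2))
        = 8 * s * I ^ 2 * ∑ n ∈ B0.filter (fun n => ¬ q * sq n ≤ L), 1 / (q * sq n) ^ 2 := by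
      rw [Finset.mul_sum, Finset.sum_filter]
      refine Finset.sum_congr rfl (fun n _ => ?_)
      by_cases h : q * sq n ≤ L <;> simp [h]
    rw [this]
    exact mul_le_mul_of_nonneg_left hT (by positivity)
  have hU : ∑ n ∈ B0, (if q * sq n ≤ L then (0 : ℝ) else (-(σ * t * θ n) + 4 * (t * θ n) ^ 2) *
          ((N * gh W B0 cA n) ^ 2 / (4 * (q * sq n)))) =
      -∑ n ∈ B0.filter (fun n => ¬ q * sq n ≤ L),
          (σ * t * θ n - 4 * (t * θ n) ^ 2) * ((N * gh W B0 cA n) ^ 2 / (4 * (q * sq n))) := by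
    rw [Finset.sum_filter, ← Finset.sum_neg_distrib]
    refine Finset.sum_congr rfl (fun n _ => ?_)
    by_cases h : q * sq n ≤ L
    · rw [if_pos h, if_neg (not_not.2 h), neg_zero]
    · rw [if_neg h, if_pos h]
      ring
  rw [hU] at hsum
  have hN2 : 0 < (N : ℝ) ^ 2 / 2 := by positivity
  have hfin := mul_le_mul_of_nonneg_left (add_le_add_right hT'
    (S2 + 0.4 * s * ∑ n ∈ B0, cA n ^ 2)) hN2.le
  set X := ∑ n ∈ B0, ((N * |gh W B0 cA n|) ^ 2 / (4 * A n)) *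
        (1 + ((N * |gh W B0 cA n|) / A n) ^ 2)
  set Y := ∑ n ∈ B0.filter (fun n => ¬ q * sq n ≤ L),
          (σ * t * θ n - 4 * (t * θ n) ^ 2) * ((N * gh W B0 cA n) ^ 2 / (4 * (q * sq n)))
  set ω := ∑ n ∈ B0, cA n ^ 2
  have e : (1 / 2) * Γ * ((N : ℝ) ^ 2 - N) = ((N : ℝ) ^ 2 / 2) * (gh W B0 cA 0 + S2)
      - (1 / 2) * (Γ * N) := by rw [hΓ]; ring
  rw [e]
  linarith

end

end Pool.Agent.H751R2.LHY.MT
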