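import Pool.Agent.NH34.TC.Stm

/-! Job TC-3: limits and sums of occupation numbers (`T03`, `T04`). -/

open MeasureTheory UnitAddTorus Filter
open scoped ComplexConjugate ENNReal

namespace Pool.Agent.H751R2.LHY.MT

noncomputable section

theorem p03_summable {N : ℕ} {ψ : Cfg N → ℂ} (hψ : MemLp ψ 2) (P : Mom → Prop)
    [DecidablePred P] : Summable (fun M : Fin N → Mom =>
      ((Finset.univ.filter (fun i => P (M i))).card : ℝ) * ‖coef ψ M‖ ^ 2) := by
  have h0 : ∀ M : Fin N → Mom,
      0 ≤ ((Finset.univ.filter (fun i => P (M i))).card : ℝ) * ‖coef ψ M‖ ^ 2 := fun M =>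
    mul_nonneg (Nat.cast_nonneg _) (sq_nonneg _)
  refine Summable.of_nonneg_of_le h0 (fun M => ?_) ((Gn.coef_hasSum hψ).summable.mul_left (N : ℝ))
  refine mul_le_mul_of_nonneg_right ?_ (sq_nonneg _)
  have := Finset.card_filter_le (Finset.univ : Finset (Fin N)) (fun i => P (M i))
  rw [Finset.card_univ, Fintype.card_fin] at this
  exact_mod_cast this

theorem p03_hasSum {N : ℕ} {ψ : Cfg N → ℂ} (hψ : MemLp ψ 2) (P : Mom → Prop)
    [DecidablePred P] : HasSum (fun M : Fin N → Mom =>
      ((Finset.univ.filter (fun i => P (M i))).card : ℝ) * ‖coef ψ M‖ ^ 2)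
      (occE ψ P).toReal := by
  have h0 : ∀ M : Fin N → Mom,
      0 ≤ ((Finset.univ.filter (fun i => P (M i))).card : ℝ) * ‖coef ψ M‖ ^ 2 := fun M =>
    mul_nonneg (Nat.cast_nonneg _) (sq_nonneg _)
  unfold occE
  rw [ENNReal.tsum_toReal_eq (fun _ => ENNReal.ofReal_ne_top)]
  simp only [ENNReal.toReal_ofReal (h0 _)]
  exact (p03_summable hψ P).hasSum

theorem p03_ne_top {N : ℕ} {ψ : Cfg N → ℂ} (hψ : MemLp ψ 2) (P : Mom → Prop)
    [DecidablePred P] : occE ψ P ≠ ⊤ := (p03_summable hψ P).tsum_ofReal_ne_top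

theorem p03_one {N : ℕ} (M : Fin N → Mom) (P : Mom → Prop) [DecidablePred P] (c : ℝ) :
    ENNReal.ofReal (((Finset.univ.filter (fun i => P (M i))).card : ℝ) * c) =
      ∑ i, if P (M i) then ENNReal.ofReal c else 0 := by
  rw [ENNReal.ofReal_mul (Nat.cast_nonneg _), ENNReal.ofReal_natCast, Finset.card_filter,
    Nat.cast_sum, Finset.sum_mul]
  refine Finset.sum_congr rfl fun i _ => ?_
  by_cases h : P (M i) <;> simp [h]

theorem p03_occE {N : ℕ} (ψ : Cfg N → ℂ) (P : Mom → Prop) [DecidablePred P] :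
    occE ψ P = ∑' M : Fin N → Mom, ∑ i, if P (M i) then ENNReal.ofReal (‖coef ψ M‖ ^ 2) else 0 := by
  unfold occE
  exact tsum_congr fun M => p03_one M P _

theorem p03_split {N : ℕ} (ψ : Cfg N → ℂ) (A : Mom → Prop) [DecidablePred A] :
    ∑' n : Mom, (if A n then occE ψ (fun k => k = n) else 0) = occE ψ A := by
  have h1 : ∀ n : Mom, (if A n then occE ψ (fun k => k = n) else 0) =
      ∑' M : Fin N → Mom, ∑ i, if A n then (if M i = n then ENNReal.ofReal (‖coef ψ M‖ ^ 2) else 0)
        else 0 := by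
    intro n
    by_cases h : A n
    · simp only [if_pos h]
      exact p03_occE ψ (fun k => k = n)
    · simp [if_neg h]
  rw [tsum_congr h1, ENNReal.tsum_comm, p03_occE]
  refine tsum_congr fun M => ?_
  rw [Summable.tsum_finsetSum (fun i _ => ENNReal.summable)]
  refine Finset.sum_congr rfl fun i _ => ?_
  rw [tsum_eq_single (M i)]
  · simp
  · intro n hn
    simp [Ne.symm hn]

theorem t03 : T03 := by
  intro N ψ hψ n
  exact Gn.tendsto_bx (p03_hasSum hψ (fun k => k = n))

theorem t04 : T04 := by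
  intro N ψ hψ A _
  refine ⟨p03_ne_top hψ A, ?_⟩
  have h1 : ∀ n : Mom, (if A n then occE ψ (fun k => k = n) else 0) ≠ ⊤ := by
    intro n
    split_ifs
    · exact p03_ne_top hψ _
    · exact ENNReal.zero_ne_top
  have h2 := ENNReal.hasSum_toReal (f := fun n : Mom =>
    if A n then occE ψ (fun k => k = n) else 0) (by
      rw [p03_split]
      exact p03_ne_top hψ A)
  rw [← ENNReal.tsum_toReal_eq h1, p03_split] at h2
  have e : (fun n : Mom => if A n then occR ψ n else 0) =
      fun n : Mom => ENNReal.toReal (if A n then occE ψ (fun k => k = n) else 0) := by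
    funext n
    by_cases h : A n
    · simp only [if_pos h]
      rfl
    · simp only [if_neg h]
      rfl
  rw [e]
  exact h2

end

end Pool.Agent.H751R2.LHY.MT
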