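import Pool.Agent.NH34.TC.Stm

/-!
# TC-4: the momentum distribution of near minimisers, one torus (`T05`)
-/

open MeasureTheory UnitAddTorus Filter
open scoped ComplexConjugate ENNReal

namespace Pool.Agent.H751R2.LHY.MT

noncomputable section

/-- one sign and one `ε` -/
theorem p05_main (h2 : T02) (h3 : T03) {N : ℕ} (hN : 1 ≤ N) {W : T3 → ℝ} (hW : Pot W)
    (hWm : Measurable W) {q I s L T η t : ℝ} (hq : 0 < q) (hI : ∫ y, W y = I) (hI0 : 0 < I)
    (hs : s = N * I) (hL : 8 * s ≤ L) (hη : 0 ≤ η) (ht0 : 0 < t) (ht : t ≤ 1 / 4)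
    (hT : ∀ F : Finset Mom, (∀ n ∈ F, L < q * sq n) → ∑ n ∈ F, 1 / (q * sq n) ^ 2 ≤ T)
    (F : Finset Mom) (θ g e : Mom → ℝ) (hF : ∀ n ∈ F, -n ∈ F ∧ L < q * sq n)
    (hθ : ∀ n, 0 ≤ θ n ∧ θ n ≤ 1) (hθe : ∀ n, θ (-n) = θ n)
    (hev : ∀ᶠ K : ℝ in atTop, ∀ᶠ R : ℕ in atTop, ∀ cA : Mom → ℝ,
      Scat (fun y => min (W y) K) q (5 * s) ((boxM R).erase 0) cA → ∀ n ∈ F,
        |(N * gh (fun y => min (W y) K) ((boxM R).erase 0) cA n) ^ 2 - g n| ≤ e n)
    {ψ : Cfg N → ℂ} (hψ : MemLp ψ 2) (hψ1 : ∫ x, ‖ψ x‖ ^ 2 = 1)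
    (hmin : ∀ φ : Cfg N → ℂ, MemLp φ 2 → ∫ x, ‖φ x‖ ^ 2 = 1 →
      kinE q ψ + potE (fun y => ENNReal.ofReal (W y)) ψ ≤
        kinE q φ + potE (fun y => ENNReal.ofReal (W y)) φ + ENNReal.ofReal η)
    {σ : ℝ} (hσ : σ = 1 ∨ σ = -1) {ε : ℝ} (hε : 0 < ε) (hεI : ε ≤ I) :
    -(7 * s * (occE ψ (fun n => n ≠ 0 ∧ q * sq n ≤ L)).toReal + η + s
        + 4 * (N : ℝ) ^ 2 * s * I ^ 2 * T + t * ∑ n ∈ F, θ n * e n / (4 * (q * sq n))
        + t ^ 2 * s ^ 2 * ∑ n ∈ F, θ n / (q * sq n)) - ((N : ℝ) ^ 2 / 2) * ε ≤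
      σ * (t * (∑ n ∈ F, θ n * (q * sq n) * occR ψ n - ∑ n ∈ F, θ n * g n / (4 * (q * sq n)))) := by
  have hNr : (1 : ℝ) ≤ N := by exact_mod_cast hN
  have hs0 : 0 < s := by rw [hs]; positivity
  have h5 : 0 < 5 * s := by positivity
  have h3s : 0 < 3 * s := by positivity
  have hσ1 : -1 ≤ σ ∧ σ ≤ 1 := by rcases hσ with rfl | rfl <;> constructor <;> norm_num
  have hσa : |σ| = 1 := by rcases hσ with rfl | rfl <;> norm_num
  set Eψ : ℝ≥0∞ := kinE q ψ + potE (fun y => ENNReal.ofReal (W y)) ψ with hEψ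
  -- finiteness of the energy
  have hEtop : Eψ ≠ ⊤ := by
    have h := trial_bound (N := N) hW hWm hq hI hI0 hs hs0 (boxM_sym 0) (c1 := fun _ => 0)
      (fun _ => rfl) (by rw [Qf_zero, hI]; linarith) hη hmin
    exact ne_top_of_le_ne_top ENNReal.ofReal_ne_top h
  have hktop : kinE q ψ ≠ ⊤ := ne_top_of_le_ne_top hEtop le_self_add
  have hptop : potE (fun y => ENNReal.ofReal (W y)) ψ ≠ ⊤ :=
    ne_top_of_le_ne_top hEtop le_add_self
  set O : ℝ := (occE ψ (fun n => n ≠ 0 ∧ q * sq n ≤ L)).toReal with hO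
  set Sg : ℝ := ∑ n ∈ F, θ n * g n / (4 * (q * sq n)) with hSg
  set Se : ℝ := ∑ n ∈ F, θ n * e n / (4 * (q * sq n)) with hSe
  set Sk : ℝ := ∑ n ∈ F, θ n / (q * sq n) with hSk
  obtain ⟨K0, hK0⟩ := clip hW hWm hq h3s hε
  obtain ⟨K1, hK1⟩ := eventually_atTop.1 hev
  set K := max (max K0 K1) 0 with hK
  have hKK0 : K0 ≤ K := (le_max_left _ _).trans (le_max_left _ _)
  have hKK1 : K1 ≤ K := (le_max_right _ _).trans (le_max_left _ _)
  have hKn : 0 ≤ K := le_max_right _ _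
  have hevR := hK1 K hKK1
  set WK : T3 → ℝ := fun y => min (W y) K with hWK
  have hWKp : Pot WK := pot_min hW hKn
  have hWKm : Measurable WK := hWm.min measurable_const
  have hWKI : ∫ y, WK y ≤ I := by
    rw [← hI]
    exact integral_mono hWKp.int hW.int (fun y => min_le_left _ _)
  have hWKle : ∀ y, WK y ≤ W y := fun y => min_le_left _ _
  classical
  set θ' : Mom → ℝ := fun n => if n ∈ F then θ n else 0 with hθ'
  have hθ'b : ∀ n, 0 ≤ θ' n ∧ θ' n ≤ 1 := by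
    intro n
    simp only [hθ']
    split_ifs
    · exact hθ n
    · exact ⟨le_rfl, zero_le_one⟩
  have hθ'e : ∀ n, θ' (-n) = θ' n := by
    intro n
    have h : -n ∈ F ↔ n ∈ F := ⟨fun h => by simpa using (hF _ h).1, fun h => (hF _ h).1⟩
    simp only [hθ', h, hθe]
  have hκ : ∀ n, 0 ≤ q * sq n := fun n => mul_nonneg hq.le (sq_nonneg' n)
  have hκF : ∀ n ∈ F, 0 < q * sq n := fun n hn => by have := (hF n hn).2; linarith
  -- the boxes contain F
  have hFR : ∀ᶠ R : ℕ in atTop, F ⊆ boxM R := by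
    have : ∀ n ∈ F, ∀ᶠ R : ℕ in atTop, n ∈ boxM R := by
      intro n _
      refine eventually_atTop.2 ⟨Finset.univ.sup (fun a => (n a).natAbs), fun R hR => ?_⟩
      unfold boxM
      rw [Fintype.mem_piFinset]
      intro a
      rw [Finset.mem_Icc]
      have h1 : (n a).natAbs ≤ R :=
        (Finset.le_sup (f := fun a => (n a).natAbs) (Finset.mem_univ a)).trans hR
      omega
    have h := (Filter.eventually_all_finset F).2 this
    exact h.mono fun R hR n hn => hR n hn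
  have h0F : (0 : Mom) ∉ F := by
    intro h
    have := (hF 0 h).2
    have h1 : sq (0 : Mom) = 0 := by simp [sq]
    rw [h1] at this
    linarith
  -- per-R inequality
  have hR : ∀ᶠ R : ℕ in atTop, nrm (boxM R) (coef ψ) *
      (Eψ.toReal - η - s - 4 * (N : ℝ) ^ 2 * s * I ^ 2 * T - ((N : ℝ) ^ 2 / 2) * ε + σ * t * Sg
        - t * Se - t ^ 2 * s ^ 2 * Sk) ≤
      kinF (boxM R) (coef ψ) q + potF (boxM R) (coef ψ) WK + 7 * s * O +
        σ * t * ∑ n ∈ F, θ n * (q * sq n) * occ (boxM R) (coef ψ) n := by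
    filter_upwards [hevR, hFR] with R hevA hFB
    set B0 := (boxM R).erase 0 with hB0
    have hFB0 : F ⊆ B0 := fun n hn =>
      Finset.mem_erase.2 ⟨fun h => h0F (h ▸ hn), hFB hn⟩
    have hS : Sym B0 := boxM_sym R
    obtain ⟨cA, hA⟩ := exists_scat hWKp hq h5 hS
    have hgA := hevA cA hA
    set Γ := gh WK B0 cA 0 + ∑ n ∈ B0, (2 * (q * sq n) + 2 * (5 * s)) * cA n ^ 2 with hΓ
    set A : Mom → ℝ := fun n => if q * sq n ≤ L then q * sq n + 5 * s
      else q * sq n * (1 + σ * t * θ' n) - Γ * N with hAdef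
    have hTR : ∑ n ∈ B0.filter (fun n => ¬ q * sq n ≤ L), 1 / (q * sq n) ^ 2 ≤ T :=
      hT _ (fun n hn => lt_of_not_ge (Finset.mem_filter.1 hn).2)
    obtain ⟨hX, hΓ0, hΓN⟩ := h2 WK hWKp q hq N I s L T t σ hN hWKI hI0 hs hL ht0.le ht hσ B0 cA hA
      hTR θ' hθ'b Γ hΓ A (fun n => rfl)
    have hgN : ∀ n, N * |gh WK B0 cA n| ≤ s := by
      intro n
      rw [hs]
      exact mul_le_mul_of_nonneg_left ((gh_le hWKp hq h5 hA n).trans hWKI) (by positivity)
    have hN2 : 0 ≤ (N : ℝ) ^ 2 / 2 := by positivity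
    have hω0 : 0 ≤ ∑ n ∈ B0, cA n ^ 2 := Finset.sum_nonneg fun n _ => sq_nonneg _
    set ω := ∑ n ∈ B0, cA n ^ 2 with hω
    -- energy upper bound
    have hQA : Qf WK q (3 * s) B0 cA = gh WK B0 cA 0 - 4 * s * ω := by
      rw [Qf_shift WK q (5 * s) (3 * s) B0 cA, ← scat_Q hWKp hA]
      ring
    have hg0 : gh WK B0 cA 0 ≤ I := (gh_zero_le hWKp hq h5 hA).trans hWKI
    have hQB : Qf WK q (3 * s) B0 cA ≤ I := by
      rw [hQA]
      have : 0 ≤ 4 * s * ω := by positivity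
      linarith
    obtain ⟨B1, hB1, c1, hc1, hQ1⟩ := hK0 K hKK0 B0 hS cA hA.even (by rw [hI]; linarith)
    have hE := trial_bound hW hWm hq hI hI0 hs hs0 hB1 hc1 (by linarith) hη hmin
    have hQ1n : 0 ≤ Qf W q (3 * s) B1 c1 := by
      unfold Qf
      refine add_nonneg (integral_nonneg (fun y => mul_nonneg (hW.nonneg y) (sq_nonneg _)))
        (Finset.sum_nonneg (fun n _ => mul_nonneg ?_ (sq_nonneg _)))
      have := sq_nonneg' n; positivity
    have hE2 : Eψ.toReal ≤ ((N : ℝ) ^ 2 / 2) * Qf W q (3 * s) B1 c1 + η :=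
      ENNReal.toReal_le_of_le_ofReal (by positivity) hE
    have hE3 : Eψ.toReal - η - ((N : ℝ) ^ 2 / 2) * ε + ((N : ℝ) ^ 2 / 2) * (4 * s * ω) ≤
        ((N : ℝ) ^ 2 / 2) * gh WK B0 cA 0 := by
      have h1 : Qf W q (3 * s) B1 c1 ≤ gh WK B0 cA 0 - 4 * s * ω + ε := by
        rw [← hQA]; exact hQ1
      have := mul_le_mul_of_nonneg_left h1 hN2
      linarith
    -- the sum over the large momenta
    have hsumF : σ * t * Sg - t * Se - t ^ 2 * s ^ 2 * Sk ≤
        ∑ n ∈ B0.filter (fun n => ¬ q * sq n ≤ L),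
          (σ * t * θ' n - 4 * (t * θ' n) ^ 2) * ((N * gh WK B0 cA n) ^ 2 / (4 * (q * sq n))) := by
      have hsub : F ⊆ B0.filter (fun n => ¬ q * sq n ≤ L) := fun n hn =>
        Finset.mem_filter.2 ⟨hFB0 hn, not_le.2 (hF n hn).2⟩
      rw [← Finset.sum_subset hsub (fun n _ hn => by simp only [hθ', if_neg hn]; ring)]
      rw [hSg, hSe, hSk, Finset.mul_sum, Finset.mul_sum, Finset.mul_sum,
        ← Finset.sum_sub_distrib, ← Finset.sum_sub_distrib]
      refine Finset.sum_le_sum fun n hn => ?_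
      have hk := hκF n hn
      obtain ⟨ha, hb⟩ := hθ n
      have hgn := abs_le.1 (hgA n hn)
      have hsn : (N * gh WK B0 cA n) ^ 2 ≤ s ^ 2 := by
        have h1 := hgN n
        have h2 : |(N : ℝ) * gh WK B0 cA n| ≤ s := by
          rw [abs_mul, Nat.abs_cast]; exact h1
        exact sq_le_sq' (by linarith [(abs_le.1 h2).1]) (abs_le.1 h2).2
      simp only [hθ', if_pos hn]
      set G := (N * gh WK B0 cA n) ^ 2 with hG
      have hG0 : 0 ≤ G := sq_nonneg _
      have e1 : (σ * t * θ n - 4 * (t * θ n) ^ 2) * (G / (4 * (q * sq n))) -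
          (σ * t * (θ n * g n / (4 * (q * sq n))) - t * (θ n * e n / (4 * (q * sq n))) -
            t ^ 2 * s ^ 2 * (θ n / (q * sq n))) =
          (t * θ n * (σ * (G - g n) + e n) + 4 * t ^ 2 * (s ^ 2 * θ n - θ n ^ 2 * G)) /
            (4 * (q * sq n)) := by
        field_simp
        ring
      have e2 : 0 ≤ σ * (G - g n) + e n := by
        rcases hσ with rfl | rfl <;> linarith [hgn.1, hgn.2]
      have e3 : 0 ≤ s ^ 2 * θ n - θ n ^ 2 * G := by
        have h6 : θ n ^ 2 * G ≤ θ n * s ^ 2 := by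
          have h7 : θ n ^ 2 ≤ θ n := by nlinarith
          calc θ n ^ 2 * G ≤ θ n * G := mul_le_mul_of_nonneg_right h7 hG0
            _ ≤ θ n * s ^ 2 := mul_le_mul_of_nonneg_left hsn ha
        linarith
      have e4 : 0 ≤ (t * θ n * (σ * (G - g n) + e n) + 4 * t ^ 2 * (s ^ 2 * θ n - θ n ^ 2 * G)) /
            (4 * (q * sq n)) := by positivity
      linarith
    -- combine
    have hX2 : Eψ.toReal - η - s - 4 * (N : ℝ) ^ 2 * s * I ^ 2 * T - ((N : ℝ) ^ 2 / 2) * ε +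
        σ * t * Sg - t * Se - t ^ 2 * s ^ 2 * Sk ≤
        (1 / 2) * Γ * ((N : ℝ) ^ 2 - N)
          - ∑ n ∈ B0, ((N * |gh WK B0 cA n|) ^ 2 / (4 * A n)) *
            (1 + ((N * |gh WK B0 cA n|) / A n) ^ 2) := by
      refine le_trans ?_ hX
      have h1 : 0 ≤ (N : ℝ) ^ 2 / 2 * (3.6 * s * ω) := by positivity
      have h7 : (N : ℝ) ^ 2 / 2 * (gh WK B0 cA 0 - s * (0.4 * ω + 8 * I ^ 2 * T)) =
        (N : ℝ) ^ 2 / 2 * gh WK B0 cA 0 - (N : ℝ) ^ 2 / 2 * (4 * s * ω) +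
          (N : ℝ) ^ 2 / 2 * (3.6 * s * ω) - 4 * (N : ℝ) ^ 2 * s * I ^ 2 * T := by ring
      rw [h7]
      linarith
    have hAL : ∀ n, ¬ q * sq n ≤ L → 4 * s ≤ q * sq n * (1 + σ * t * θ' n) - Γ * N := by
      intro n hn
      push Not at hn
      obtain ⟨ha, hb⟩ := hθ'b n
      have h8 : -(1 / 4) ≤ σ * t * θ' n := by
        have h9 : |σ * t * θ' n| ≤ 1 / 4 := by
          rw [abs_mul, abs_mul, hσa, one_mul, abs_of_pos ht0, abs_of_nonneg ha]
          nlinarith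
        linarith [(abs_le.1 h9).1]
      have h9 : (3 / 4) * (q * sq n) ≤ q * sq n * (1 + σ * t * θ' n) := by
        have := mul_le_mul_of_nonneg_left h8 (hκ n)
        linarith
      linarith
    have hlow := lowerA hWKp hq h5 hS hA
      (fun n => if q * sq n ≤ L then 5 * s + Γ * N else σ * t * θ' n * (q * sq n)) A Γ
      hΓ (by
        intro n _
        simp only [hAdef]
        split_ifs with h
        · have := hκ n; positivity
        · have := hAL n h; linarith)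
      (by
        intro n _
        have h8 : sq (-n) = sq n := by simp only [sq, Pi.neg_apply, Int.cast_neg, neg_sq]
        simp only [hAdef, h8, hθ'e])
      (by
        intro n _
        simp only [hAdef]
        split_ifs with h
        · linarith
        · apply le_of_eq; ring)
      (by
        intro n _
        simp only [hAdef]
        have h1 := hgN n
        split_ifs with h
        · have := hκ n; linarith
        · have := hAL n h; linarith)
      (coef ψ)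
    rw [hB0, insert_box R, ← hB0] at hlow
    have hnn : 0 ≤ nrm (boxM R) (coef ψ) := Finset.sum_nonneg (fun _ _ => sq_nonneg _)
    have hocc : ∑ n ∈ B0, (if q * sq n ≤ L then 5 * s + Γ * N else σ * t * θ' n * (q * sq n)) *
        occ (boxM R) (coef ψ) n ≤ 7 * s * O +
          σ * t * ∑ n ∈ F, θ n * (q * sq n) * occ (boxM R) (coef ψ) n := by
      rw [← Finset.sum_filter_add_sum_filter_not B0 (fun n => q * sq n ≤ L)]
      have h1 : ∑ n ∈ B0.filter (fun n => q * sq n ≤ L),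
          (if q * sq n ≤ L then 5 * s + Γ * N else σ * t * θ' n * (q * sq n)) *
          occ (boxM R) (coef ψ) n =
          (5 * s + Γ * N) * ∑ n ∈ (boxM R).filter (fun n => n ≠ 0 ∧ q * sq n ≤ L),
            occ (boxM R) (coef ψ) n := by
        rw [Finset.mul_sum]
        have : (boxM R).filter (fun n => n ≠ 0 ∧ q * sq n ≤ L) =
            B0.filter (fun n => q * sq n ≤ L) := by
          ext n; simp only [hB0, Finset.mem_filter, Finset.mem_erase]; tauto
        rw [this]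
        refine Finset.sum_congr rfl (fun n hn => ?_)
        rw [if_pos (Finset.mem_filter.1 hn).2]
      have h4 : ∑ n ∈ B0.filter (fun n => ¬ q * sq n ≤ L),
          (if q * sq n ≤ L then 5 * s + Γ * N else σ * t * θ' n * (q * sq n)) *
          occ (boxM R) (coef ψ) n =
          σ * t * ∑ n ∈ F, θ n * (q * sq n) * occ (boxM R) (coef ψ) n := by
        have hsub : F ⊆ B0.filter (fun n => ¬ q * sq n ≤ L) := fun n hn =>
          Finset.mem_filter.2 ⟨hFB0 hn, not_le.2 (hF n hn).2⟩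
        rw [← Finset.sum_subset hsub (fun n hn hn' => by
          rw [if_neg (Finset.mem_filter.1 hn).2]
          simp only [hθ', if_neg hn']; ring), Finset.mul_sum]
        refine Finset.sum_congr rfl (fun n hn => ?_)
        rw [if_neg (not_le.2 (hF n hn).2)]
        simp only [hθ', if_pos hn]
        ring
      rw [h1, h4]
      have h2 := occ_le_occE hψ (fun n => n ≠ 0 ∧ q * sq n ≤ L) R
      have h3 : 0 ≤ 5 * s + Γ * N := by positivity
      have hO0 : 0 ≤ O := ENNReal.toReal_nonneg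
      have h6 : (5 * s + Γ * N) * ∑ n ∈ (boxM R).filter (fun n => n ≠ 0 ∧ q * sq n ≤ L),
            occ (boxM R) (coef ψ) n ≤ 7 * s * O :=
        calc _ ≤ (5 * s + Γ * N) * O := mul_le_mul_of_nonneg_left h2 h3
          _ ≤ 7 * s * O := mul_le_mul_of_nonneg_right (by linarith) hO0
      linarith
    have h4 := mul_le_mul_of_nonneg_left hX2 hnn
    linarith
  -- limit
  set X' : ℝ := Eψ.toReal - η - s - 4 * (N : ℝ) ^ 2 * s * I ^ 2 * T - ((N : ℝ) ^ 2 / 2) * ε +
    σ * t * Sg - t * Se - t ^ 2 * s ^ 2 * Sk with hX'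
  have hlim1 : Tendsto (fun R : ℕ => nrm (boxM R) (coef ψ) * X') atTop (nhds (1 * X')) := by
    have := nrm_tendsto hψ
    rw [hψ1] at this
    exact this.mul_const _
  have hlim3 : Tendsto (fun R : ℕ => σ * t * ∑ n ∈ F, θ n * (q * sq n) *
      occ (boxM R) (coef ψ) n) atTop (nhds (σ * t * ∑ n ∈ F, θ n * (q * sq n) * occR ψ n)) :=
    (tendsto_finsetSum F fun n _ => (h3 N ψ hψ n).const_mul _).const_mul _
  have hlim2 : Tendsto (fun R : ℕ => kinF (boxM R) (coef ψ) q +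
      potF (boxM R) (coef ψ) WK + 7 * s * O +
        σ * t * ∑ n ∈ F, θ n * (q * sq n) * occ (boxM R) (coef ψ) n) atTop
      (nhds ((kinE q ψ).toReal + (potE (fun y => ENNReal.ofReal (WK y)) ψ).toReal + 7 * s * O +
        σ * t * ∑ n ∈ F, θ n * (q * sq n) * occR ψ n)) :=
    (((kinF_tendsto hq hψ hktop).add (potF_tendsto hWKp hWKm (C := K)
      (fun y => min_le_right _ _) hψ)).add_const _).add hlim3
  have hfin := le_of_tendsto_of_tendsto hlim1 hlim2 hR
  have hpm : (potE (fun y => ENNReal.ofReal (WK y)) ψ).toReal ≤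
      (potE (fun y => ENNReal.ofReal (W y)) ψ).toReal :=
    ENNReal.toReal_mono hptop (potE_mono (fun y => ENNReal.ofReal_le_ofReal (hWKle y)) ψ)
  have hEr : Eψ.toReal = (kinE q ψ).toReal + (potE (fun y => ENNReal.ofReal (W y)) ψ).toReal :=
    ENNReal.toReal_add hktop hptop
  rw [one_mul] at hfin
  have e9 : σ * (t * (∑ n ∈ F, θ n * (q * sq n) * occR ψ n - Sg)) =
    σ * t * ∑ n ∈ F, θ n * (q * sq n) * occR ψ n - σ * t * Sg := by ring
  rw [e9]
  linarith

theorem t05 (h2 : T02) (h3 : T03) : T05 := by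
  intro N hN W hW hWm q I s L T η t hq hI hI0 hs hL hη ht0 ht hT F θ g e hF hθ hθe hev ψ hψ
  obtain ⟨hψ2, hψ1, hmin⟩ := hψ
  set Rh : ℝ := 7 * s * (occE ψ (fun n => n ≠ 0 ∧ q * sq n ≤ L)).toReal + η + s
        + 4 * (N : ℝ) ^ 2 * s * I ^ 2 * T + t * ∑ n ∈ F, θ n * e n / (4 * (q * sq n))
        + t ^ 2 * s ^ 2 * ∑ n ∈ F, θ n / (q * sq n) with hRh
  set D : ℝ := ∑ n ∈ F, θ n * (q * sq n) * occR ψ n - ∑ n ∈ F, θ n * g n / (4 * (q * sq n)) with hD
  have hNr : (1 : ℝ) ≤ N := by exact_mod_cast hN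
  have key : ∀ σ : ℝ, (σ = 1 ∨ σ = -1) → -Rh ≤ σ * (t * D) := by
    intro σ hσ
    by_contra hcon
    push Not at hcon
    obtain ⟨δ, hδ⟩ : ∃ δ : ℝ, δ = -Rh - σ * (t * D) := ⟨_, rfl⟩
    have hδ0 : 0 < δ := by rw [hδ]; linarith
    have hN2 : 0 < (N : ℝ) ^ 2 / 2 := by positivity
    have h := p05_main h2 h3 hN hW hWm hq hI hI0 hs hL hη ht0 ht hT F θ g e hF hθ hθe hev hψ2 hψ1
      hmin hσ (ε := min I (δ / (2 * ((N : ℝ) ^ 2 / 2)))) (lt_min hI0 (by positivity))
      (min_le_left _ _)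
    have h5 : ((N : ℝ) ^ 2 / 2) * min I (δ / (2 * ((N : ℝ) ^ 2 / 2))) ≤ δ / 2 := by
      calc ((N : ℝ) ^ 2 / 2) * min I (δ / (2 * ((N : ℝ) ^ 2 / 2)))
          ≤ ((N : ℝ) ^ 2 / 2) * (δ / (2 * ((N : ℝ) ^ 2 / 2))) :=
            mul_le_mul_of_nonneg_left (min_le_right _ _) hN2.le
        _ = δ / 2 := by field_simp
    rw [← hRh, ← hD] at h
    linarith
  have h1 := key 1 (Or.inl rfl)
  have h2' := key (-1) (Or.inr rfl)
  rw [← abs_of_pos ht0, ← abs_mul, abs_le]
  constructor <;> linarith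

end

end Pool.Agent.H751R2.LHY.MT
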