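import Pool.Agent.NH34.TC.Stm

/-!
# Project TC: integration in representatives, symmetrisation (T06, T07)
-/

set_option autoImplicit false

open MeasureTheory UnitAddTorus Filter
open scoped ComplexConjugate ENNReal

namespace Pool.Agent.H751R2.LHY.MT

noncomputable section

/-- the cube -/
def p06S : Set (Fin 3 → ℝ) := {x | ∀ i, x i ∈ Set.Ioc (-(1 / 2) : ℝ) (-(1 / 2) + 1)}

theorem p06S_meas : MeasurableSet p06S := MeasurableSet.univ_pi' fun _ => measurableSet_Ioc

theorem p06_emb : MeasurableEmbedding cen :=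
  (MeasurableEmbedding.subtype_coe p06S_meas).comp
    (measurableEquivPiIoc (fun _ : Fin 3 => (-(1 / 2) : ℝ))).measurableEmbedding

theorem p06_mp : MeasurePreserving cen volume (volume.restrict p06S) := by
  have h1 : MeasurePreserving (measurableEquivPiIoc (fun _ : Fin 3 => (-(1 / 2) : ℝ))) volume
      (Measure.comap Subtype.val volume) := measurePreserving_equivPiIoc _
  have h2 : MeasurePreserving (Subtype.val : p06S → (Fin 3 → ℝ)) (Measure.comap Subtype.val volume)
      (volume.restrict p06S) := ⟨measurable_subtype_coe, map_comap_subtype_coe p06S_meas _⟩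
  exact h2.comp h1

theorem t06 : T06 := by
  intro ℓ hℓ f hf hs
  have hsupp : ∀ x, x ∉ p06S → f (ℓ • x) = 0 := by
    intro x hx
    by_contra h
    apply hx
    intro a
    have h1 := hs _ h a
    simp only [Pi.smul_apply, smul_eq_mul] at h1
    rw [abs_lt] at h1
    constructor
    · have := h1.1
      by_contra h2
      push Not at h2
      nlinarith
    · have := h1.2
      by_contra h2
      push Not at h2
      nlinarith
  have hf2 : Integrable (fun x : Fin 3 → ℝ => f (ℓ • x)) := hf.comp_smul hℓ.ne'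
  have e1 : ∫ y : T3, f (ℓ • cen y) = ∫ x in p06S, f (ℓ • x) :=
    p06_mp.integral_comp p06_emb (fun x => f (ℓ • x))
  have e2 : ∫ x in p06S, f (ℓ • x) = ∫ x, f (ℓ • x) :=
    setIntegral_eq_integral_of_forall_compl_eq_zero hsupp
  have e3 := Measure.integral_comp_smul (volume : Measure (Fin 3 → ℝ)) f ℓ
  constructor
  · exact (p06_mp.integrable_comp_emb p06_emb (g := fun x : Fin 3 → ℝ => f (ℓ • x))).2 hf2.integrableOn
  · rw [e1, e2, e3, smul_eq_mul]
    congr 1
    simp only [Module.finrank_fintype_fun_eq_card, Fintype.card_fin]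
    rw [abs_of_pos (by positivity), one_div]

theorem p06_gsq_int (φ : (Fin 3 → ℝ) → ℝ) (h1 : ContDiff ℝ 1 φ) (h2 : HasCompactSupport φ) :
    Integrable (gsq φ) := by
  apply Continuous.integrable_of_hasCompactSupport
  · unfold gsq
    have := h1.continuous_fderiv one_ne_zero
    fun_prop
  · have h3 : HasCompactSupport (fderiv ℝ φ) := h2.fderiv (𝕜 := ℝ)
    exact h3.comp_left (g := fun L : (Fin 3 → ℝ) →L[ℝ] ℝ => ∑ a, (L (Pi.single a 1)) ^ 2) (by simp)

theorem p06_pot_int (v : (Fin 3 → ℝ) → ℝ) (hv : PotV v) (φ : (Fin 3 → ℝ) → ℝ)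
    (h1 : ContDiff ℝ 1 φ) (h2 : HasCompactSupport φ) :
    Integrable (fun x => v x * (1 - φ x) ^ 2) := by
  obtain ⟨C, hC⟩ := h1.continuous.bounded_above_of_compact_support h2
  have hC0 : 0 ≤ C := (norm_nonneg _).trans (hC 0)
  refine Integrable.mono' (hv.int.mul_const ((1 + C) ^ 2)) ?_ (Eventually.of_forall fun x => ?_)
  · exact (hv.meas.mul ((measurable_const.sub h1.continuous.measurable).pow_const 2)).aestronglyMeasurable
  · rw [Real.norm_eq_abs, abs_of_nonneg (mul_nonneg (hv.nonneg x) (sq_nonneg _))]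
    apply mul_le_mul_of_nonneg_left _ (hv.nonneg x)
    have := hC x
    rw [Real.norm_eq_abs, abs_le] at this
    nlinarith [this.1, this.2]

theorem p06_gsq_sym (φ : (Fin 3 → ℝ) → ℝ) (h1 : ContDiff ℝ 1 φ) (x : Fin 3 → ℝ) :
    gsq (fun x => (φ x + φ (-x)) / 2) x ≤ (gsq φ x + gsq φ (-x)) / 2 := by
  have hd : Differentiable ℝ φ := h1.differentiable one_ne_zero
  have e1 : HasFDerivAt φ (fderiv ℝ φ x) x := (hd x).hasFDerivAt
  have e2 : HasFDerivAt (fun x => φ (-x))
      ((fderiv ℝ φ (-x)).comp (-(ContinuousLinearMap.id ℝ (Fin 3 → ℝ)))) x :=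
    (hd (-x)).hasFDerivAt.comp x (hasFDerivAt_id x).neg
  have e3 : HasFDerivAt (fun x => (φ x + φ (-x)) / 2)
      ((1 / 2 : ℝ) • (fderiv ℝ φ x +
        (fderiv ℝ φ (-x)).comp (-(ContinuousLinearMap.id ℝ (Fin 3 → ℝ))))) x := by
    have := (e1.add e2).const_mul (1 / 2 : ℝ)
    refine this.congr_of_eventuallyEq (Eventually.of_forall fun y => ?_)
    simp only [Pi.add_apply]
    ring
  unfold gsq
  rw [e3.fderiv, ← Finset.sum_add_distrib, Finset.sum_div]
  apply Finset.sum_le_sum
  intro a _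
  simp only [smul_apply, add_apply,
    ContinuousLinearMap.comp_apply, neg_apply, ContinuousLinearMap.id_apply,
    map_neg, smul_eq_mul]
  nlinarith [sq_nonneg ((fderiv ℝ φ x) (Pi.single a 1) + (fderiv ℝ φ (-x)) (Pi.single a 1))]

theorem t07 : T07 := by
  intro v hv κ hκ φ h1 h2
  unfold scE
  set F : (Fin 3 → ℝ) → ℝ := fun x => κ * gsq φ x + v x * (1 - φ x) ^ 2 with hF
  have hFi : Integrable F := ((p06_gsq_int φ h1 h2).const_mul κ).add (p06_pot_int v hv φ h1 h2)
  have hFn : Integrable (fun x => F (-x)) := hFi.comp_neg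
  have hG : Integrable (fun x => (F x + F (-x)) / 2) := (hFi.add hFn).div_const 2
  have e : ∫ x, (F x + F (-x)) / 2 = ∫ x, F x := by
    rw [integral_div, integral_add hFi hFn, integral_neg_eq_self]
    ring
  rw [← e]
  refine integral_mono_of_nonneg (Eventually.of_forall fun x => ?_) hG (Eventually.of_forall fun x => ?_)
  · have : 0 ≤ gsq (fun x => (φ x + φ (-x)) / 2) x := Finset.sum_nonneg fun a _ => sq_nonneg _
    exact add_nonneg (mul_nonneg hκ.le this) (mul_nonneg (hv.nonneg x) (sq_nonneg _))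
  · have a1 := p06_gsq_sym φ h1 x
    have a2 : v x * (1 - (φ x + φ (-x)) / 2) ^ 2 ≤
        (v x * (1 - φ x) ^ 2 + v (-x) * (1 - φ (-x)) ^ 2) / 2 := by
      rw [hv.even x]
      have := mul_nonneg (hv.nonneg x) (sq_nonneg (φ x - φ (-x)))
      nlinarith
    simp only [hF]
    nlinarith [mul_le_mul_of_nonneg_left a1 hκ.le]

end

end Pool.Agent.H751R2.LHY.MT
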