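import Pool.Agent.NH34.TC.Stm

/-!
# TC-6 (T08): Bessel inequality for the gradient (helper48)
-/

set_option autoImplicit false

open MeasureTheory UnitAddTorus Filter
open scoped ComplexConjugate ENNReal

namespace Pool.Agent.H751R2.LHY.MT

noncomputable section

/-- Bessel inequality for the sines -/
theorem p08_bessel (G : T3 → ℝ) (hG : MemLp (fun y => (G y : ℂ)) 2) (B : Finset Mom) :
    ∑ n ∈ B, (∫ y, G y * (mFourier n y).im) ^ 2 ≤ ∫ y, G y ^ 2 := by
  have h := hasSum_sq_mFourierCoeff (hG.toLp _)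
  have h1 : (∫ t, ‖(hG.toLp _) t‖ ^ 2) = ∫ y, G y ^ 2 := by
    apply integral_congr_ae
    filter_upwards [hG.coeFn_toLp] with x hx
    rw [hx, Complex.norm_real, Real.norm_eq_abs, sq_abs]
  have h2 : ∀ n : Mom, mFourierCoeff (hG.toLp _) n = mFourierCoeff (fun y => (G y : ℂ)) n := by
    intro n
    unfold mFourierCoeff
    apply integral_congr_ae
    filter_upwards [hG.coeFn_toLp] with x hx
    rw [hx]
  have hint : Integrable (fun y => (G y : ℂ)) := hG.integrable (by norm_num)
  have h3 : ∀ n : Mom, (∫ y, G y * (mFourier n y).im) ^ 2 ≤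
      ‖mFourierCoeff (fun y => (G y : ℂ)) n‖ ^ 2 := by
    intro n
    have hI : Integrable (fun y => mFourier (-n) y • (G y : ℂ)) := by
      apply hint.bdd_mul (c := 1) (mFourier (-n)).continuous.aestronglyMeasurable
      refine Eventually.of_forall fun y => ?_
      have := (mFourier (-n)).norm_coe_le_norm y
      rwa [mFourier_norm] at this
    have e1 : (mFourierCoeff (fun y => (G y : ℂ)) n).im = -∫ y, G y * (mFourier n y).im := by
      unfold mFourierCoeff
      have e2 := integral_im hI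
      rw [← integral_neg]
      refine (e2.symm).trans ?_
      refine integral_congr_ae (Eventually.of_forall fun y => ?_)
      simp only [mFourier_neg, smul_eq_mul]
      show (((starRingEnd ℂ) (mFourier n y)) * (G y : ℂ)).im = _
      rw [Complex.mul_im, Complex.conj_re, Complex.conj_im, Complex.ofReal_re, Complex.ofReal_im]
      ring
    have e2 : (∫ y, G y * (mFourier n y).im) ^ 2 =
        (mFourierCoeff (fun y => (G y : ℂ)) n).im ^ 2 := by
      rw [e1]
      ring
    rw [e2, ← sq_abs]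
    exact pow_le_pow_left₀ (abs_nonneg _) (Complex.abs_im_le_norm _) 2
  rw [h1] at h
  simp only [h2] at h
  exact (Finset.sum_le_sum fun n _ => h3 n).trans
    (sum_le_hasSum B (fun _ _ => by positivity) h)

theorem p08_cen (y : T3) : (fun a => ((cen y a : ℝ) : UnitAddCircle)) = y := by
  have := (measurableEquivPiIoc (fun _ : Fin 3 => (-(1 / 2) : ℝ))).symm_apply_apply y
  rw [coe_symm_measurableEquivPiIoc_apply] at this
  exact this

theorem p08_cen_meas : Measurable cen :=
  measurable_subtype_coe.comp (measurableEquivPiIoc (fun _ : Fin 3 => (-(1 / 2) : ℝ))).measurable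

theorem p08_sin (n : Mom) (y : T3) {ℓ : ℝ} (hℓ : 0 < ℓ) :
    Real.sin (∑ a, (2 * Real.pi / ℓ * n a) * (ℓ • cen y) a) = (mFourier n y).im := by
  have h := mFourier_coe n (cen y)
  rw [p08_cen] at h
  rw [h, Complex.exp_ofReal_mul_I_im]
  congr 1
  refine Finset.sum_congr rfl fun a _ => ?_
  rw [Pi.smul_apply, smul_eq_mul]
  field_simp

/-- integration by parts -/
theorem p08_parts (φ : (Fin 3 → ℝ) → ℝ) (hφ : ContDiff ℝ 1 φ) (hc : HasCompactSupport φ)
    (k : Fin 3 → ℝ) (a : Fin 3) :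
    k a * ∫ x, φ x * Real.cos (∑ b, k b * x b) =
      -∫ x, fderiv ℝ φ x (Pi.single a 1) * Real.sin (∑ b, k b * x b) := by
  have hcos : Continuous fun x : Fin 3 → ℝ => Real.cos (∑ b, k b * x b) := by fun_prop
  have hsin : Continuous fun x : Fin 3 → ℝ => Real.sin (∑ b, k b * x b) := by fun_prop
  set L : (Fin 3 → ℝ) →L[ℝ] ℝ := ∑ b, k b • ContinuousLinearMap.proj b with hL
  have hLx : ∀ x : Fin 3 → ℝ, L x = ∑ b, k b * x b := by
    intro x
    rw [hL]
    simp
  have hd : ∀ x : Fin 3 → ℝ, HasFDerivAt (fun x : Fin 3 → ℝ => Real.sin (∑ b, k b * x b))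
      (Real.cos (L x) • L) x := by
    intro x
    have h := (L.hasFDerivAt (x := x)).sin
    have e : (fun x => Real.sin (L x)) = fun x : Fin 3 → ℝ => Real.sin (∑ b, k b * x b) := by
      funext x
      rw [hLx]
    rwa [e] at h
  have hd2 : ∀ x : Fin 3 → ℝ, fderiv ℝ (fun x : Fin 3 → ℝ => Real.sin (∑ b, k b * x b)) x
      (Pi.single a 1) = k a * Real.cos (∑ b, k b * x b) := by
    intro x
    rw [(hd x).fderiv, ContinuousLinearMap.smul_apply, hLx, hLx, smul_eq_mul, mul_comm]
    congr 1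
    rw [Finset.sum_eq_single a]
    · rw [Pi.single_eq_same, mul_one]
    · intro b _ hb
      rw [Pi.single_eq_of_ne hb, mul_zero]
    · intro h
      exact absurd (Finset.mem_univ a) h
  have hφc := hφ.continuous
  have hdc : Continuous fun x => fderiv ℝ φ x (Pi.single a 1) :=
    (hφ.continuous_fderiv one_ne_zero).clm_apply continuous_const
  have h := integral_mul_fderiv_eq_neg_fderiv_mul_of_integrable (μ := (volume : Measure (Fin 3 → ℝ)))
    (f := φ) (g := fun x : Fin 3 → ℝ => Real.sin (∑ b, k b * x b)) (v := Pi.single a 1) ?_ ?_ ?_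
    (fun x _ => hφ.differentiable one_ne_zero x) (fun x _ => (hd x).differentiableAt)
  · rw [← h, ← integral_const_mul]
    refine integral_congr_ae (Eventually.of_forall fun x => ?_)
    simp only [hd2]
    ring
  · exact (hdc.mul hsin).integrable_of_hasCompactSupport ((hc.fderiv_apply ℝ _).mul_right)
  · simp only [hd2]
    exact (hφc.mul (continuous_const.mul hcos)).integrable_of_hasCompactSupport hc.mul_right
  · exact (hφc.mul hsin).integrable_of_hasCompactSupport hc.mul_right

theorem p08_sqint (g : (Fin 3 → ℝ) → ℝ) (hg : Continuous g) (hgc : HasCompactSupport g) :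
    Integrable fun x => g x ^ 2 := by
  have h1 : HasCompactSupport fun x => g x ^ 2 :=
    hgc.comp_left (g := fun t : ℝ => t ^ 2) (by norm_num)
  have h2 : Continuous fun x => g x ^ 2 := hg.pow 2
  exact h2.integrable_of_hasCompactSupport h1

/-- one direction -/
theorem p08_one (h6 : T06) {ℓ : ℝ} (hℓ : 0 < ℓ) (g : (Fin 3 → ℝ) → ℝ) (hg : Continuous g)
    (hgc : HasCompactSupport g) (hgs : ∀ x, g x ≠ 0 → ∀ b, |x b| < ℓ / 2) (B : Finset Mom) :
    ∑ n ∈ B, ((1 / ℓ ^ 3) * ∫ x, g x * Real.sin (∑ b, (2 * Real.pi / ℓ * n b) * x b)) ^ 2 ≤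
      (1 / ℓ ^ 3) * ∫ x, g x ^ 2 := by
  obtain ⟨C, hC⟩ := hgc.exists_bound_of_continuous hg
  have hmeas : Measurable fun y : T3 => g (ℓ • cen y) :=
    hg.measurable.comp (p08_cen_meas.const_smul ℓ)
  have hG : MemLp (fun y : T3 => ((g (ℓ • cen y) : ℝ) : ℂ)) 2 := by
    refine MemLp.of_bound (Complex.measurable_ofReal.comp hmeas).aestronglyMeasurable C
      (Eventually.of_forall fun y => ?_)
    rw [Complex.norm_real]
    exact hC _
  have h1 := p08_bessel (fun y : T3 => g (ℓ • cen y)) hG B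
  have h2 := (h6 ℓ hℓ (fun x => g x ^ 2) (p08_sqint g hg hgc)
    (fun x hx => hgs x (fun h0 => hx (by rw [h0]; norm_num)))).2
  rw [← h2]
  refine le_trans (le_of_eq (Finset.sum_congr rfl fun n _ => ?_)) h1
  have hcs : HasCompactSupport fun x : Fin 3 → ℝ =>
      g x * Real.sin (∑ b, (2 * Real.pi / ℓ * n b) * x b) := hgc.mul_right
  have hct : Continuous fun x : Fin 3 → ℝ =>
      g x * Real.sin (∑ b, (2 * Real.pi / ℓ * n b) * x b) := hg.mul (by fun_prop)
  have h3 := (h6 ℓ hℓ (fun x => g x * Real.sin (∑ b, (2 * Real.pi / ℓ * n b) * x b))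
    (hct.integrable_of_hasCompactSupport hcs)
    (fun x hx => hgs x (fun h0 => hx (by rw [h0, zero_mul])))).2
  rw [← h3]
  congr 1
  refine integral_congr_ae (Eventually.of_forall fun y => ?_)
  have h4 := p08_sin n y hℓ
  exact congrArg (g (ℓ • cen y) * ·) h4

theorem t08 (h6 : T06) : T08 := by
  intro φ hφ ℓ hℓ hc hsupp B
  have hdc : ∀ a : Fin 3, Continuous fun x => fderiv ℝ φ x (Pi.single a 1) := fun a =>
    (hφ.continuous_fderiv one_ne_zero).clm_apply continuous_const
  have hdcs : ∀ a : Fin 3, HasCompactSupport fun x => fderiv ℝ φ x (Pi.single a 1) := fun a =>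
    hc.fderiv_apply ℝ _
  have hts : tsupport φ ⊆ {x | ∀ b, |x b| ≤ ℓ / 4} := by
    apply closure_minimal
    · intro x hx
      exact hsupp x hx
    · have : {x : Fin 3 → ℝ | ∀ b, |x b| ≤ ℓ / 4} = ⋂ b, {x : Fin 3 → ℝ | |x b| ≤ ℓ / 4} := by
        ext x; simp
      rw [this]
      exact isClosed_iInter fun b => isClosed_le (by fun_prop) continuous_const
  have hds : ∀ (a : Fin 3) (x : Fin 3 → ℝ), fderiv ℝ φ x (Pi.single a 1) ≠ 0 →
      ∀ b, |x b| < ℓ / 2 := by
    intro a x hx b
    have h1 : x ∈ Function.support (fderiv ℝ φ) := by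
      intro h0
      apply hx
      rw [h0]
      rfl
    have h2 := hts (support_fderiv_subset ℝ h1) b
    linarith
  have hone : ∀ a : Fin 3, ∑ n ∈ B, (2 * Real.pi / ℓ * n a * cc φ ℓ n) ^ 2 ≤
      (1 / ℓ ^ 3) * ∫ x, (fderiv ℝ φ x (Pi.single a 1)) ^ 2 := by
    intro a
    refine le_trans (le_of_eq (Finset.sum_congr rfl fun n _ => ?_))
      (p08_one h6 hℓ _ (hdc a) (hdcs a) (hds a) B)
    have h5 := p08_parts φ hφ hc (fun b => 2 * Real.pi / ℓ * n b) a
    have h6 : 2 * Real.pi / ℓ * n a * cc φ ℓ n = -((1 / ℓ ^ 3) *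
        ∫ x, fderiv ℝ φ x (Pi.single a 1) * Real.sin (∑ b, (2 * Real.pi / ℓ * n b) * x b)) := by
      unfold cc
      rw [mul_left_comm, ← mul_neg, ← h5]
    rw [h6, neg_sq]
  have hsum : ∀ n : Mom, (2 * Real.pi / ℓ) ^ 2 * sq n * cc φ ℓ n ^ 2 =
      ∑ a : Fin 3, (2 * Real.pi / ℓ * n a * cc φ ℓ n) ^ 2 := by
    intro n
    unfold sq
    rw [Finset.mul_sum, Finset.sum_mul]
    refine Finset.sum_congr rfl fun a _ => ?_
    ring
  rw [Finset.sum_congr rfl fun n _ => hsum n, Finset.sum_comm]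
  refine (Finset.sum_le_sum fun a _ => hone a).trans (le_of_eq ?_)
  rw [← Finset.mul_sum]
  congr 1
  unfold gsq
  rw [integral_finsetSum]
  intro a _
  exact p08_sqint _ (hdc a) (hdcs a)

end

end Pool.Agent.H751R2.LHY.MT
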