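import Pool.Agent.NH34.TC.Stm

/-!
# Project TC, part 9: the Fourier series of `φ(ℓ cen y)` converges in `L²` (by helper80)
-/

open MeasureTheory UnitAddTorus Filter
open scoped ComplexConjugate ENNReal

namespace Pool.Agent.H751R2.LHY.MT

noncomputable section

theorem p09_cen (y : T3) (a : Fin 3) : ((cen y a : ℝ) : UnitAddCircle) = y a := by
  have h := (measurableEquivPiIoc (fun _ : Fin 3 => (-(1 / 2) : ℝ))).symm_apply_apply y
  exact congrFun h a

theorem p09_mF (n : Mom) (y : T3) :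
    mFourier n y = Complex.exp (((∑ a, 2 * Real.pi * n a * cen y a : ℝ) : ℂ) * Complex.I) := by
  have h1 : ∀ a : Fin 3, fourier (n a) (y a) =
      Complex.exp (((2 * Real.pi * n a * cen y a : ℝ) : ℂ) * Complex.I) := by
    intro a
    conv_lhs => rw [← p09_cen y a]
    rw [fourier_coe_apply]
    congr 1
    push_cast
    ring
  simp only [mFourier, ContinuousMap.coe_mk]
  rw [Finset.prod_congr rfl (fun a _ => h1 a), ← Complex.exp_sum, ← Finset.sum_mul]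
  congr 2
  push_cast
  rfl

theorem p09_re (n : Mom) (y : T3) : cs n y = Real.cos (∑ a, 2 * Real.pi * n a * cen y a) := by
  unfold cs
  rw [p09_mF, Complex.exp_ofReal_mul_I_re]

theorem p09_im (n : Mom) (y : T3) :
    (mFourier n y).im = Real.sin (∑ a, 2 * Real.pi * n a * cen y a) := by
  rw [p09_mF, Complex.exp_ofReal_mul_I_im]

theorem p09_arg {ℓ : ℝ} (hℓ : 0 < ℓ) (n : Mom) (y : T3) :
    ∑ a, (2 * Real.pi / ℓ * n a) * (ℓ • cen y) a = ∑ a, 2 * Real.pi * n a * cen y a := by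
  refine Finset.sum_congr rfl fun a _ => ?_
  rw [Pi.smul_apply, smul_eq_mul]
  field_simp

/-- the standing data -/
structure P09D (φ : (Fin 3 → ℝ) → ℝ) (ℓ : ℝ) : Prop where
  pos : 0 < ℓ
  cont : Continuous φ
  even : ∀ x, φ (-x) = φ x
  supp : HasCompactSupport φ
  box : ∀ x, φ x ≠ 0 → ∀ a, |x a| ≤ ℓ / 4

theorem p09_use (h6 : T06) {φ : (Fin 3 → ℝ) → ℝ} {ℓ : ℝ} (D : P09D φ ℓ) {g : (Fin 3 → ℝ) → ℝ}
    (hg : Continuous g) :
    Integrable (fun y : T3 => φ (ℓ • cen y) * g (ℓ • cen y)) ∧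
      ∫ y : T3, φ (ℓ • cen y) * g (ℓ • cen y) = (1 / ℓ ^ 3) * ∫ x, φ x * g x := by
  refine h6 ℓ D.pos (fun x => φ x * g x) ?_ ?_
  · exact (D.cont.mul hg).integrable_of_hasCompactSupport D.supp.mul_right
  · intro x hx a
    have h1 : φ x ≠ 0 := fun h => hx (by simp [h])
    have h2 := D.box x h1 a
    have h3 := D.pos
    linarith

theorem p09_cos (h6 : T06) {φ : (Fin 3 → ℝ) → ℝ} {ℓ : ℝ} (D : P09D φ ℓ) (n : Mom) :
    Integrable (fun y : T3 => φ (ℓ • cen y) * cs n y) ∧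
      ∫ y : T3, φ (ℓ • cen y) * cs n y = cc φ ℓ n := by
  have hg : Continuous (fun x : Fin 3 → ℝ => Real.cos (∑ a, (2 * Real.pi / ℓ * n a) * x a)) := by
    fun_prop
  have h := p09_use h6 D hg
  simp only [p09_arg D.pos, ← p09_re] at h
  exact h

theorem p09_sin (h6 : T06) {φ : (Fin 3 → ℝ) → ℝ} {ℓ : ℝ} (D : P09D φ ℓ) (n : Mom) :
    Integrable (fun y : T3 => φ (ℓ • cen y) * (mFourier n y).im) ∧
      ∫ y : T3, φ (ℓ • cen y) * (mFourier n y).im = 0 := by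
  have hg : Continuous (fun x : Fin 3 → ℝ => Real.sin (∑ a, (2 * Real.pi / ℓ * n a) * x a)) := by
    fun_prop
  have h := p09_use h6 D hg
  simp only [p09_arg D.pos, ← p09_im] at h
  refine ⟨h.1, ?_⟩
  rw [h.2]
  have h2 : (∫ x : Fin 3 → ℝ, φ x * Real.sin (∑ a, (2 * Real.pi / ℓ * n a) * x a)) =
      -(∫ x : Fin 3 → ℝ, φ x * Real.sin (∑ a, (2 * Real.pi / ℓ * n a) * x a)) := by
    conv_lhs => rw [← integral_neg_eq_self]
    rw [← integral_neg]
    refine integral_congr_ae (Eventually.of_forall fun x => ?_)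
    simp only [D.even, Pi.neg_apply, mul_neg, Finset.sum_neg_distrib, Real.sin_neg]
  have h3 : (∫ x : Fin 3 → ℝ, φ x * Real.sin (∑ a, (2 * Real.pi / ℓ * n a) * x a)) = 0 := by
    linarith
  rw [h3, mul_zero]

theorem p09_int (h6 : T06) {φ : (Fin 3 → ℝ) → ℝ} {ℓ : ℝ} (D : P09D φ ℓ) :
    Integrable (fun y : T3 => φ (ℓ • cen y)) ∧ ∫ y : T3, φ (ℓ • cen y) = cc φ ℓ 0 := by
  have h := p09_cos h6 D 0
  have h1 : ∀ y : T3, cs 0 y = 1 := by
    intro y
    unfold cs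
    rw [mFourier_zero]; simp
  simp only [h1, mul_one] at h
  exact h

theorem p09_sq (h6 : T06) {φ : (Fin 3 → ℝ) → ℝ} {ℓ : ℝ} (D : P09D φ ℓ) :
    Integrable (fun y : T3 => φ (ℓ • cen y) ^ 2) ∧
      ∫ y : T3, φ (ℓ • cen y) ^ 2 = (1 / ℓ ^ 3) * ∫ x, φ x ^ 2 := by
  have h := p09_use h6 D D.cont
  simp only [← pow_two] at h
  exact h

theorem p09_coef (h6 : T06) {φ : (Fin 3 → ℝ) → ℝ} {ℓ : ℝ} (D : P09D φ ℓ) (n : Mom) :
    mFourierCoeff (fun y : T3 => ((φ (ℓ • cen y) : ℝ) : ℂ)) n = ((cc φ ℓ n : ℝ) : ℂ) := by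
  unfold mFourierCoeff
  have h1 : ∀ y : T3, mFourier (-n) y • ((φ (ℓ • cen y) : ℝ) : ℂ) =
      ((φ (ℓ • cen y) * cs n y : ℝ) : ℂ) -
        ((φ (ℓ • cen y) * (mFourier n y).im : ℝ) : ℂ) * Complex.I := by
    intro y
    rw [mFourier_neg, smul_eq_mul]
    apply Complex.ext
    · simp [cs, mul_comm]
    · simp [cs, mul_comm]
  simp only [h1]
  rw [integral_sub (p09_cos h6 D n).1.ofReal ((p09_sin h6 D n).1.ofReal.mul_const _),
    integral_mul_const, integral_complex_ofReal, integral_complex_ofReal, (p09_cos h6 D n).2,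
    (p09_sin h6 D n).2]
  simp

theorem p09_sum (h6 : T06) {φ : (Fin 3 → ℝ) → ℝ} {ℓ : ℝ} (D : P09D φ ℓ) :
    HasSum (fun n : Mom => cc φ ℓ n ^ 2) (∫ y : T3, φ (ℓ • cen y) ^ 2) := by
  have hψ : MemLp (fun y : T3 => ((φ (ℓ • cen y) : ℝ) : ℂ)) 2 := by
    rw [memLp_two_iff_integrable_sq_norm (p09_int h6 D).1.ofReal.aestronglyMeasurable]
    simp only [Complex.norm_real, Real.norm_eq_abs, sq_abs]
    exact (p09_sq h6 D).1
  have h := hasSum_sq_mFourierCoeff (hψ.toLp _)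
  have h1 : (∫ t, ‖(hψ.toLp (fun y : T3 => ((φ (ℓ • cen y) : ℝ) : ℂ))) t‖ ^ 2) =
      ∫ y : T3, φ (ℓ • cen y) ^ 2 := by
    apply integral_congr_ae
    filter_upwards [hψ.coeFn_toLp] with x hx
    rw [hx, Complex.norm_real, Real.norm_eq_abs, sq_abs]
  have h2 : ∀ n : Mom, mFourierCoeff (hψ.toLp (fun y : T3 => ((φ (ℓ • cen y) : ℝ) : ℂ))) n =
      ((cc φ ℓ n : ℝ) : ℂ) := by
    intro n
    rw [← p09_coef h6 D n]
    unfold mFourierCoeff
    apply integral_congr_ae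
    filter_upwards [hψ.coeFn_toLp] with x hx
    rw [hx]
  rw [h1] at h
  simp only [h2, Complex.norm_real, Real.norm_eq_abs, sq_abs] at h
  exact h

theorem p09_mem {R : ℕ} {n : Mom} : n ∈ boxM R ↔ ∀ a, |n a| ≤ R := by
  simp [boxM, Fintype.mem_piFinset, Finset.mem_Icc, abs_le]

theorem p09_box : Tendsto boxM atTop atTop := by
  apply Filter.tendsto_atTop_finset_of_monotone
  · intro R R' h M hM
    rw [p09_mem] at *
    intro a
    exact (hM a).trans (by exact_mod_cast h)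
  · intro M
    refine ⟨∑ a, (M a).natAbs, ?_⟩
    rw [p09_mem]
    intro a
    rw [Int.abs_eq_natAbs]
    norm_cast
    exact Finset.single_le_sum (f := fun a => (M a).natAbs) (fun _ _ => Nat.zero_le _)
      (Finset.mem_univ a)

theorem p09_even {φ : (Fin 3 → ℝ) → ℝ} {ℓ : ℝ} (n : Mom) : cc φ ℓ (-n) = cc φ ℓ n := by
  unfold cc
  congr 1
  refine integral_congr_ae (Eventually.of_forall fun x => ?_)
  simp only [Pi.neg_apply, Int.cast_neg, mul_neg, neg_mul, Finset.sum_neg_distrib, Real.cos_neg]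

theorem p09_sym (R : ℕ) : Sym ((boxM R).erase 0) := by
  refine ⟨?_, ?_⟩
  · intro n hn
    rw [Finset.mem_erase, p09_mem] at *
    refine ⟨fun h => hn.1 (neg_eq_zero.1 h), fun a => ?_⟩
    rw [Pi.neg_apply, abs_neg]
    exact hn.2 a
  · simp

theorem p09_wfint (h6 : T06) {φ : (Fin 3 → ℝ) → ℝ} {ℓ : ℝ} (D : P09D φ ℓ) (B : Finset Mom) :
    Integrable (fun y : T3 => φ (ℓ • cen y) * wf B (cc φ ℓ) y) ∧
      ∫ y : T3, φ (ℓ • cen y) * wf B (cc φ ℓ) y = ∑ n ∈ B, cc φ ℓ n ^ 2 := by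
  have h1 : ∀ y : T3, φ (ℓ • cen y) * wf B (cc φ ℓ) y =
      ∑ n ∈ B, cc φ ℓ n * (φ (ℓ • cen y) * cs n y) := by
    intro y
    unfold wf
    rw [Finset.mul_sum]
    exact Finset.sum_congr rfl fun n _ => by ring
  simp only [h1]
  refine ⟨integrable_finsetSum _ fun n _ => (p09_cos h6 D n).1.const_mul _, ?_⟩
  rw [integral_finsetSum _ fun n _ => (p09_cos h6 D n).1.const_mul _]
  refine Finset.sum_congr rfl fun n _ => ?_
  rw [integral_const_mul, (p09_cos h6 D n).2]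
  ring

theorem p09_expand {w F : T3 → ℝ} (c : ℝ) (i1 : Integrable (fun y => w y ^ 2))
    (i2 : Integrable (fun y => F y * w y)) (i3 : Integrable w) (i4 : Integrable (fun y => F y ^ 2))
    (i5 : Integrable F) :
    ∫ y, (w y - (F y - c)) ^ 2 = (∫ y, w y ^ 2) - 2 * (∫ y, F y * w y) + 2 * c * (∫ y, w y) +
      (∫ y, F y ^ 2) - 2 * c * (∫ y, F y) + c ^ 2 := by
  have h1 : ∀ y : T3, (w y - (F y - c)) ^ 2 =
      w y ^ 2 + ((-2) * (F y * w y) + ((2 * c) * w y + (F y ^ 2 + ((-2 * c) * F y + c ^ 2)))) := by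
    intro y; ring
  have j5 : Integrable (fun y : T3 => (-2 * c) * F y) := i5.const_mul _
  have j3 : Integrable (fun y : T3 => (2 * c) * w y) := i3.const_mul _
  have j2 : Integrable (fun y : T3 => (-2 : ℝ) * (F y * w y)) := i2.const_mul _
  have k5 : Integrable (fun y : T3 => (-2 * c) * F y + c ^ 2) := j5.add (integrable_const _)
  have k4 : Integrable (fun y : T3 => F y ^ 2 + ((-2 * c) * F y + c ^ 2)) := i4.add k5
  have k3 : Integrable (fun y : T3 => (2 * c) * w y + (F y ^ 2 + ((-2 * c) * F y + c ^ 2))) :=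
    j3.add k4
  have k2 : Integrable (fun y : T3 =>
      (-2) * (F y * w y) + ((2 * c) * w y + (F y ^ 2 + ((-2 * c) * F y + c ^ 2)))) := j2.add k3
  simp only [h1]
  rw [integral_add i1 k2, integral_add j2 k3, integral_add j3 k4, integral_add i4 k5,
    integral_add j5 (integrable_const _), integral_const_mul, integral_const_mul,
    integral_const_mul, integral_const]
  simp only [probReal_univ, one_smul]
  ring

theorem p09_main (h6 : T06) {φ : (Fin 3 → ℝ) → ℝ} {ℓ : ℝ} (D : P09D φ ℓ) (R : ℕ) :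
    ∫ y : T3, (wf ((boxM R).erase 0) (cc φ ℓ) y - (φ (ℓ • cen y) - cc φ ℓ 0)) ^ 2 =
      (∫ y : T3, φ (ℓ • cen y) ^ 2) - ∑ n ∈ boxM R, cc φ ℓ n ^ 2 := by
  have hB := p09_sym R
  have i1 : Integrable (fun y : T3 => wf ((boxM R).erase 0) (cc φ ℓ) y ^ 2) :=
    ClipH44.cont_integrable_real ((ClipH44.wf_cont _ _).pow 2)
  have i2 := (p09_wfint h6 D ((boxM R).erase 0)).1
  have i3 : Integrable (fun y : T3 => wf ((boxM R).erase 0) (cc φ ℓ) y) :=
    ClipH44.cont_integrable_real (ClipH44.wf_cont _ _)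
  have i4 := (p09_sq h6 D).1
  have i5 := (p09_int h6 D).1
  have h0 : (0 : Mom) ∈ boxM R := by
    rw [p09_mem]; intro a; simp
  have hs : ∑ n ∈ boxM R, cc φ ℓ n ^ 2 =
      cc φ ℓ 0 ^ 2 + ∑ n ∈ (boxM R).erase 0, cc φ ℓ n ^ 2 :=
    (Finset.add_sum_erase _ _ h0).symm
  rw [p09_expand (cc φ ℓ 0) i1 i2 i3 i4 i5, ClipH44.wf_sq_int hB p09_even,
    (p09_wfint h6 D _).2, ClipH44.wf_int hB, (p09_int h6 D).2, hs]
  ring

theorem t09 (h6 : T06) : T09 := by
  intro φ hφ he ℓ hℓ hc hb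
  have D : P09D φ ℓ := ⟨hℓ, hφ.continuous, he, hc, hb⟩
  have hS := p09_sum h6 D
  refine ⟨fun B => ?_, ?_⟩
  · rw [← (p09_sq h6 D).2]
    exact sum_le_hasSum B (fun n _ => sq_nonneg _) hS
  · simp only [p09_main h6 D]
    have h1 : Tendsto (fun R : ℕ => ∑ n ∈ boxM R, cc φ ℓ n ^ 2) atTop
        (nhds (∫ y : T3, φ (ℓ • cen y) ^ 2)) := by
      have h2 : Tendsto (fun S : Finset Mom => ∑ n ∈ S, cc φ ℓ n ^ 2) atTop
        (nhds (∫ y : T3, φ (ℓ • cen y) ^ 2)) := by simpa [HasSum] using hS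
      exact h2.comp p09_box
    have h3 := h1.const_sub (∫ y : T3, φ (ℓ • cen y) ^ 2)
    rw [sub_self] at h3
    exact h3

end

end Pool.Agent.H751R2.LHY.MT
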