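import Pool.Agent.NH34.TC.Stm

/-!
# T10: potential energy on the torus against potential energy in space
-/

open MeasureTheory UnitAddTorus Filter
open scoped ComplexConjugate ENNReal

namespace Pool.Agent.H751R2.LHY.MT

noncomputable section

lemma p10_cen_meas : Measurable cen :=
  measurable_subtype_coe.comp (measurableEquivPiIoc (fun _ : Fin 3 => (-(1 / 2) : ℝ))).measurable

lemma p10_cen_coe (t : Fin 3 → ℝ) (ht : ∀ a, |t a| < 1 / 2) :
    cen (fun a => ((t a : ℝ) : UnitAddCircle)) = t := by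
  have h : ∀ i, t i ∈ Set.Ioc (-(1 / 2) : ℝ) (-(1 / 2) + 1) := by
    intro i
    have := abs_lt.1 (ht i)
    constructor
    · exact this.1
    · linarith [this.2]
  exact congrArg Subtype.val
    ((measurableEquivPiIoc (fun _ : Fin 3 => (-(1 / 2) : ℝ))).apply_symm_apply ⟨t, h⟩)

lemma p10_cc (φ : (Fin 3 → ℝ) → ℝ) (ℓ : ℝ) : cc φ ℓ 0 = (1 / ℓ ^ 3) * ∫ x, φ x := by
  unfold cc
  congr 1
  refine integral_congr_ae (Filter.Eventually.of_forall fun x => ?_)
  simp

lemma p10_cc_lim (φ : (Fin 3 → ℝ) → ℝ) : Tendsto (fun ℓ : ℝ => cc φ ℓ 0) atTop (nhds 0) := by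
  simp only [p10_cc]
  have h : Tendsto (fun ℓ : ℝ => 1 / ℓ ^ 3) atTop (nhds 0) :=
    tendsto_const_nhds.div_atTop (tendsto_pow_atTop (by norm_num))
  simpa using h.mul_const (∫ x, φ x)

theorem t10 : T10 := by
  intro v hv φ hφ hc ε hε
  obtain ⟨M, hM⟩ := hφ.continuous.bounded_above_of_compact_support hc
  obtain ⟨R, hR⟩ := hc.isCompact.isBounded.subset_closedBall 0
  have hsupp : ∀ x, φ x ≠ 0 → ∀ a, |x a| ≤ R := by
    intro x hx a
    have h1 : x ∈ Metric.closedBall (0 : Fin 3 → ℝ) R := hR (subset_tsupport φ hx)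
    rw [mem_closedBall_zero_iff] at h1
    exact (norm_le_pi_norm x a).trans h1
  set F : ℝ → (Fin 3 → ℝ) → ℝ := fun ℓ x =>
    (1 - (φ (ℓ • cen (fun a => ((x a / ℓ : ℝ) : UnitAddCircle))) - cc φ ℓ 0)) ^ 2 with hF
  have hmeas : ∀ ℓ : ℝ, Measurable (fun y : T3 => (1 - (φ (ℓ • cen y) - cc φ ℓ 0)) ^ 2) := by
    intro ℓ
    have h1 : Measurable (fun y : T3 => φ (ℓ • cen y)) :=
      hφ.continuous.measurable.comp (p10_cen_meas.const_smul ℓ)
    exact ((measurable_const.sub (h1.sub measurable_const))).pow_const 2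
  have hint : ∀ ℓ : ℝ, 0 < ℓ → ℓ ^ 3 * ∫ y : T3, Wr v ℓ y * (1 - (φ (ℓ • cen y) - cc φ ℓ 0)) ^ 2 =
      ∫ x, v x * F ℓ x := by
    intro ℓ hℓ
    rw [Wr_integral hv.meas hv.int hv.nonneg hℓ (hmeas ℓ) (fun y => sq_nonneg _), ← mul_assoc,
      mul_one_div_cancel (pow_ne_zero 3 hℓ.ne'), one_mul]
  have hcoe : ∀ ℓ : ℝ, Measurable (fun x : Fin 3 → ℝ => (fun a => ((x a / ℓ : ℝ) : UnitAddCircle))) := by
    intro ℓ
    refine measurable_pi_lambda _ (fun a => ?_)
    have h : Measurable (fun x : Fin 3 → ℝ => x a / ℓ) := by fun_prop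
    exact AddCircle.measurable_mk'.comp h
  have hFm : ∀ ℓ : ℝ, Measurable (F ℓ) := fun ℓ => (hmeas ℓ).comp (hcoe ℓ)
  have hcl := p10_cc_lim φ
  have hlim : Tendsto (fun ℓ : ℝ => ∫ x, v x * F ℓ x) atTop (nhds (∫ x, v x * (1 - φ x) ^ 2)) := by
    refine tendsto_integral_filter_of_dominated_convergence (fun x => v x * (2 + M) ^ 2) ?_ ?_ ?_ ?_
    · exact Filter.Eventually.of_forall fun ℓ => (hv.meas.mul (hFm ℓ)).aestronglyMeasurable
    · have h1 : ∀ᶠ ℓ : ℝ in atTop, |cc φ ℓ 0| < 1 := by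
        have h2 := hcl.abs
        rw [abs_zero] at h2
        exact h2.eventually_lt_const one_pos
      filter_upwards [h1] with ℓ hℓ
      refine Filter.Eventually.of_forall fun x => ?_
      rw [norm_mul, Real.norm_eq_abs, Real.norm_eq_abs, abs_of_nonneg (hv.nonneg x)]
      refine mul_le_mul_of_nonneg_left ?_ (hv.nonneg x)
      rw [hF]
      simp only
      rw [abs_of_nonneg (sq_nonneg _)]
      have h3 := hM (ℓ • cen (fun a => ((x a / ℓ : ℝ) : UnitAddCircle)))
      rw [Real.norm_eq_abs] at h3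
      have h4 := abs_le.1 h3
      have h5 := abs_lt.1 hℓ
      apply sq_le_sq'
      · linarith
      · linarith
    · exact hv.int.mul_const _
    · refine Filter.Eventually.of_forall fun x => ?_
      have h1 : ∀ᶠ ℓ : ℝ in atTop, F ℓ x = (1 - (φ x - cc φ ℓ 0)) ^ 2 := by
        filter_upwards [eventually_gt_atTop (2 * ‖x‖), eventually_gt_atTop 0] with ℓ hℓ hℓ0
        have h2 : ∀ a, |x a / ℓ| < 1 / 2 := by
          intro a
          rw [abs_div, abs_of_pos hℓ0, div_lt_iff₀ hℓ0]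
          have := norm_le_pi_norm x a
          rw [Real.norm_eq_abs] at this
          linarith
        have h3 : ℓ • cen (fun a => ((x a / ℓ : ℝ) : UnitAddCircle)) = x := by
          rw [p10_cen_coe (fun a => x a / ℓ) h2]
          ext a
          simp only [Pi.smul_apply, smul_eq_mul]
          field_simp
        rw [hF]
        simp only
        rw [h3]
      have h4 : Tendsto (fun ℓ : ℝ => v x * (1 - (φ x - cc φ ℓ 0)) ^ 2) atTop
          (nhds (v x * (1 - (φ x - 0)) ^ 2)) :=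
        ((tendsto_const_nhds.sub (tendsto_const_nhds.sub hcl)).pow 2).const_mul _
      rw [sub_zero] at h4
      refine h4.congr' ?_
      filter_upwards [h1] with ℓ hℓ
      rw [hℓ]
  have hev : ∀ᶠ ℓ : ℝ in atTop, ∫ x, v x * F ℓ x < (∫ x, v x * (1 - φ x) ^ 2) + ε :=
    hlim.eventually_lt_const (by linarith)
  obtain ⟨ℓ₁, hℓ₁⟩ := Filter.eventually_atTop.1 hev
  refine ⟨max ℓ₁ (max 1 (4 * R)), lt_of_lt_of_le one_pos ((le_max_left _ _).trans (le_max_right _ _)),
    fun ℓ hℓ => ⟨fun x hx a => ?_, ?_⟩⟩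
  · have h1 : 4 * R ≤ ℓ := ((le_max_right _ _).trans (le_max_right _ _)).trans hℓ
    have h2 := hsupp x hx a
    linarith
  · have h1 : 0 < ℓ := lt_of_lt_of_le one_pos (((le_max_left _ _).trans (le_max_right _ _)).trans hℓ)
    rw [hint ℓ h1]
    exact (hℓ₁ ℓ ((le_max_left _ _).trans hℓ)).le

end

end Pool.Agent.H751R2.LHY.MT
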