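import Pool.Agent.NH34.TC.Stm

/-!
# TC-9 (helper99): upper bound for the effective interaction
-/

open MeasureTheory UnitAddTorus Filter
open scoped ComplexConjugate ENNReal

namespace Pool.Agent.H751R2.LHY.MT

noncomputable section

/-- even part -/
def p11e (φ : (Fin 3 → ℝ) → ℝ) (x : Fin 3 → ℝ) : ℝ := (φ x + φ (-x)) / 2

theorem p11e_even (φ : (Fin 3 → ℝ) → ℝ) (x : Fin 3 → ℝ) : p11e φ (-x) = p11e φ x := by
  unfold p11e
  rw [neg_neg, add_comm]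

theorem p11e_cd {φ : (Fin 3 → ℝ) → ℝ} (h : ContDiff ℝ 1 φ) : ContDiff ℝ 1 (p11e φ) := by
  unfold p11e
  exact (h.add (h.comp contDiff_neg)).div_const 2

theorem p11e_cs {φ : (Fin 3 → ℝ) → ℝ} (h : HasCompactSupport φ) : HasCompactSupport (p11e φ) := by
  have h1 : HasCompactSupport (fun x => φ (-x)) := h.comp_homeomorph (Homeomorph.neg (Fin 3 → ℝ))
  have h2 : HasCompactSupport (fun x => φ x + φ (-x)) := h.add h1
  have h3 : p11e φ = fun x => (φ x + φ (-x)) * (1 / 2) := by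
    funext x
    unfold p11e
    ring
  rw [h3]
  exact h2.mul_right (f' := fun _ => (1 / 2 : ℝ))

theorem p11_cen_meas : Measurable cen :=
  measurable_subtype_coe.comp (measurableEquivPiIoc (fun _ : Fin 3 => (-(1 / 2) : ℝ))).measurable

theorem p11_bdd {φ : (Fin 3 → ℝ) → ℝ} (h : ContDiff ℝ 1 φ) (hc : HasCompactSupport φ) :
    ∃ M : ℝ, 0 ≤ M ∧ ∀ x, |φ x| ≤ M := by
  obtain ⟨M, hM⟩ := hc.exists_bound_of_continuous h.continuous
  exact ⟨M, (norm_nonneg _).trans (hM 0), fun x => hM x⟩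

theorem p11_gsq_int {φ : (Fin 3 → ℝ) → ℝ} (h : ContDiff ℝ 1 φ) (hc : HasCompactSupport φ) :
    Integrable (gsq φ) := by
  have h1 : Continuous (gsq φ) := by
    unfold gsq
    refine continuous_finsetSum _ fun a _ => ?_
    have h2 : Continuous (fderiv ℝ φ) := h.continuous_fderiv one_ne_zero
    exact (h2.clm_apply continuous_const).pow 2
  refine h1.integrable_of_hasCompactSupport ?_
  refine (hc.fderiv (𝕜 := ℝ)).mono ?_
  intro x hx
  rw [Function.mem_support] at hx ⊢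
  intro h3
  apply hx
  unfold gsq
  rw [h3]
  simp

theorem t11 (h7 : T07) (h8 : T08) (h9 : T09) (h10 : T10) : T11 := by
  intro v hv τ hτ φ hφ1 hφc ε hε
  set ψ := p11e φ with hψ
  have hψ1 : ContDiff ℝ 1 ψ := p11e_cd hφ1
  have hψc : HasCompactSupport ψ := p11e_cs hφc
  have hψe : ∀ x, ψ (-x) = ψ x := p11e_even φ
  have hle : scE (2 * τ) v ψ ≤ scE (2 * τ) v φ := h7 v hv (2 * τ) (by positivity) φ hφ1 hφc
  obtain ⟨M, hM0, hM⟩ := p11_bdd hψ1 hψc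
  obtain ⟨ℓ₀, hℓ₀, h⟩ := h10 v hv ψ hψ1 hψc (ε / 2) (by positivity)
  refine ⟨ℓ₀, 2 * ∫ x, ψ x ^ 2, hℓ₀, by
    have : 0 ≤ ∫ x, ψ x ^ 2 := integral_nonneg fun x => sq_nonneg _
    positivity, ?_⟩
  intro ℓ μ K hℓ hμ hK
  obtain ⟨hsupp, hpot⟩ := h ℓ hℓ
  have hℓ0 : 0 < ℓ := hℓ₀.trans_le hℓ
  obtain ⟨h9a, h9b⟩ := h9 ψ hψ1 hψe ℓ hℓ0 hψc hsupp
  set c : Mom → ℝ := cc ψ ℓ with hc
  set Φ : T3 → ℝ := fun y => ψ (ℓ • cen y) - c 0 with hΦ
  have hΦm : Measurable Φ := by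
    have : Measurable (fun y : T3 => ψ (ℓ • cen y)) :=
      hψ1.continuous.measurable.comp (p11_cen_meas.const_smul ℓ)
    exact this.sub_const _
  have hΦb : ∀ y, |Φ y| ≤ M + |c 0| := fun y =>
    (abs_sub _ _).trans (add_le_add (hM _) le_rfl)
  have hWp : Pot (Wr v ℓ) := Wr_pot hv.meas hv.int hv.even hℓ0
  set WK : T3 → ℝ := fun y => min (Wr v ℓ y) K with hWK
  have hWKp : Pot WK := pot_min hWp hK
  set q : ℝ := τ * (2 * Real.pi / ℓ) ^ 2 with hq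
  have hq0 : 0 < q := by
    have := Real.pi_pos
    positivity
  -- integrability of the potential terms
  have hbd : ∀ y, ‖(1 - Φ y) ^ 2‖ ≤ (1 + (M + |c 0|)) ^ 2 := by
    intro y
    rw [Real.norm_eq_abs, abs_pow]
    have h1 : |1 - Φ y| ≤ 1 + (M + |c 0|) := by
      have := abs_sub (1 : ℝ) (Φ y)
      rw [abs_one] at this
      linarith [hΦb y]
    exact pow_le_pow_left₀ (abs_nonneg _) h1 2
  have hm1 : AEStronglyMeasurable (fun y => (1 - Φ y) ^ 2) (volume : Measure T3) :=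
    ((measurable_const.sub hΦm).pow_const 2).aestronglyMeasurable
  have i1 : Integrable (fun y => WK y * (1 - Φ y) ^ 2) :=
    hWKp.int.mul_bdd (c := (1 + (M + |c 0|)) ^ 2) hm1 (ae_of_all _ hbd)
  have i1' : Integrable (fun y => Wr v ℓ y * (1 - Φ y) ^ 2) :=
    hWp.int.mul_bdd (c := (1 + (M + |c 0|)) ^ 2) hm1 (ae_of_all _ hbd)
  set J : ℝ := ∫ y, WK y * (1 - Φ y) ^ 2 with hJ
  have hJ0 : 0 ≤ J := integral_nonneg fun y => mul_nonneg (hWKp.nonneg y) (sq_nonneg _)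
  have hJle : J ≤ ∫ y, Wr v ℓ y * (1 - Φ y) ^ 2 :=
    integral_mono i1 i1' fun y => mul_le_mul_of_nonneg_right (min_le_left _ _) (sq_nonneg _)
  have hℓ3 : 0 < ℓ ^ 3 := by positivity
  set a : ℝ := ε / (4 * ℓ ^ 3 * (J + 1)) with ha
  have ha0 : 0 < a := by positivity
  have haJ : a * J ≤ ε / (4 * ℓ ^ 3) := by
    have h1 : a * (J + 1) = ε / (4 * ℓ ^ 3) := by
      rw [ha]; field_simp
    nlinarith
  have hev : ∀ᶠ R : ℕ in atTop, (1 + 1 / a) * K * ∫ y : T3,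
      (wf ((boxM R).erase 0) c y - Φ y) ^ 2 ≤ ε / (4 * ℓ ^ 3) := by
    have h1 : Tendsto (fun R : ℕ => (1 + 1 / a) * K * ∫ y : T3,
      (wf ((boxM R).erase 0) c y - Φ y) ^ 2) atTop (nhds ((1 + 1 / a) * K * 0)) :=
      h9b.const_mul _
    rw [mul_zero] at h1
    exact (h1.eventually (gt_mem_nhds (show (0 : ℝ) < ε / (4 * ℓ ^ 3) by positivity))).mono
      fun R hR => hR.le
  filter_upwards [hev] with R hR cA hcA
  set B0 := (boxM R).erase 0 with hB0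
  have e1 : gh WK B0 cA 0 ≤ Qf WK q μ B0 c := by
    rw [scat_Q hWKp hcA]
    exact scat_min hWKp hq0 hμ hcA c
  -- potential part
  have hwc := h464_wf_cont B0 c
  obtain ⟨C1, hC1⟩ := isCompact_univ.exists_bound_of_continuousOn hwc.continuousOn
  have i2 : Integrable (fun y : T3 => (wf B0 c y - Φ y) ^ 2) := by
    have hm2 : AEStronglyMeasurable (fun y => (wf B0 c y - Φ y) ^ 2) (volume : Measure T3) :=
      ((hwc.measurable.sub hΦm).pow_const 2).aestronglyMeasurable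
    have hb2 : ∀ y : T3, ‖(wf B0 c y - Φ y) ^ 2‖ ≤ (C1 + (M + |c 0|)) ^ 2 := by
      intro y
      rw [Real.norm_eq_abs, abs_pow]
      have h1 : |wf B0 c y - Φ y| ≤ C1 + (M + |c 0|) :=
        (abs_sub _ _).trans (add_le_add (hC1 y trivial) (hΦb y))
      exact pow_le_pow_left₀ (abs_nonneg _) h1 2
    exact Integrable.of_bound hm2 _ (ae_of_all _ hb2)
  have i3 : Integrable (fun y => WK y * (1 - wf B0 c y) ^ 2) :=
    h464_int_mul hWKp.int ((continuous_const.sub hwc).pow 2)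
  have e2 : ∫ y, WK y * (1 - wf B0 c y) ^ 2 ≤ (1 + a) * J + (1 + 1 / a) * K * ∫ y : T3,
      (wf B0 c y - Φ y) ^ 2 := by
    rw [hJ, ← integral_const_mul, ← integral_const_mul, ← integral_add (i1.const_mul _)
      (i2.const_mul _)]
    refine integral_mono i3 ((i1.const_mul _).add (i2.const_mul _)) fun y => ?_
    change WK y * (1 - wf B0 c y) ^ 2 ≤ (1 + a) * (WK y * (1 - Φ y) ^ 2) +
      (1 + 1 / a) * K * (wf B0 c y - Φ y) ^ 2
    have hy0 : 0 ≤ WK y := hWKp.nonneg y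
    have hyK : WK y ≤ K := min_le_right _ _
    have h1 : (1 - wf B0 c y) ^ 2 ≤ (1 + a) * (1 - Φ y) ^ 2 +
        (1 + 1 / a) * (wf B0 c y - Φ y) ^ 2 := by
      have h2 : (1 + a) * (1 - Φ y) ^ 2 + (1 + 1 / a) * (wf B0 c y - Φ y) ^ 2 -
          (1 - wf B0 c y) ^ 2 = (1 / a) * (a * (1 - Φ y) + (wf B0 c y - Φ y)) ^ 2 := by
        field_simp
        ring
      have h3 : 0 ≤ (1 / a) * (a * (1 - Φ y) + (wf B0 c y - Φ y)) ^ 2 := by positivity
      linarith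
    have h4 := mul_le_mul_of_nonneg_left h1 hy0
    have h5 : WK y * ((1 + 1 / a) * (wf B0 c y - Φ y) ^ 2) ≤
        K * ((1 + 1 / a) * (wf B0 c y - Φ y) ^ 2) :=
      mul_le_mul_of_nonneg_right hyK (by positivity)
    linarith
  -- quadratic part
  have e3 : ∑ n ∈ B0, (2 * (q * sq n) + 2 * μ) * c n ^ 2 ≤
      2 * τ * ((1 / ℓ ^ 3) * ∫ x, gsq ψ x) + 2 * μ * ((1 / ℓ ^ 3) * ∫ x, ψ x ^ 2) := by
    have h1 := h8 ψ hψ1 ℓ hℓ0 hψc hsupp B0
    have h2 := h9a B0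
    have h3 : ∑ n ∈ B0, (2 * (q * sq n) + 2 * μ) * c n ^ 2 =
        2 * τ * (∑ n ∈ B0, (2 * Real.pi / ℓ) ^ 2 * sq n * c n ^ 2) +
          2 * μ * ∑ n ∈ B0, c n ^ 2 := by
      rw [Finset.mul_sum, Finset.mul_sum, ← Finset.sum_add_distrib]
      refine Finset.sum_congr rfl fun n _ => ?_
      rw [hq]; ring
    rw [h3]
    gcongr
  -- the energy
  have e4 : scE (2 * τ) v ψ = 2 * τ * (∫ x, gsq ψ x) + ∫ x, v x * (1 - ψ x) ^ 2 := by
    unfold scE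
    have i4 : Integrable (fun x => v x * (1 - ψ x) ^ 2) := by
      refine hv.int.mul_bdd (c := (1 + M) ^ 2) ?_ (ae_of_all _ fun x => ?_)
      · exact ((continuous_const.sub hψ1.continuous).pow 2).aestronglyMeasurable
      · rw [Real.norm_eq_abs, abs_pow]
        have h1 : |1 - ψ x| ≤ 1 + M := by
          have := abs_sub (1 : ℝ) (ψ x)
          rw [abs_one] at this
          linarith [hM x]
        exact pow_le_pow_left₀ (abs_nonneg _) h1 2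
    rw [integral_add ((p11_gsq_int hψ1 hψc).const_mul _) i4, integral_const_mul]
  have e5 : Qf WK q μ B0 c ≤ ((1 + a) * J + (1 + 1 / a) * K * ∫ y : T3,
      (wf B0 c y - Φ y) ^ 2) + (2 * τ * ((1 / ℓ ^ 3) * ∫ x, gsq ψ x) +
        2 * μ * ((1 / ℓ ^ 3) * ∫ x, ψ x ^ 2)) := by
    unfold Qf
    exact add_le_add e2 e3
  have e6 : gh WK B0 cA 0 ≤ (J + ε / (4 * ℓ ^ 3) + ε / (4 * ℓ ^ 3)) +
      (2 * τ * ((1 / ℓ ^ 3) * ∫ x, gsq ψ x) + 2 * μ * ((1 / ℓ ^ 3) * ∫ x, ψ x ^ 2)) := by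
    refine (e1.trans e5).trans ?_
    have : (1 + a) * J = J + a * J := by ring
    rw [this]
    gcongr
  have e7 := mul_le_mul_of_nonneg_left e6 hℓ3.le
  have e8 : ℓ ^ 3 * ((J + ε / (4 * ℓ ^ 3) + ε / (4 * ℓ ^ 3)) +
      (2 * τ * ((1 / ℓ ^ 3) * ∫ x, gsq ψ x) + 2 * μ * ((1 / ℓ ^ 3) * ∫ x, ψ x ^ 2))) =
      ℓ ^ 3 * J + ε / 2 + 2 * τ * (∫ x, gsq ψ x) + 2 * μ * ∫ x, ψ x ^ 2 := by
    field_simp
    ring
  rw [e8] at e7
  have e9 : ℓ ^ 3 * J ≤ (∫ x, v x * (1 - ψ x) ^ 2) + ε / 2 :=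
    (mul_le_mul_of_nonneg_left hJle hℓ3.le).trans hpot
  have e10 : 2 * (∫ x, ψ x ^ 2) * μ = 2 * μ * ∫ x, ψ x ^ 2 := by ring
  rw [e10]
  linarith

end

end Pool.Agent.H751R2.LHY.MT
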