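import Pool.Agent.NH34.TC.Stm

/-!
# Project TC: cut-off function; squares of trigonometric polynomials over a cube
-/

open MeasureTheory UnitAddTorus Filter
open scoped ComplexConjugate ENNReal

namespace Pool.Agent.H751R2.LHY.MT

noncomputable section

theorem t12 : T12 := by
  obtain ⟨f, hf1, hf2⟩ : ∃ f : ContDiffBump (0 : Fin 3 → ℝ), f.rIn = 1 ∧ f.rOut = 2 :=
    ⟨⟨1, 2, one_pos, one_lt_two⟩, rfl, rfl⟩
  have hcd : ContDiff ℝ 1 (f : (Fin 3 → ℝ) → ℝ) := f.contDiff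
  have hcs : HasCompactSupport (f : (Fin 3 → ℝ) → ℝ) := f.hasCompactSupport
  have hg : Continuous (gsq (f : (Fin 3 → ℝ) → ℝ)) := by
    unfold gsq
    refine continuous_finsetSum _ fun a _ => ?_
    exact ((hcd.continuous_fderiv one_ne_zero).clm_apply continuous_const).pow 2
  have hgs : HasCompactSupport (gsq (f : (Fin 3 → ℝ) → ℝ)) := by
    have h1 := hcs.fderiv ℝ
    exact h1.comp_left (g := fun L : (Fin 3 → ℝ) →L[ℝ] ℝ => ∑ a, (L (Pi.single a 1)) ^ 2) (by simp)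
  obtain ⟨C, hC⟩ := hg.bounded_above_of_compact_support hgs
  refine ⟨f, |C| + 1, by positivity, hcd, fun x => ⟨f.nonneg, f.le_one⟩, fun x hx => ?_, fun x hx a => ?_,
    fun x => ?_⟩
  · apply f.one_of_mem_closedBall
    rw [mem_closedBall_zero_iff, hf1, pi_norm_le_iff_of_nonneg zero_le_one]
    exact hx
  · have h1 : x ∈ Function.support f := hx
    rw [f.support_eq, mem_ball_zero_iff, hf2] at h1
    exact (norm_le_pi_norm x a).trans h1.le
  · have h1 := hC x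
    rw [Real.norm_eq_abs] at h1
    have h2 := le_abs_self (gsq (f : (Fin 3 → ℝ) → ℝ) x)
    have h3 := le_abs_self C
    linarith

/-- the linear form `k_n · x` -/
def p12L (ℓ : ℝ) (n : Mom) : (Fin 3 → ℝ) →L[ℝ] ℝ :=
  ∑ a, (2 * Real.pi / ℓ * n a) • ContinuousLinearMap.proj (R := ℝ) (φ := fun _ : Fin 3 => ℝ) a

lemma p12L_apply (ℓ : ℝ) (n : Mom) (x : Fin 3 → ℝ) :
    p12L ℓ n x = ∑ a, (2 * Real.pi / ℓ * n a) * x a := by
  unfold p12L
  simp [ContinuousLinearMap.sum_apply]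

lemma p12L_single (ℓ : ℝ) (n : Mom) (a : Fin 3) :
    p12L ℓ n (Pi.single a 1) = 2 * Real.pi / ℓ * n a := by
  rw [p12L_apply, Finset.sum_eq_single a]
  · simp
  · intro b _ hb
    simp [Pi.single_apply, hb]
  · intro h
    exact absurd (Finset.mem_univ a) h

lemma p12_wt (B : Finset Mom) (c : Mom → ℝ) (ℓ : ℝ) :
    wt B c ℓ = fun x => ∑ n ∈ B, c n * Real.cos (p12L ℓ n x) := by
  funext x
  unfold wt
  refine Finset.sum_congr rfl fun n _ => ?_
  rw [p12L_apply]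

lemma p12_contDiff (B : Finset Mom) (c : Mom → ℝ) (ℓ : ℝ) : ContDiff ℝ 1 (wt B c ℓ) := by
  rw [p12_wt]
  refine ContDiff.sum fun n _ => ?_
  exact contDiff_const.mul (p12L ℓ n).contDiff.cos

lemma p12_fderiv (B : Finset Mom) (c : Mom → ℝ) (ℓ : ℝ) (x : Fin 3 → ℝ) (a : Fin 3) :
    fderiv ℝ (wt B c ℓ) x (Pi.single a 1) =
      -∑ n ∈ B, (c n * (2 * Real.pi / ℓ * n a)) * Real.sin (p12L ℓ n x) := by
  have h : HasFDerivAt (wt B c ℓ) (∑ n ∈ B, c n • (-Real.sin (p12L ℓ n x)) • p12L ℓ n) x := by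
    rw [p12_wt]
    refine HasFDerivAt.fun_sum fun n _ => ?_
    exact ((p12L ℓ n).hasFDerivAt.cos).const_mul (c n)
  rw [h.fderiv, ContinuousLinearMap.sum_apply, ← Finset.sum_neg_distrib]
  refine Finset.sum_congr rfl fun n _ => ?_
  show c n * ((-Real.sin (p12L ℓ n x)) * p12L ℓ n (Pi.single a 1)) = _
  rw [p12L_single]
  ring

/-- the cube -/
def p12Q (ℓ : ℝ) : Set (Fin 3 → ℝ) := {x : Fin 3 → ℝ | ∀ a, |x a| ≤ ℓ / 2}

lemma p12Q_eq (ℓ : ℝ) : p12Q ℓ = Set.univ.pi (fun _ : Fin 3 => Set.Icc (-(ℓ / 2)) (ℓ / 2)) := by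
  ext x
  simp only [p12Q, Set.mem_setOf_eq, Set.mem_univ_pi, Set.mem_Icc, abs_le]

lemma p12Q_compact (ℓ : ℝ) : IsCompact (p12Q ℓ) := by
  rw [p12Q_eq]
  exact isCompact_univ_pi fun _ => isCompact_Icc

lemma p12_int {f : (Fin 3 → ℝ) → ℝ} (hf : Continuous f) (ℓ : ℝ) : IntegrableOn f (p12Q ℓ) :=
  hf.continuousOn.integrableOn_compact (p12Q_compact ℓ)

lemma p12_one (ℓ : ℝ) (hℓ : 0 < ℓ) (p : ℤ) :
    ∫ x in Set.Icc (-(ℓ / 2)) (ℓ / 2), Complex.exp (((2 * Real.pi / ℓ * p * x : ℝ) : ℂ) * Complex.I) =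
      if p = 0 then (ℓ : ℂ) else 0 := by
  rw [integral_Icc_eq_integral_Ioc, ← intervalIntegral.integral_of_le (by linarith)]
  split_ifs with hp
  · subst hp
    simp
  · have hc : ((2 * Real.pi / ℓ * p : ℝ) : ℂ) * Complex.I ≠ 0 := by
      have h1 : (2 * Real.pi / ℓ * p : ℝ) ≠ 0 := by
        have := Real.pi_pos
        have h2 : (p : ℝ) ≠ 0 := by exact_mod_cast hp
        positivity
      exact mul_ne_zero (by exact_mod_cast h1) Complex.I_ne_zero
    have h1 : ∀ x : ℝ, Complex.exp (((2 * Real.pi / ℓ * p * x : ℝ) : ℂ) * Complex.I) =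
        Complex.exp ((((2 * Real.pi / ℓ * p : ℝ) : ℂ) * Complex.I) * x) := by
      intro x
      congr 1
      push_cast
      ring
    simp only [h1]
    rw [integral_exp_mul_complex hc]
    have h2 : Complex.exp ((((2 * Real.pi / ℓ * p : ℝ) : ℂ) * Complex.I) * ((ℓ / 2 : ℝ) : ℂ)) =
        Complex.exp ((((2 * Real.pi / ℓ * p : ℝ) : ℂ) * Complex.I) * ((-(ℓ / 2) : ℝ) : ℂ)) := by
      have h3 : (((2 * Real.pi / ℓ * p : ℝ) : ℂ) * Complex.I) * ((ℓ / 2 : ℝ) : ℂ) =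
          (((2 * Real.pi / ℓ * p : ℝ) : ℂ) * Complex.I) * ((-(ℓ / 2) : ℝ) : ℂ) +
            p * (2 * Real.pi * Complex.I) := by
        have h4 : (ℓ : ℂ) ≠ 0 := by exact_mod_cast hℓ.ne'
        push_cast
        field_simp
        ring
      rw [h3, Complex.exp_add, Complex.exp_int_mul_two_pi_mul_I, mul_one]
    rw [h2, sub_self, zero_div]

lemma p12_cos (ℓ : ℝ) (hℓ : 0 < ℓ) (p : Mom) :
    ∫ x in p12Q ℓ, Real.cos (p12L ℓ p x) = if p = 0 then ℓ ^ 3 else 0 := by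
  have h1 : ∀ x : Fin 3 → ℝ, Real.cos (p12L ℓ p x) =
      Complex.reCLM (∏ a, Complex.exp (((2 * Real.pi / ℓ * p a * x a : ℝ) : ℂ) * Complex.I)) := by
    intro x
    rw [← Complex.exp_sum, ← Finset.sum_mul, ← Complex.ofReal_sum, p12L_apply]
    exact (Complex.exp_ofReal_mul_I_re _).symm
  simp only [h1]
  rw [ContinuousLinearMap.integral_comp_comm]
  · rw [p12Q_eq, volume_pi, Measure.restrict_pi_pi,
      integral_fintype_prod_eq_prod (fun a (x : ℝ) => Complex.exp (((2 * Real.pi / ℓ * p a * x : ℝ) : ℂ) * Complex.I))]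
    rw [Finset.prod_congr rfl fun a _ => p12_one ℓ hℓ (p a)]
    split_ifs with hp
    · subst hp
      rw [Finset.prod_congr rfl fun a _ => if_pos (by rfl), Finset.prod_const, Finset.card_univ, Fintype.card_fin,
        ← Complex.ofReal_pow]
      rfl
    · obtain ⟨a, ha⟩ : ∃ a, p a ≠ 0 := by
        by_contra hcon
        push Not at hcon
        exact hp (funext hcon)
      rw [Finset.prod_eq_zero (Finset.mem_univ a) (if_neg ha)]
      rfl
  · have hc : Continuous fun x : Fin 3 → ℝ =>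
        ∏ a, Complex.exp (((2 * Real.pi / ℓ * p a * x a : ℝ) : ℂ) * Complex.I) := by fun_prop
    exact hc.continuousOn.integrableOn_compact (p12Q_compact ℓ)

lemma p12L_add (ℓ : ℝ) (n m : Mom) (x : Fin 3 → ℝ) : p12L ℓ (n + m) x = p12L ℓ n x + p12L ℓ m x := by
  rw [p12L_apply, p12L_apply, p12L_apply, ← Finset.sum_add_distrib]
  refine Finset.sum_congr rfl fun a _ => ?_
  rw [Pi.add_apply]
  push_cast
  ring

lemma p12L_sub (ℓ : ℝ) (n m : Mom) (x : Fin 3 → ℝ) : p12L ℓ (n - m) x = p12L ℓ n x - p12L ℓ m x := by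
  rw [p12L_apply, p12L_apply, p12L_apply, ← Finset.sum_sub_distrib]
  refine Finset.sum_congr rfl fun a _ => ?_
  rw [Pi.sub_apply]
  push_cast
  ring

lemma p12_cont (ℓ : ℝ) (n : Mom) : Continuous fun x => p12L ℓ n x := (p12L ℓ n).continuous

lemma p12_ic (ℓ : ℝ) (n : Mom) : IntegrableOn (fun x => Real.cos (p12L ℓ n x)) (p12Q ℓ) :=
  p12_int (Real.continuous_cos.comp (p12_cont ℓ n)) ℓ

lemma p12_cc (ℓ : ℝ) (hℓ : 0 < ℓ) (n m : Mom) :
    ∫ x in p12Q ℓ, Real.cos (p12L ℓ n x) * Real.cos (p12L ℓ m x) =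
      ℓ ^ 3 / 2 * ((if n = m then 1 else 0) + if n = -m then 1 else 0) := by
  have h1 : ∀ x, Real.cos (p12L ℓ n x) * Real.cos (p12L ℓ m x) =
      2⁻¹ * (Real.cos (p12L ℓ (n - m) x) + Real.cos (p12L ℓ (n + m) x)) := by
    intro x
    rw [p12L_add, p12L_sub, Real.cos_sub, Real.cos_add]
    ring
  simp only [h1]
  rw [integral_const_mul, integral_add (p12_ic ℓ _) (p12_ic ℓ _), p12_cos ℓ hℓ, p12_cos ℓ hℓ]
  simp only [sub_eq_zero, add_eq_zero_iff_eq_neg]
  split_ifs <;> ring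

lemma p12_ss (ℓ : ℝ) (hℓ : 0 < ℓ) (n m : Mom) :
    ∫ x in p12Q ℓ, Real.sin (p12L ℓ n x) * Real.sin (p12L ℓ m x) =
      ℓ ^ 3 / 2 * ((if n = m then 1 else 0) - if n = -m then 1 else 0) := by
  have h1 : ∀ x, Real.sin (p12L ℓ n x) * Real.sin (p12L ℓ m x) =
      2⁻¹ * (Real.cos (p12L ℓ (n - m) x) - Real.cos (p12L ℓ (n + m) x)) := by
    intro x
    rw [p12L_add, p12L_sub, Real.cos_sub, Real.cos_add]
    ring
  simp only [h1]
  rw [integral_const_mul, integral_sub (p12_ic ℓ _) (p12_ic ℓ _), p12_cos ℓ hℓ, p12_cos ℓ hℓ]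
  simp only [sub_eq_zero, add_eq_zero_iff_eq_neg]
  split_ifs <;> ring

/-- the square of a sum -/
lemma p12_sq (B : Finset Mom) (hB : Sym B) (ℓ : ℝ) (d : Mom → ℝ) (f : Mom → (Fin 3 → ℝ) → ℝ)
    (hf : ∀ n, Continuous (f n)) (σ : ℝ) (hσ : σ = 1 ∨ σ = -1) (hd : ∀ n, d (-n) = σ * d n)
    (h : ∀ n m, ∫ x in p12Q ℓ, f n x * f m x =
      ℓ ^ 3 / 2 * ((if n = m then 1 else 0) + σ * if n = -m then 1 else 0)) :
    ∫ x in p12Q ℓ, (∑ n ∈ B, d n * f n x) ^ 2 = ℓ ^ 3 * ∑ n ∈ B, d n ^ 2 := by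
  classical
  have h1 : ∀ x, (∑ n ∈ B, d n * f n x) ^ 2 = ∑ n ∈ B, ∑ m ∈ B, (d n * d m) * (f n x * f m x) := by
    intro x
    rw [pow_two, Finset.sum_mul_sum]
    refine Finset.sum_congr rfl fun n _ => Finset.sum_congr rfl fun m _ => ?_
    ring
  have hint : ∀ n m, IntegrableOn (fun x => (d n * d m) * (f n x * f m x)) (p12Q ℓ) := fun n m =>
    p12_int (continuous_const.mul ((hf n).mul (hf m))) ℓ
  simp only [h1]
  rw [integral_finsetSum _ fun n _ => integrable_finsetSum _ fun m _ => hint n m, Finset.mul_sum]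
  refine Finset.sum_congr rfl fun n hn => ?_
  rw [integral_finsetSum _ fun m _ => hint n m]
  have h2 : ∀ m ∈ B, ∫ x in p12Q ℓ, (d n * d m) * (f n x * f m x) =
      (if n = m then d n * d m * (ℓ ^ 3 / 2) else 0) + if m = -n then d n * d m * (ℓ ^ 3 / 2) * σ else 0 := by
    intro m _
    rw [integral_const_mul, h]
    have h3 : (n = -m) ↔ (m = -n) := by
      constructor
      · intro h; rw [h, neg_neg]
      · intro h; rw [h, neg_neg]
    simp only [h3]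
    split_ifs <;> ring
  rw [Finset.sum_congr rfl h2, Finset.sum_add_distrib, Finset.sum_ite_eq, if_pos hn, Finset.sum_ite_eq',
    if_pos (hB.neg n hn), hd]
  rcases hσ with rfl | rfl <;> ring

theorem p12_t13 : T13 := by
  intro B hB c hc ℓ hℓ
  refine ⟨p12_contDiff B c ℓ, ?_, ?_⟩
  · show ∫ x in p12Q ℓ, wt B c ℓ x ^ 2 = _
    rw [p12_wt]
    refine p12_sq B hB ℓ c (fun n x => Real.cos (p12L ℓ n x)) (fun n => Real.continuous_cos.comp (p12_cont ℓ n))
      1 (Or.inl rfl) (fun n => by rw [hc, one_mul]) fun n m => ?_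
    rw [p12_cc ℓ hℓ, one_mul]
  · show ∫ x in p12Q ℓ, gsq (wt B c ℓ) x = _
    have h1 : ∀ x, gsq (wt B c ℓ) x =
        ∑ a, (∑ n ∈ B, (c n * (2 * Real.pi / ℓ * n a)) * Real.sin (p12L ℓ n x)) ^ 2 := by
      intro x
      unfold gsq
      refine Finset.sum_congr rfl fun a _ => ?_
      rw [p12_fderiv, neg_sq]
    have hcs : ∀ n : Mom, Continuous fun x => Real.sin (p12L ℓ n x) := fun n =>
      Real.continuous_sin.comp (p12_cont ℓ n)
    simp only [h1]
    have hia : ∀ a : Fin 3, IntegrableOn (fun x =>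
        (∑ n ∈ B, (c n * (2 * Real.pi / ℓ * n a)) * Real.sin (p12L ℓ n x)) ^ 2) (p12Q ℓ) := by
      intro a
      apply p12_int
      refine Continuous.pow ?_ 2
      refine continuous_finsetSum _ fun n _ => ?_
      exact continuous_const.mul (hcs n)
    rw [integral_finsetSum _ fun a _ => hia a]
    have h2 : ∀ a : Fin 3, ∫ x in p12Q ℓ, (∑ n ∈ B, (c n * (2 * Real.pi / ℓ * n a)) * Real.sin (p12L ℓ n x)) ^ 2 =
        ℓ ^ 3 * ∑ n ∈ B, (c n * (2 * Real.pi / ℓ * n a)) ^ 2 := by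
      intro a
      refine p12_sq B hB ℓ (fun n => c n * (2 * Real.pi / ℓ * n a)) (fun n x => Real.sin (p12L ℓ n x)) hcs
        (-1) (Or.inr rfl) (fun n => ?_) fun n m => ?_
      · show c (-n) * (2 * Real.pi / ℓ * ((-n) a : ℤ)) = -1 * (c n * (2 * Real.pi / ℓ * n a))
        rw [hc, Pi.neg_apply]
        push_cast
        ring
      · rw [p12_ss ℓ hℓ]
        ring
    simp only [h2]
    rw [← Finset.mul_sum, Finset.sum_comm, Finset.mul_sum B]
    have h3 : ∀ n : Mom, ∑ a : Fin 3, (c n * (2 * Real.pi / ℓ * n a)) ^ 2 =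
        (2 * Real.pi / ℓ) ^ 2 * (Pool.Agent.H751R2.LHY.sq n * c n ^ 2) := by
      intro n
      unfold Pool.Agent.H751R2.LHY.sq
      rw [Finset.sum_mul, Finset.mul_sum]
      refine Finset.sum_congr rfl fun a _ => ?_
      ring
    rw [Finset.mul_sum, Finset.mul_sum]
    refine Finset.sum_congr rfl fun n _ => ?_
    rw [h3 n]

theorem t13 (_h6 : T06) : T13 := p12_t13

end

end Pool.Agent.H751R2.LHY.MT
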