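import Pool.Agent.NH34.TC.Stm

/-! Job TC-11: lower bound for the two-body energy on the torus, with a cut-off. -/

open MeasureTheory UnitAddTorus Filter
open scoped ComplexConjugate ENNReal

namespace Pool.Agent.H751R2.LHY.MT

noncomputable section

lemma p14_gsq_cont {φ : (Fin 3 → ℝ) → ℝ} (h : ContDiff ℝ 1 φ) : Continuous (gsq φ) := by
  unfold gsq
  refine continuous_finsetSum _ fun a _ => ?_
  exact ((h.continuous_fderiv (by norm_num)).clm_apply continuous_const).pow 2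

lemma p14_gsq_nonneg (φ : (Fin 3 → ℝ) → ℝ) (x : Fin 3 → ℝ) : 0 ≤ gsq φ x :=
  Finset.sum_nonneg fun _ _ => sq_nonneg _

lemma p14_young {ε : ℝ} (hε : 0 < ε) (u v : ℝ) :
    (u + v) ^ 2 ≤ (1 + ε) * u ^ 2 + (1 + 1 / ε) * v ^ 2 := by
  have h : (1 + ε) * u ^ 2 + (1 + 1 / ε) * v ^ 2 - (u + v) ^ 2 = (ε * u - v) ^ 2 / ε := by
    field_simp
    ring
  have h2 : 0 ≤ (ε * u - v) ^ 2 / ε := by positivity
  linarith

/-- the gradient of the product with the scaled cut-off -/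
lemma p14_prod {χ w : (Fin 3 → ℝ) → ℝ} (hχ : ContDiff ℝ 1 χ) (hw : ContDiff ℝ 1 w)
    (h01 : ∀ x, 0 ≤ χ x ∧ χ x ≤ 1) {C : ℝ} (hC : ∀ x, gsq χ x ≤ C) {ε r : ℝ} (hε : 0 < ε)
    (hr : 0 < r) (x : Fin 3 → ℝ) :
    gsq (fun x => χ (r⁻¹ • x) * w x) x ≤
      (1 + ε) * gsq w x + (1 + 1 / ε) * (C / r ^ 2) * w x ^ 2 := by
  have h1 : HasFDerivAt (fun x : Fin 3 → ℝ => r⁻¹ • x)
      (r⁻¹ • ContinuousLinearMap.id ℝ (Fin 3 → ℝ)) x := (hasFDerivAt_id x).const_smul r⁻¹
  have h2 : HasFDerivAt χ (fderiv ℝ χ (r⁻¹ • x)) (r⁻¹ • x) :=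
    ((hχ.differentiable (by norm_num)) _).hasFDerivAt
  have h3 := h2.comp x h1
  have h4 : HasFDerivAt w (fderiv ℝ w x) x := ((hw.differentiable (by norm_num)) _).hasFDerivAt
  have h5 := (h3.mul h4).fderiv
  have h6 : ∀ a : Fin 3, fderiv ℝ (fun x => χ (r⁻¹ • x) * w x) x (Pi.single a 1) =
      χ (r⁻¹ • x) * fderiv ℝ w x (Pi.single a 1) +
        w x * (r⁻¹ * fderiv ℝ χ (r⁻¹ • x) (Pi.single a 1)) := by
    intro a
    have h7 := congrArg (fun L : (Fin 3 → ℝ) →L[ℝ] ℝ => L (Pi.single a 1)) h5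
    refine h7.trans ?_
    simp [smul_eq_mul]
  set X := χ (r⁻¹ • x) with hX
  obtain ⟨hX0, hX1⟩ := h01 (r⁻¹ • x)
  have h8 : gsq (fun x => χ (r⁻¹ • x) * w x) x ≤
      ∑ a : Fin 3, ((1 + ε) * (X * fderiv ℝ w x (Pi.single a 1)) ^ 2 +
        (1 + 1 / ε) * (w x * (r⁻¹ * fderiv ℝ χ (r⁻¹ • x) (Pi.single a 1))) ^ 2) := by
    unfold gsq
    refine Finset.sum_le_sum fun a _ => ?_
    rw [h6 a]
    exact p14_young hε _ _
  refine h8.trans ?_
  have h9 : ∑ a : Fin 3, ((1 + ε) * (X * fderiv ℝ w x (Pi.single a 1)) ^ 2 +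
        (1 + 1 / ε) * (w x * (r⁻¹ * fderiv ℝ χ (r⁻¹ • x) (Pi.single a 1))) ^ 2) =
      (1 + ε) * (X ^ 2 * gsq w x) + (1 + 1 / ε) * (gsq χ (r⁻¹ • x) / r ^ 2) * w x ^ 2 := by
    unfold gsq
    rw [Finset.sum_add_distrib, Finset.mul_sum, Finset.mul_sum, Finset.sum_div, Finset.mul_sum,
      Finset.sum_mul]
    congr 1
    · refine Finset.sum_congr rfl fun a _ => ?_
      ring
    · refine Finset.sum_congr rfl fun a _ => ?_
      field_simp
  rw [h9]
  have h10 : X ^ 2 * gsq w x ≤ gsq w x := by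
    have h11 : X ^ 2 ≤ 1 := pow_le_one₀ hX0 hX1
    have h12 := mul_le_mul_of_nonneg_right h11 (p14_gsq_nonneg w x)
    linarith
  have h13 : gsq χ (r⁻¹ • x) / r ^ 2 ≤ C / r ^ 2 := by
    have := hC (r⁻¹ • x)
    gcongr
  gcongr

lemma p14_wt_abs (B : Finset Mom) (c : Mom → ℝ) (ℓ : ℝ) (x : Fin 3 → ℝ) :
    |wt B c ℓ x| ≤ ∑ n ∈ B, |c n| := by
  unfold wt
  refine (Finset.abs_sum_le_sum_abs _ _).trans (Finset.sum_le_sum fun n _ => ?_)
  rw [abs_mul]
  exact mul_le_of_le_one_right (abs_nonneg _) (Real.abs_cos_le_one _)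

lemma p14_wf_coe (B : Finset Mom) (c : Mom → ℝ) (ℓ : ℝ) (x : Fin 3 → ℝ) :
    wf B c (fun a => ((x a / ℓ : ℝ) : UnitAddCircle)) = wt B c ℓ x := by
  unfold wf wt
  refine Finset.sum_congr rfl fun n _ => ?_
  rw [cs_coe n (fun a => x a / ℓ)]
  congr 2
  refine Finset.sum_congr rfl (fun a _ => ?_)
  ring

lemma p14_wf_meas (B : Finset Mom) (c : Mom → ℝ) : Measurable (wf B c) := by
  unfold wf
  exact Finset.measurable_sum _ fun n _ => (cs_meas n).const_mul _

theorem t14 (h12 : T12) (h13 : T13) : T14 := by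
  obtain ⟨χ, C, hC, hχ, hχ01, hχ1, hχs, hχg⟩ := h12
  refine ⟨2 * C, by positivity, ?_⟩
  intro v hv τ ε r ℓ hτ hε hr hrl B hB c hc
  have hl : 0 < ℓ := by linarith
  obtain ⟨w1, w2, w3⟩ := h13 B hB c hc ℓ hl
  set Cu : Set (Fin 3 → ℝ) := {x | ∀ a, |x a| ≤ ℓ / 2} with hCu
  set far : Set (Fin 3 → ℝ) := {x | ¬ ∀ a, |x a| ≤ r} with hfar
  have hball : ∀ R : ℝ, 0 ≤ R → {x : Fin 3 → ℝ | ∀ a, |x a| ≤ R} = Metric.closedBall 0 R := by
    intro R hR
    ext x
    rw [mem_closedBall_zero_iff, pi_norm_le_iff_of_nonneg hR]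
    rfl
  have hCuc : IsCompact Cu := by
    rw [hCu, hball _ (by linarith)]
    exact isCompact_closedBall _ _
  have hfarm : MeasurableSet far := by
    have : far = {x : Fin 3 → ℝ | ∀ a, |x a| ≤ r}ᶜ := rfl
    rw [this, hball r hr.le]
    exact Metric.isClosed_closedBall.measurableSet.compl
  set w := wt B c ℓ with hw
  set φ : (Fin 3 → ℝ) → ℝ := fun x => χ (r⁻¹ • x) * w x with hφ
  have hφ1 : ContDiff ℝ 1 φ := (hχ.comp (contDiff_id.const_smul r⁻¹)).mul w1
  have hsupp : ∀ x, φ x ≠ 0 → ∀ a, |x a| ≤ 2 * r := by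
    intro x hx a
    have h1 := hχs (r⁻¹ • x) (left_ne_zero_of_mul hx) a
    rw [Pi.smul_apply, smul_eq_mul, abs_mul, abs_of_pos (inv_pos.2 hr), inv_mul_le_iff₀ hr] at h1
    linarith
  have hφ2 : HasCompactSupport φ := by
    refine HasCompactSupport.of_support_subset_isCompact
      (isCompact_closedBall (0 : Fin 3 → ℝ) (2 * r)) fun x hx => ?_
    rw [← hball (2 * r) (by linarith)]
    exact hsupp x hx
  have h0 : scC (2 * τ) v ≤ scE (2 * τ) v φ := by
    refine csInf_le ⟨0, ?_⟩ ⟨φ, hφ1, hφ2, rfl⟩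
    rintro E ⟨ψ, -, -, rfl⟩
    exact integral_nonneg fun x => add_nonneg (mul_nonneg (by positivity) (p14_gsq_nonneg _ _))
      (mul_nonneg (hv.nonneg x) (sq_nonneg _))
  -- the upper bound
  set G1 : (Fin 3 → ℝ) → ℝ := fun x => 2 * τ * (1 + ε) * gsq w x with hG1
  set G2 : (Fin 3 → ℝ) → ℝ := fun x => 2 * τ * ((1 + 1 / ε) * (C / r ^ 2)) * w x ^ 2 with hG2
  have hG1c : Continuous G1 := continuous_const.mul (p14_gsq_cont w1)
  have hG2c : Continuous G2 := continuous_const.mul (w1.continuous.pow 2)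
  have hI1 : Integrable (Cu.indicator G1) :=
    (hG1c.continuousOn.integrableOn_compact hCuc).integrable_indicator hCuc.measurableSet
  have hI2 : Integrable (Cu.indicator G2) :=
    (hG2c.continuousOn.integrableOn_compact hCuc).integrable_indicator hCuc.measurableSet
  have hI3 : Integrable (fun x => v x * (1 - w x) ^ 2) := by
    refine hv.int.mul_bdd (c := (1 + ∑ n ∈ B, |c n|) ^ 2)
      ((continuous_const.sub w1.continuous).pow 2).aestronglyMeasurable
      (Eventually.of_forall fun x => ?_)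
    rw [Real.norm_eq_abs, abs_pow]
    have h1 := p14_wt_abs B c ℓ x
    have h2 : |1 - w x| ≤ 1 + ∑ n ∈ B, |c n| := by
      have h3 := abs_sub (1 : ℝ) (w x)
      rw [abs_one] at h3
      linarith
    exact pow_le_pow_left₀ (abs_nonneg _) h2 2
  have hI4 : Integrable (far.indicator v) := hv.int.indicator hfarm
  have hpt : ∀ x, 2 * τ * gsq φ x + v x * (1 - φ x) ^ 2 ≤
      Cu.indicator G1 x + Cu.indicator G2 x + v x * (1 - w x) ^ 2 + far.indicator v x := by
    intro x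
    have ha : 2 * τ * gsq φ x ≤ Cu.indicator G1 x + Cu.indicator G2 x := by
      by_cases hx : x ∈ Cu
      · rw [Set.indicator_of_mem hx, Set.indicator_of_mem hx]
        have h1 := p14_prod hχ w1 hχ01 hχg hε hr x
        have h2 := mul_le_mul_of_nonneg_left h1 (show 0 ≤ 2 * τ by positivity)
        refine h2.trans (le_of_eq ?_)
        rw [hG1, hG2]
        ring
      · rw [Set.indicator_of_notMem hx, Set.indicator_of_notMem hx]
        have h1 : φ =ᶠ[nhds x] fun _ => 0 := by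
          have h2 : Cuᶜ ∈ nhds x := hCuc.isClosed.isOpen_compl.mem_nhds hx
          filter_upwards [h2] with y hy
          by_contra h3
          apply hy
          intro a
          have := hsupp y h3 a
          linarith
        have h4 : gsq φ x = 0 := by
          unfold gsq
          refine Finset.sum_eq_zero fun a _ => ?_
          rw [h1.fderiv_eq]
          simp
        rw [h4]
        simp
    have hb : v x * (1 - φ x) ^ 2 ≤ v x * (1 - w x) ^ 2 + far.indicator v x := by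
      by_cases hx : x ∈ far
      · rw [Set.indicator_of_mem hx]
        obtain ⟨h1, h2⟩ := hχ01 (r⁻¹ • x)
        have h3 : (1 - φ x) ^ 2 ≤ (1 - w x) ^ 2 + 1 := by
          have h4 : 1 - φ x = (1 - χ (r⁻¹ • x)) * 1 + χ (r⁻¹ • x) * (1 - w x) := by
            rw [hφ]; ring
          rw [h4]
          set X := χ (r⁻¹ • x)
          have h5 : ((1 - X) * 1 + X * (1 - w x)) ^ 2 ≤ (1 - X) + X * (1 - w x) ^ 2 := by
            have h6 : (1 - X) + X * (1 - w x) ^ 2 - ((1 - X) * 1 + X * (1 - w x)) ^ 2 =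
                X * (1 - X) * (w x) ^ 2 := by ring
            have h7 : 0 ≤ X * (1 - X) * (w x) ^ 2 :=
              mul_nonneg (mul_nonneg h1 (by linarith)) (sq_nonneg _)
            linarith
          have h8 : X * (1 - w x) ^ 2 ≤ (1 - w x) ^ 2 :=
            mul_le_of_le_one_left (sq_nonneg _) h2
          linarith
        have h9 := mul_le_mul_of_nonneg_left h3 (hv.nonneg x)
        linarith
      · rw [Set.indicator_of_notMem hx]
        have h1 : ∀ a, |x a| ≤ r := not_not.1 hx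
        have h2 : χ (r⁻¹ • x) = 1 := by
          refine hχ1 _ fun a => ?_
          rw [Pi.smul_apply, smul_eq_mul, abs_mul, abs_of_pos (inv_pos.2 hr),
            inv_mul_le_iff₀ hr, mul_one]
          exact h1 a
        have h3 : φ x = w x := by
          rw [hφ]
          simp only
          rw [h2, one_mul]
        rw [h3]
        linarith
    linarith
  have hE : scE (2 * τ) v φ ≤ ∫ x, (Cu.indicator G1 x + Cu.indicator G2 x + v x * (1 - w x) ^ 2 +
      far.indicator v x) := by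
    unfold scE
    exact integral_mono_of_nonneg (Eventually.of_forall fun x => add_nonneg
      (mul_nonneg (by positivity) (p14_gsq_nonneg _ _)) (mul_nonneg (hv.nonneg x) (sq_nonneg _)))
      (((hI1.add hI2).add hI3).add hI4) (Eventually.of_forall hpt)
  have hsplit : ∫ x, (Cu.indicator G1 x + Cu.indicator G2 x + v x * (1 - w x) ^ 2 +
      far.indicator v x) = (∫ x, Cu.indicator G1 x) + (∫ x, Cu.indicator G2 x) +
        (∫ x, v x * (1 - w x) ^ 2) + ∫ x, far.indicator v x := by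
    rw [integral_add (f := fun x => Cu.indicator G1 x + Cu.indicator G2 x + v x * (1 - w x) ^ 2)
      ((hI1.add hI2).add hI3) hI4,
      integral_add (f := fun x => Cu.indicator G1 x + Cu.indicator G2 x) (hI1.add hI2) hI3,
      integral_add hI1 hI2]
  have e1 : ∫ x, Cu.indicator G1 x = 2 * τ * (1 + ε) *
      (ℓ ^ 3 * ((2 * Real.pi / ℓ) ^ 2 * ∑ n ∈ B, sq n * c n ^ 2)) := by
    rw [integral_indicator hCuc.measurableSet, hG1, integral_const_mul, w3]
  have e2 : ∫ x, Cu.indicator G2 x = 2 * τ * ((1 + 1 / ε) * (C / r ^ 2)) *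
      (ℓ ^ 3 * ∑ n ∈ B, c n ^ 2) := by
    rw [integral_indicator hCuc.measurableSet, hG2, integral_const_mul, w2]
  have e3 : ∫ x, v x * (1 - w x) ^ 2 = ℓ ^ 3 * ∫ y, Wr v ℓ y * (1 - wf B c y) ^ 2 := by
    have h1 := Wr_integral hv.meas hv.int hv.nonneg hl
      (f := fun y => (1 - wf B c y) ^ 2) ((measurable_const.sub (p14_wf_meas B c)).pow_const 2)
      (fun y => sq_nonneg _)
    rw [h1]
    simp only [p14_wf_coe]
    field_simp
    rfl
  have e4 : ∫ x, far.indicator v x = ∫ x in far, v x := integral_indicator hfarm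
  have e5 : 0 ≤ ∫ y, Wr v ℓ y * (1 - wf B c y) ^ 2 :=
    integral_nonneg fun y => mul_nonneg ENNReal.toReal_nonneg (sq_nonneg _)
  rw [hsplit, e1, e2, e3, e4] at hE
  refine h0.trans (hE.trans ?_)
  unfold Qf
  have e6 : ∑ n ∈ B, (2 * (τ * (2 * Real.pi / ℓ) ^ 2 * sq n) + 2 * 0) * c n ^ 2 =
      2 * τ * ((2 * Real.pi / ℓ) ^ 2 * ∑ n ∈ B, sq n * c n ^ 2) := by
    rw [Finset.mul_sum, Finset.mul_sum]
    refine Finset.sum_congr rfl fun n _ => ?_
    ring
  rw [e6]
  have e7 : 0 ≤ ε * (ℓ ^ 3 * ∫ y, Wr v ℓ y * (1 - wf B c y) ^ 2) := by positivity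
  have e8 : τ * (2 * C) * (1 + 1 / ε) / r ^ 2 * (ℓ ^ 3 * ∑ n ∈ B, c n ^ 2) =
      2 * τ * ((1 + 1 / ε) * (C / r ^ 2)) * (ℓ ^ 3 * ∑ n ∈ B, c n ^ 2) := by ring
  rw [e8]
  nlinarith [e7]

end

end Pool.Agent.H751R2.LHY.MT
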