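import Pool.Agent.NH34.TC.Stm

/-!
# Project TC, TC-12: lower bound with the gap, bounds of the scattering constant
-/

set_option autoImplicit false

open MeasureTheory UnitAddTorus Filter
open scoped ComplexConjugate ENNReal

namespace Pool.Agent.H751R2.LHY.MT

noncomputable section

/-- the tail of an integrable function -/
lemma p15_tail (v : (Fin 3 → ℝ) → ℝ) (hv : PotV v) (ε : ℝ) (hε : 0 < ε) :
    ∃ r₀ : ℝ, 0 < r₀ ∧ ∀ r : ℝ, r₀ ≤ r → ∫ x in {x : Fin 3 → ℝ | ¬ ∀ a, |x a| ≤ r}, v x ≤ ε := by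
  set s : ℕ → Set (Fin 3 → ℝ) := fun k => {x | ¬ ∀ a, |x a| ≤ (k : ℝ)} with hs
  have hmeas : ∀ r : ℝ, MeasurableSet {x : Fin 3 → ℝ | ¬ ∀ a, |x a| ≤ r} := by
    intro r
    have h1 : MeasurableSet {x : Fin 3 → ℝ | ∀ a, |x a| ≤ r} := by
      have : {x : Fin 3 → ℝ | ∀ a, |x a| ≤ r} = ⋂ a, {x : Fin 3 → ℝ | |x a| ≤ r} := by
        ext x; simp
      rw [this]
      refine MeasurableSet.iInter fun a => ?_
      exact measurableSet_le ((measurable_pi_apply a).abs) measurable_const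
    exact h1.compl
  have hanti : Antitone s := by
    intro j k hjk x hx h
    exact hx fun a => (h a).trans (by exact_mod_cast hjk)
  have hint : (⋂ k, s k) = ∅ := by
    ext x
    simp only [Set.mem_iInter, Set.mem_empty_iff_false, iff_false, not_forall]
    obtain ⟨k, hk⟩ := exists_nat_ge (∑ a, |x a|)
    refine ⟨k, fun hx => hx fun a => ?_⟩
    exact (Finset.single_le_sum (f := fun a => |x a|) (fun _ _ => abs_nonneg _) (Finset.mem_univ a)).trans hk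
  have h := tendsto_setIntegral_of_antitone (μ := volume) (f := v) (s := s) (fun k : ℕ => hmeas (k : ℝ)) hanti
    ⟨0, hv.int.integrableOn⟩
  rw [hint, setIntegral_empty] at h
  obtain ⟨k, hk, hk1⟩ := ((h.eventually (gt_mem_nhds hε)).and (eventually_ge_atTop 1)).exists
  refine ⟨k, by exact_mod_cast hk1, fun r hr => ?_⟩
  refine le_trans ?_ hk.le
  refine setIntegral_mono_set hv.int.integrableOn (ae_of_all _ hv.nonneg) (ae_of_all _ ?_)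
  intro x hx h2
  exact hx fun a => (h2 a).trans hr

theorem t15 (h14 : T14) : T15 := by
  obtain ⟨C, hC, h14⟩ := h14
  intro v hv τ ε hτ hε
  obtain ⟨r₀, hr₀, htail⟩ := p15_tail v hv ε hε
  set A : ℝ := τ * C * (1 + 1 / ε) with hA
  have hA0 : 0 < A := by positivity
  refine ⟨A / (2 * r₀ ^ 2), by positivity, ?_⟩
  intro μ hμ hμ0
  set r : ℝ := Real.sqrt (A / (2 * μ)) with hr
  have hr0 : 0 < r := Real.sqrt_pos.mpr (by positivity)
  have hrr : r₀ ≤ r := by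
    rw [hr]
    apply Real.le_sqrt_of_sq_le
    rw [le_div_iff₀ (by positivity)]
    rw [le_div_iff₀ (by positivity)] at hμ0
    linarith
  have hAr : A / r ^ 2 = 2 * μ := by
    rw [hr, Real.sq_sqrt (by positivity)]
    field_simp
  refine ⟨4 * r, by positivity, ?_⟩
  intro ℓ hℓ B hB c hc
  have hℓ0 : 0 < ℓ := by linarith
  have h1 := h14 v hv τ ε r ℓ hτ hε hr0 hℓ B hB c hc
  rw [← hA, hAr] at h1
  have h2 := Qf_shift (Wr v ℓ) (τ * (2 * Real.pi / ℓ) ^ 2) 0 μ B c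
  rw [h2]
  have h3 := htail r hrr
  have h4 : 0 ≤ ∑ n ∈ B, c n ^ 2 := Finset.sum_nonneg fun n _ => sq_nonneg _
  have h5 : 0 ≤ 2 * μ * (ε * (ℓ ^ 3 * ∑ n ∈ B, c n ^ 2)) := by positivity
  have h6 : (1 + ε) * (ℓ ^ 3 * (Qf (Wr v ℓ) (τ * (2 * Real.pi / ℓ) ^ 2) 0 B c -
      2 * (0 - μ) * ∑ n ∈ B, c n ^ 2)) =
      (1 + ε) * (ℓ ^ 3 * Qf (Wr v ℓ) (τ * (2 * Real.pi / ℓ) ^ 2) 0 B c) +
      2 * μ * (ℓ ^ 3 * ∑ n ∈ B, c n ^ 2) + 2 * μ * (ε * (ℓ ^ 3 * ∑ n ∈ B, c n ^ 2)) := by ring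
  rw [h6]
  linarith

lemma p15_nonneg {v : (Fin 3 → ℝ) → ℝ} (hv : PotV v) {κ : ℝ} (hκ : 0 ≤ κ) (φ : (Fin 3 → ℝ) → ℝ) :
    0 ≤ scE κ v φ := by
  unfold scE
  refine integral_nonneg fun x => ?_
  have h1 : 0 ≤ gsq φ x := Finset.sum_nonneg fun a _ => sq_nonneg _
  have h2 := hv.nonneg x
  positivity

lemma p15_zero (v : (Fin 3 → ℝ) → ℝ) (κ : ℝ) : scE κ v (fun _ => 0) = ∫ x, v x := by
  unfold scE
  congr 1
  funext x
  have : gsq (fun _ => 0) x = 0 := by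
    unfold gsq
    simp
  rw [this]
  ring

theorem t16 (h11 : T11) : T16 := by
  intro v hv τ hτ
  have hκ : (0 : ℝ) ≤ 2 * τ := by positivity
  have hbdd : BddBelow {E | ∃ φ : (Fin 3 → ℝ) → ℝ, ContDiff ℝ 1 φ ∧ HasCompactSupport φ ∧ E = scE (2 * τ) v φ} :=
    ⟨0, by rintro _ ⟨φ, -, -, rfl⟩; exact p15_nonneg hv hκ φ⟩
  have hzero : (∫ x, v x) ∈ {E | ∃ φ : (Fin 3 → ℝ) → ℝ, ContDiff ℝ 1 φ ∧ HasCompactSupport φ ∧ E = scE (2 * τ) v φ} :=
    ⟨fun _ => 0, contDiff_const, HasCompactSupport.zero, (p15_zero v _).symm⟩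
  refine ⟨?_, csInf_le hbdd hzero⟩
  obtain ⟨k, hk, hA0⟩ := exists_trunc hv.meas hv.int hv.nonneg hv.pos
  set A : ℝ := ∫ x, vt v k x with hA
  have hk0 : 0 < k := by linarith
  set gs : ℝ := A ^ 2 / (A + (7 * A ^ 2 + k * A) / τ) with hgs
  have hgs0 : 0 < gs := by positivity
  refine lt_of_lt_of_le hgs0 (le_csInf ⟨_, hzero⟩ ?_)
  rintro _ ⟨φ, hφ1, hφ2, rfl⟩
  refine le_of_forall_pos_le_add fun δ hδ => ?_
  obtain ⟨ℓ₀, C, hℓ₀, hC, h⟩ := h11 v hv τ hτ φ hφ1 hφ2 (δ / 2) (by positivity)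
  set ℓ : ℝ := max ℓ₀ (2 * k + 1) with hℓ
  have hℓ1 : ℓ₀ ≤ ℓ := le_max_left _ _
  have hℓ2 : 2 * k + 1 ≤ ℓ := le_max_right _ _
  have hℓ0 : 0 < ℓ := by linarith
  set μ : ℝ := δ / (2 * (C + 1)) with hμ
  have hμ0 : 0 < μ := by positivity
  have hCμ : C * μ ≤ δ / 2 := by
    rw [hμ, mul_div_assoc', div_le_div_iff₀ (by positivity) (by positivity)]
    nlinarith
  obtain ⟨R, hR⟩ := (h ℓ μ k hℓ1 hμ0 hk0.le).exists
  have hq : 0 < τ * (2 * Real.pi / ℓ) ^ 2 := by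
    have := Real.pi_pos
    positivity
  have hpot : Pot (fun y => min (Wr v ℓ y) k) := pot_min (Wr_pot hv.meas hv.int hv.even hℓ0) hk0.le
  obtain ⟨cA, hcA⟩ := exists_scat hpot hq hμ0 (boxM_sym R)
  have h1 := hR cA hcA
  rw [scat_Q hpot hcA] at h1
  have h2 := hQ_lemma hv.meas hv.int hv.nonneg hv.even hk hA hA0 hτ (by linarith : (1 : ℝ) ≤ ℓ)
    (by linarith : 2 * k < ℓ) hμ0.le k le_rfl _ (boxM_sym R) cA
  rw [div_le_iff₀ (by positivity)] at h2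
  calc gs ≤ _ := h2
    _ = ℓ ^ 3 * Qf (fun y => min (Wr v ℓ y) k) (τ * (2 * Real.pi / ℓ) ^ 2) μ ((boxM R).erase 0) cA := by ring
    _ ≤ scE (2 * τ) v φ + C * μ + δ / 2 := h1
    _ ≤ scE (2 * τ) v φ + δ := by linarith

end

end Pool.Agent.H751R2.LHY.MT
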