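import Pool.Agent.NH34.TC.Stm

/-!
# Project TC, T17: the effective interaction converges to the scattering constant (helper79)
-/

open MeasureTheory UnitAddTorus Filter
open scoped ComplexConjugate ENNReal

namespace Pool.Agent.H751R2.LHY.MT

noncomputable section

/-- the truncated potential is a potential -/
theorem p17_pot {W : T3 → ℝ} (hW : Pot W) {K : ℝ} (hK : 0 ≤ K) : Pot (fun y => min (W y) K) where
  nonneg y := le_min (hW.nonneg y) hK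
  int := by
    refine hW.int.mono' (hW.int.aestronglyMeasurable.inf aestronglyMeasurable_const)
      (Filter.Eventually.of_forall fun y => ?_)
    rw [Real.norm_eq_abs, abs_of_nonneg (le_min (hW.nonneg y) hK)]
    exact min_le_left _ _
  even y := by simp only [hW.even]

theorem p17_gsq_zero (x : Fin 3 → ℝ) : gsq (fun _ => 0) x = 0 := by
  unfold gsq
  simp

/-- the energy of the zero function -/
theorem p17_scE_zero (κ : ℝ) (v : (Fin 3 → ℝ) → ℝ) : scE κ v (fun _ => 0) = ∫ x, v x := by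
  unfold scE
  refine integral_congr_ae (Filter.Eventually.of_forall fun x => ?_)
  simp only [p17_gsq_zero]
  ring

theorem p17_near {v : (Fin 3 → ℝ) → ℝ} (hv : PotV v) {e ℓ δ : ℝ} (hℓ : 0 < ℓ)
    (hnear : ∀ κ : Fin 3 → ℝ, ∑ a, κ a ^ 2 ≤ δ →
      ∫ x : Fin 3 → ℝ, v x * (1 - Real.cos (∑ a, κ a * x a)) < e) (n : Mom)
    (hn : (2 * Real.pi / ℓ) ^ 2 * sq n ≤ δ) :
    ℓ ^ 3 * ∫ y, Wr v ℓ y * (1 - cs n y) ≤ e := by
  rw [Wr_cos hv.meas hv.int hv.nonneg hℓ n]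
  have h1 : ∑ a, (2 * Real.pi / ℓ * (n a : ℝ)) ^ 2 ≤ δ := by
    have h2 : ∑ a, (2 * Real.pi / ℓ * (n a : ℝ)) ^ 2 = (2 * Real.pi / ℓ) ^ 2 * sq n := by
      rw [sq, Finset.mul_sum]
      exact Finset.sum_congr rfl (fun a _ => by ring)
    rw [h2]
    exact hn
  have h5 := (hnear _ h1).le
  have h6 : ℓ ^ 3 * (1 / ℓ ^ 3 * ∫ x : Fin 3 → ℝ, v x *
      (1 - Real.cos (∑ a, 2 * Real.pi / ℓ * (n a : ℝ) * x a))) = ∫ x : Fin 3 → ℝ, v x *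
      (1 - Real.cos (∑ a, 2 * Real.pi / ℓ * (n a : ℝ) * x a)) := by
    rw [← mul_assoc, mul_one_div_cancel (by positivity), one_mul]
  rw [h6]
  exact h5

/-- the effective interaction at `n` and at `0` -/
theorem p17_diff (h1 : T01) {v : (Fin 3 → ℝ) → ℝ} (hv : PotV v) {e ℓ K q μ : ℝ} (hℓ : 0 < ℓ)
    (hK : 0 ≤ K) (hq : 0 < q) (hμ : 0 < μ) (he : 0 < e) {B0 : Finset Mom} {c : Mom → ℝ}
    (hc : Scat (fun y => min (Wr v ℓ y) K) q μ B0 c) (n : Mom)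
    (hn : ℓ ^ 3 * ∫ y, Wr v ℓ y * (1 - cs n y) ≤ e ^ 2 / (2 * ∫ x, v x)) :
    |ℓ ^ 3 * gh (fun y => min (Wr v ℓ y) K) B0 c 0 -
      ℓ ^ 3 * gh (fun y => min (Wr v ℓ y) K) B0 c n| ≤ e := by
  have hW := Wr_pot hv.meas hv.int hv.even hℓ
  have hWK := p17_pot hW hK
  have hV := hv.pos
  have h2 := h1 _ hWK q μ hq hμ B0 c hc n
  have h3 : ∫ y, min (Wr v ℓ y) K ≤ ∫ y, Wr v ℓ y :=
    integral_mono hWK.int hW.int fun y => min_le_left _ _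
  have hcs0 : ∀ y, 0 ≤ 1 - cs n y := fun y => by linarith [cs_le_one n y]
  have hcont : Continuous fun y => (1 : ℝ) - cs n y :=
    continuous_const.sub (ClipH44.cs_cont n)
  have h4 : ∫ y, min (Wr v ℓ y) K * (1 - cs n y) ≤ ∫ y, Wr v ℓ y * (1 - cs n y) :=
    integral_mono (ClipH44.int_mul hWK.int hcont) (ClipH44.int_mul hW.int hcont)
      fun y => mul_le_mul_of_nonneg_right (min_le_left _ _) (hcs0 y)
  have h5 : 0 ≤ ∫ y, min (Wr v ℓ y) K * (1 - cs n y) :=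
    integral_nonneg fun y => mul_nonneg (hWK.nonneg y) (hcs0 y)
  have h6 : 0 ≤ ∫ y, Wr v ℓ y := integral_nonneg hW.nonneg
  have h7 : (∫ y, min (Wr v ℓ y) K) * (2 * ∫ y, min (Wr v ℓ y) K * (1 - cs n y)) ≤
      (∫ y, Wr v ℓ y) * (2 * ∫ y, Wr v ℓ y * (1 - cs n y)) :=
    mul_le_mul h3 (by linarith) (by linarith) h6
  have h8 : ℓ ^ 3 * ∫ y, Wr v ℓ y = ∫ x, v x := by
    rw [Wr_int_one hv.meas hv.int hv.nonneg hℓ]
    field_simp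
  refine abs_le_of_sq_le_sq ?_ he.le
  calc (ℓ ^ 3 * gh (fun y => min (Wr v ℓ y) K) B0 c 0 -
      ℓ ^ 3 * gh (fun y => min (Wr v ℓ y) K) B0 c n) ^ 2
      = (ℓ ^ 3) ^ 2 * (gh (fun y => min (Wr v ℓ y) K) B0 c 0 -
          gh (fun y => min (Wr v ℓ y) K) B0 c n) ^ 2 := by ring
    _ ≤ (ℓ ^ 3) ^ 2 * ((∫ y, Wr v ℓ y) * (2 * ∫ y, Wr v ℓ y * (1 - cs n y))) :=
        mul_le_mul_of_nonneg_left (h2.trans h7) (by positivity)
    _ = (ℓ ^ 3 * ∫ y, Wr v ℓ y) * (2 * (ℓ ^ 3 * ∫ y, Wr v ℓ y * (1 - cs n y))) := by ring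
    _ = (∫ x, v x) * (2 * (ℓ ^ 3 * ∫ y, Wr v ℓ y * (1 - cs n y))) := by rw [h8]
    _ ≤ (∫ x, v x) * (2 * (e ^ 2 / (2 * ∫ x, v x))) := by
        apply mul_le_mul_of_nonneg_left _ hV.le
        linarith
    _ = e ^ 2 := by field_simp

theorem t17 (h1 : T01) (h11 : T11) (h15 : T15) : T17 := by
  intro v hv τ ε hτ hε
  have hV := hv.pos
  set V0 : ℝ := ∫ x, v x with hV0
  set sc : ℝ := scC (2 * τ) v with hsc
  -- the test function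
  obtain ⟨φ, hφ1, hφ2, hφ3⟩ : ∃ φ : (Fin 3 → ℝ) → ℝ, ContDiff ℝ 1 φ ∧ HasCompactSupport φ ∧
      scE (2 * τ) v φ < sc + ε / 8 := by
    have hne : {E | ∃ φ : (Fin 3 → ℝ) → ℝ, ContDiff ℝ 1 φ ∧ HasCompactSupport φ ∧
        E = scE (2 * τ) v φ}.Nonempty :=
      ⟨_, fun _ => 0, contDiff_const, HasCompactSupport.zero, rfl⟩
    obtain ⟨E, ⟨φ, ha, hb, rfl⟩, hE⟩ := exists_lt_of_csInf_lt hne
      (show sInf {E | ∃ φ : (Fin 3 → ℝ) → ℝ, ContDiff ℝ 1 φ ∧ HasCompactSupport φ ∧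
        E = scE (2 * τ) v φ} < sc + ε / 8 by rw [hsc]; unfold scC; linarith)
    exact ⟨φ, ha, hb, hE⟩
  obtain ⟨ℓ₁, C, hℓ₁, hC, hup⟩ := h11 v hv τ hτ φ hφ1 hφ2 (ε / 8) (by positivity)
  obtain ⟨e, he⟩ : ∃ e : ℝ, e = min 1 (ε / (4 * (V0 + 3))) := ⟨_, rfl⟩
  have he0 : 0 < e := by rw [he]; exact lt_min one_pos (by positivity)
  have he1 : e ≤ 1 := by rw [he]; exact min_le_left _ _
  have he2 : e * (V0 + 3) ≤ ε / 4 := by
    have h : e ≤ ε / (4 * (V0 + 3)) := by rw [he]; exact min_le_right _ _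
    rw [le_div_iff₀ (by positivity)] at h
    linarith
  obtain ⟨μ₀, hμ₀, hlow⟩ := h15 v hv τ e hτ he0
  obtain ⟨δ, hδ, hnear⟩ := near_cos hv.meas hv.int (ε := (ε / 2) ^ 2 / (2 * V0)) (by positivity)
  obtain ⟨ρ₁, hρ₁⟩ : ∃ ρ₁ : ℝ, ρ₁ = min (ε / (4 * (5 * V0 * (C + 1)))) (μ₀ / (5 * V0)) := ⟨_, rfl⟩
  refine ⟨ρ₁, δ, by rw [hρ₁]; exact lt_min (by positivity) (by positivity), hδ,
    fun ρ hρ hρ1 => ?_⟩
  obtain ⟨μ, hμe⟩ : ∃ μ : ℝ, μ = 5 * (ρ * V0) := ⟨_, rfl⟩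
  have hμ : 0 < μ := by rw [hμe]; positivity
  have hμ1 : μ ≤ μ₀ := by
    have h := hρ1.trans_le ((hρ₁.le).trans (min_le_right _ _))
    rw [lt_div_iff₀ (by positivity)] at h
    rw [hμe]
    linarith
  have hμ2 : C * μ ≤ ε / 4 := by
    have h := hρ1.trans_le ((hρ₁.le).trans (min_le_left _ _))
    rw [lt_div_iff₀ (by positivity)] at h
    rw [hμe]
    have h' : 0 ≤ ρ * V0 := by positivity
    nlinarith
  obtain ⟨ℓ₂, hℓ₂, hlow2⟩ := hlow μ hμ hμ1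
  refine ⟨max ℓ₁ ℓ₂, lt_max_of_lt_left hℓ₁, fun ℓ hℓℓ => ?_⟩
  have hl1 : ℓ₁ ≤ ℓ := (le_max_left _ _).trans hℓℓ
  have hl2 : ℓ₂ ≤ ℓ := (le_max_right _ _).trans hℓℓ
  have hℓ : 0 < ℓ := hℓ₁.trans_le hl1
  have hq : 0 < τ * (2 * Real.pi / ℓ) ^ 2 := by
    have := Real.pi_pos
    positivity
  have hW := Wr_pot hv.meas hv.int hv.even hℓ
  obtain ⟨K0, hK0⟩ := clip hW (Wr_meas hv.meas ℓ) hq hμ (ε := e / ℓ ^ 3) (by positivity)
  have h8 : ℓ ^ 3 * ∫ y, Wr v ℓ y = V0 := by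
    rw [Wr_int_one hv.meas hv.int hv.nonneg hℓ]
    field_simp
    rfl
  filter_upwards [eventually_ge_atTop K0, eventually_ge_atTop (0 : ℝ)] with K hK1 hK2
  filter_upwards [hup ℓ μ K hl1 hμ hK2] with R hR cA hcA n hn
  rw [← hμe] at hcA
  have hWK := p17_pot hW hK2
  have hupper := hR cA hcA
  have hgQ := scat_Q hWK hcA
  have hWI : ∫ y, min (Wr v ℓ y) K ≤ ∫ y, Wr v ℓ y :=
    integral_mono hWK.int hW.int fun y => min_le_left _ _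
  have hg0 := gh_zero_le hWK hq hμ hcA
  obtain ⟨B1, hB1, c1, hc1, hQ1⟩ := hK0 K hK1 _ (boxM_sym R) cA hcA.even (by linarith)
  have hlow3 := hlow2 ℓ hl2 B1 hB1 c1 hc1
  have hdiff := p17_diff h1 hv hℓ hK2 hq hμ (show 0 < ε / 2 by positivity) hcA n
    (p17_near hv hℓ hnear n hn)
  obtain ⟨g0, hg0e⟩ : ∃ g0 : ℝ, g0 = ℓ ^ 3 *
    gh (fun y => min (Wr v ℓ y) K) ((boxM R).erase 0) cA 0 := ⟨_, rfl⟩
  have hl3 : 0 < ℓ ^ 3 := by positivity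
  have hg0V : g0 ≤ V0 := by
    rw [hg0e, ← h8]
    exact mul_le_mul_of_nonneg_left (hg0.trans hWI) hl3.le
  have hQ2 : ℓ ^ 3 * Qf (Wr v ℓ) (τ * (2 * Real.pi / ℓ) ^ 2) μ B1 c1 ≤ g0 + e := by
    have h := mul_le_mul_of_nonneg_left hQ1 hl3.le
    rw [← hgQ, mul_add, ← hg0e, mul_div_cancel₀ _ hl3.ne'] at h
    exact h
  rw [← hg0e] at hupper hdiff
  have hlo : sc ≤ (1 + e) * (g0 + e) + e := by
    refine hlow3.trans ?_
    have := mul_le_mul_of_nonneg_left hQ2 (show (0 : ℝ) ≤ 1 + e by linarith)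
    linarith
  have h9 : e * g0 ≤ e * V0 := mul_le_mul_of_nonneg_left hg0V he0.le
  have h10 : e * e ≤ e * 1 := mul_le_mul_of_nonneg_left he1 he0.le
  obtain ⟨d1, d2⟩ := abs_le.1 hdiff
  rw [abs_le]
  constructor
  · nlinarith
  · linarith

end

end Pool.Agent.H751R2.LHY.MT
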