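import Pool.Agent.NH34.TC.Stm

/-!
# T18: the tail of the lattice sum `∑_{|n| > R} |n|⁻⁴ ~ 4π/R`
-/

open MeasureTheory UnitAddTorus Filter
open scoped ComplexConjugate ENNReal

namespace Pool.Agent.H751R2.LHY.MT

noncomputable section

/-- radial function -/
def p18g (ρ y : ℝ) : ℝ := if ρ < y then 1 / y ^ 4 else 0

theorem p18g_nonneg (ρ y : ℝ) : 0 ≤ p18g ρ y := by
  unfold p18g
  split_ifs
  · positivity
  · exact le_rfl

theorem p18_radial1 {ρ : ℝ} (hρ : 0 < ρ) (y : ℝ) :
    y ^ (Module.finrank ℝ (EuclideanSpace ℝ (Fin 3)) - 1) • p18g ρ y =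
      (Set.Ioi ρ).indicator (fun y : ℝ => y ^ (-2 : ℝ)) y := by
  have h3 : Module.finrank ℝ (EuclideanSpace ℝ (Fin 3)) = 3 := by simp
  rw [h3]
  unfold p18g
  by_cases h : ρ < y
  · rw [if_pos h, Set.indicator_of_mem (show y ∈ Set.Ioi ρ from h)]
    have hy : 0 < y := hρ.trans h
    rw [Real.rpow_neg hy.le]
    simp only [smul_eq_mul]
    have : y ^ (2 : ℝ) = y ^ (2 : ℕ) := by
      rw [← Real.rpow_natCast]; norm_num
    rw [this]
    have h2 : y ^ (3 - 1) = y ^ 2 := rfl
    rw [h2]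
    field_simp
  · rw [if_neg h, Set.indicator_of_notMem (show y ∉ Set.Ioi ρ from h)]
    simp

theorem p18_int1 {ρ : ℝ} (hρ : 0 < ρ) :
    IntegrableOn ((Set.Ioi ρ).indicator (fun y : ℝ => y ^ (-2 : ℝ))) (Set.Ioi 0) := by
  have h := integrableOn_Ioi_rpow_of_lt (a := -2) (by norm_num) hρ
  exact ((integrable_indicator_iff measurableSet_Ioi).2 h).integrableOn

theorem p18_int2 {ρ : ℝ} (hρ : 0 < ρ) :
    ∫ y in Set.Ioi (0 : ℝ), (Set.Ioi ρ).indicator (fun y : ℝ => y ^ (-2 : ℝ)) y = 1 / ρ := by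
  rw [setIntegral_indicator measurableSet_Ioi]
  have : Set.Ioi (0 : ℝ) ∩ Set.Ioi ρ = Set.Ioi ρ := by
    rw [Set.inter_eq_right]
    exact Set.Ioi_subset_Ioi hρ.le
  rw [this, integral_Ioi_rpow_of_lt (by norm_num) hρ]
  have h : (-2 : ℝ) + 1 = -1 := by norm_num
  rw [h, Real.rpow_neg_one]
  ring

theorem p18_radial2 {ρ : ℝ} (hρ : 0 < ρ) :
    Integrable (fun x : EuclideanSpace ℝ (Fin 3) => p18g ρ ‖x‖) ∧
      ∫ x : EuclideanSpace ℝ (Fin 3), p18g ρ ‖x‖ = 4 * Real.pi / ρ := by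
  constructor
  · rw [integrable_fun_norm_addHaar]
    simp only [p18_radial1 hρ]
    exact p18_int1 hρ
  · rw [integral_fun_norm_addHaar]
    simp only [p18_radial1 hρ]
    rw [p18_int2 hρ]
    have h3 : Module.finrank ℝ (EuclideanSpace ℝ (Fin 3)) = 3 := by simp
    rw [h3, measureReal_def, EuclideanSpace.volume_ball_fin_three]
    have h4 : (0 : ℝ) ≤ Real.pi * 4 / 3 := by positivity
    rw [ENNReal.toReal_mul, ENNReal.toReal_pow, ENNReal.toReal_ofReal zero_le_one,
      ENNReal.toReal_ofReal h4]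
    simp only [nsmul_eq_mul, smul_eq_mul]
    push_cast
    field_simp
    try ring

/-- Euclidean length -/
def p18n (x : Fin 3 → ℝ) : ℝ := √(∑ a, x a ^ 2)

theorem p18n_eq (x : Fin 3 → ℝ) : p18n x = ‖(WithLp.toLp 2 x : EuclideanSpace ℝ (Fin 3))‖ := by
  rw [EuclideanSpace.norm_eq]
  simp [p18n]

theorem p18_radial3 {ρ : ℝ} (hρ : 0 < ρ) :
    Integrable (fun x : Fin 3 → ℝ => p18g ρ (p18n x)) ∧
      ∫ x : Fin 3 → ℝ, p18g ρ (p18n x) = 4 * Real.pi / ρ := by
  have hm := (EuclideanSpace.volume_preserving_symm_measurableEquiv_toLp (Fin 3)).symm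
  obtain ⟨h1, h2⟩ := p18_radial2 hρ
  have he : ∀ x : Fin 3 → ℝ, p18g ρ (p18n x) =
      (fun x : EuclideanSpace ℝ (Fin 3) => p18g ρ ‖x‖)
        ((MeasurableEquiv.toLp 2 (Fin 3 → ℝ)) x) := by
    intro x
    rw [p18n_eq]
    rfl
  constructor
  · simp only [he]
    exact (hm.integrable_comp_emb (MeasurableEquiv.measurableEmbedding _)).2 h1
  · simp only [he]
    rw [← h2]
    exact hm.integral_comp' (g := fun x : EuclideanSpace ℝ (Fin 3) => p18g ρ ‖x‖)

/-- unit cube -/
def p18Q (n : Mom) : Set (Fin 3 → ℝ) := Set.univ.pi fun a => Set.Ico (n a : ℝ) (n a + 1)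

theorem p18Q_meas (n : Mom) : MeasurableSet (p18Q n) :=
  MeasurableSet.univ_pi fun _ => measurableSet_Ico

theorem p18Q_vol (n : Mom) : volume (p18Q n) = 1 := by
  rw [p18Q, volume_pi_pi]
  simp

theorem p18Q_union : (⋃ n : Mom, p18Q n) = Set.univ := by
  apply Set.eq_univ_of_forall
  intro x
  rw [Set.mem_iUnion]
  refine ⟨fun a => ⌊x a⌋, ?_⟩
  intro a _
  exact ⟨Int.floor_le _, Int.lt_floor_add_one _⟩

theorem p18Q_disj : Pairwise (Function.onFun Disjoint p18Q) := by
  intro n m hnm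
  rw [Function.onFun, Set.disjoint_left]
  intro x hx hy
  apply hnm
  funext a
  have h1 := hx a (Set.mem_univ a)
  have h2 := hy a (Set.mem_univ a)
  have h3 : ⌊x a⌋ = n a := Int.floor_eq_iff.2 ⟨h1.1, h1.2⟩
  have h4 : ⌊x a⌋ = m a := Int.floor_eq_iff.2 ⟨h2.1, h2.2⟩
  rw [← h3, ← h4]

theorem p18_tile {ρ : ℝ} (hρ : 0 < ρ) :
    HasSum (fun n : Mom => ∫ x in p18Q n, p18g ρ (p18n x)) (4 * Real.pi / ρ) := by
  obtain ⟨h1, h2⟩ := p18_radial3 hρ
  have h := hasSum_integral_iUnion (f := fun x : Fin 3 → ℝ => p18g ρ (p18n x)) (μ := volume)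
    (s := p18Q) (fun n => p18Q_meas n) p18Q_disj h1.integrableOn
  rw [p18Q_union, Measure.restrict_univ, h2] at h
  exact h

/-- length of a lattice point -/
def p18m (n : Mom) : ℝ := p18n (fun a => (n a : ℝ))

theorem p18m_sq (n : Mom) : p18m n ^ 2 = sq n := by
  unfold p18m p18n
  rw [Real.sq_sqrt (Finset.sum_nonneg fun _ _ => sq_nonneg _)]
  rfl

theorem p18m_nonneg (n : Mom) : 0 ≤ p18m n := Real.sqrt_nonneg _

theorem p18n_nonneg (x : Fin 3 → ℝ) : 0 ≤ p18n x := Real.sqrt_nonneg _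

theorem p18_close {n : Mom} {x : Fin 3 → ℝ} (h : x ∈ p18Q n) : |p18n x - p18m n| ≤ 2 := by
  unfold p18m
  rw [p18n_eq, p18n_eq]
  refine (abs_norm_sub_norm_le _ _).trans ?_
  have he : (WithLp.toLp 2 x : EuclideanSpace ℝ (Fin 3)) - WithLp.toLp 2 (fun a => (n a : ℝ)) =
      WithLp.toLp 2 (fun a => x a - n a) := by
    ext a
    simp
  rw [he, ← p18n_eq]
  unfold p18n
  rw [Real.sqrt_le_left (by norm_num)]
  calc ∑ a : Fin 3, (x a - n a) ^ 2 ≤ ∑ _a : Fin 3, (1 : ℝ) := by
        apply Finset.sum_le_sum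
        intro a _
        have h1 := h a (Set.mem_univ a)
        have h2 : 0 ≤ x a - n a := by linarith [h1.1]
        have h3 : x a - n a ≤ 1 := by linarith [h1.2]
        nlinarith
    _ ≤ 2 ^ 2 := by norm_num

theorem p18_const (n : Mom) (c : ℝ) : ∫ _x in p18Q n, c = c := by
  rw [setIntegral_const, measureReal_def, p18Q_vol]
  simp

theorem p18_const_int (n : Mom) (c : ℝ) : IntegrableOn (fun _ : Fin 3 → ℝ => c) (p18Q n) := by
  have h1 : volume (p18Q n) ≠ ⊤ := by rw [p18Q_vol]; simp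
  have h2 : ‖c‖ₑ ≠ ⊤ := by simp
  exact integrableOn_const h1 h2

/-- summand -/
def p18a (R : ℝ) (n : Mom) : ℝ := if R ^ 2 < sq n then 1 / sq n ^ 2 else 0

theorem p18a_nonneg (R : ℝ) (n : Mom) : 0 ≤ p18a R n := by
  unfold p18a
  split_ifs
  · positivity
  · exact le_rfl

theorem p18_upper {R : ℝ} (hR : 4 ≤ R) (n : Mom) :
    p18a R n ≤ (1 + 2 / R) ^ 4 * ∫ x in p18Q n, p18g (R - 2) (p18n x) := by
  have hI := (p18_radial3 (ρ := R - 2) (by linarith)).1
  have h0 : 0 ≤ ∫ x in p18Q n, p18g (R - 2) (p18n x) :=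
    integral_nonneg fun x => p18g_nonneg _ _
  unfold p18a
  split_ifs with h
  · rw [← p18m_sq] at h ⊢
    have hm : R < p18m n := lt_of_pow_lt_pow_left₀ 2 (p18m_nonneg n) h
    have hR0 : 0 < R := by linarith
    have hm0 : 0 < p18m n := by linarith
    have key : ∫ _x in p18Q n, (1 / (p18m n + 2) ^ 4) ≤ ∫ x in p18Q n, p18g (R - 2) (p18n x) := by
      apply setIntegral_mono_on (p18_const_int n _) hI.integrableOn (p18Q_meas n)
      intro x hx
      have hc := abs_le.1 (p18_close hx)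
      have h1 : R - 2 < p18n x := by linarith [hc.1]
      have h2 : p18n x ≤ p18m n + 2 := by linarith [hc.2]
      have h3 : 0 < p18n x := by linarith
      unfold p18g
      rw [if_pos h1]
      exact one_div_le_one_div_of_le (by positivity) (pow_le_pow_left₀ h3.le h2 4)
    rw [p18_const] at key
    have h5 : p18m n + 2 ≤ (1 + 2 / R) * p18m n := by
      have : 2 ≤ 2 / R * p18m n := by
        rw [div_mul_eq_mul_div, le_div_iff₀ hR0]
        linarith
      linarith
    have h6 : (p18m n + 2) ^ 4 ≤ (1 + 2 / R) ^ 4 * p18m n ^ 4 := by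
      rw [← mul_pow]
      exact pow_le_pow_left₀ (by positivity) h5 4
    calc 1 / (p18m n ^ 2) ^ 2 ≤ (1 + 2 / R) ^ 4 * (1 / (p18m n + 2) ^ 4) := by
          rw [mul_one_div, div_le_div_iff₀ (by positivity) (by positivity)]
          nlinarith
      _ ≤ _ := mul_le_mul_of_nonneg_left key (by positivity)
  · positivity

theorem p18_lower {R : ℝ} (hR : 4 ≤ R) (n : Mom) :
    (1 - 2 / R) ^ 4 * ∫ x in p18Q n, p18g (R + 2) (p18n x) ≤ p18a R n := by
  have hR0 : 0 < R := by linarith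
  have hI := (p18_radial3 (ρ := R + 2) (by linarith)).1
  have hfac : 0 < 1 - 2 / R := by
    rw [sub_pos, div_lt_one hR0]; linarith
  unfold p18a
  split_ifs with h
  · rw [← p18m_sq] at h ⊢
    have hm : R < p18m n := lt_of_pow_lt_pow_left₀ 2 (p18m_nonneg n) h
    have hm0 : 0 < p18m n := by linarith
    have hm2 : 0 < p18m n - 2 := by linarith
    have key : ∫ x in p18Q n, p18g (R + 2) (p18n x) ≤ ∫ _x in p18Q n, (1 / (p18m n - 2) ^ 4) := by
      apply setIntegral_mono_on hI.integrableOn (p18_const_int n _) (p18Q_meas n)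
      intro x hx
      have hc := abs_le.1 (p18_close hx)
      have h2 : p18m n - 2 ≤ p18n x := by linarith [hc.1]
      unfold p18g
      split_ifs with h1
      · exact one_div_le_one_div_of_le (by positivity) (pow_le_pow_left₀ hm2.le h2 4)
      · positivity
    rw [p18_const] at key
    have h5 : (1 - 2 / R) * p18m n ≤ p18m n - 2 := by
      have : 2 ≤ 2 / R * p18m n := by
        rw [div_mul_eq_mul_div, le_div_iff₀ hR0]
        linarith
      linarith
    have h6 : (1 - 2 / R) ^ 4 * p18m n ^ 4 ≤ (p18m n - 2) ^ 4 := by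
      rw [← mul_pow]
      exact pow_le_pow_left₀ (by positivity) h5 4
    calc (1 - 2 / R) ^ 4 * ∫ x in p18Q n, p18g (R + 2) (p18n x)
        ≤ (1 - 2 / R) ^ 4 * (1 / (p18m n - 2) ^ 4) :=
          mul_le_mul_of_nonneg_left key (by positivity)
      _ ≤ _ := by
          rw [mul_one_div, div_le_div_iff₀ (by positivity) (by positivity)]
          nlinarith
  · have hle : p18m n ≤ R := by
      rw [← p18m_sq] at h
      push Not at h
      exact le_of_sq_le_sq h hR0.le
    have hz : ∫ x in p18Q n, p18g (R + 2) (p18n x) = 0 := by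
      apply setIntegral_eq_zero_of_forall_eq_zero
      intro x hx
      have hc := abs_le.1 (p18_close hx)
      unfold p18g
      rw [if_neg]
      push Not
      linarith [hc.2]
    rw [hz, mul_zero]

theorem p18_summable {R : ℝ} (hR : 4 ≤ R) : Summable (p18a R) :=
  Summable.of_nonneg_of_le (p18a_nonneg R) (p18_upper hR)
    ((p18_tile (ρ := R - 2) (by linarith)).summable.mul_left _)

theorem p18_bounds {R : ℝ} (hR : 4 ≤ R) :
    (1 - 2 / R) ^ 4 * (4 * Real.pi / (R + 2)) ≤ ∑' n, p18a R n ∧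
      ∑' n, p18a R n ≤ (1 + 2 / R) ^ 4 * (4 * Real.pi / (R - 2)) := by
  constructor
  · have h := (p18_tile (ρ := R + 2) (by linarith)).mul_left ((1 - 2 / R) ^ 4)
    rw [← h.tsum_eq]
    exact Summable.tsum_le_tsum (p18_lower hR) h.summable (p18_summable hR)
  · have h := (p18_tile (ρ := R - 2) (by linarith)).mul_left ((1 + 2 / R) ^ 4)
    rw [← h.tsum_eq]
    exact Summable.tsum_le_tsum (p18_upper hR) (p18_summable hR) h.summable

theorem p18_lim1 : Tendsto (fun R : ℝ => 2 / R) atTop (nhds 0) :=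
  tendsto_const_nhds.div_atTop tendsto_id

theorem p18_limit : Tendsto (fun R : ℝ => R * ∑' n, p18a R n) atTop (nhds (4 * Real.pi)) := by
  have hl : Tendsto (fun R : ℝ => (1 - 2 / R) ^ 4 * (4 * Real.pi * (1 / (1 + 2 / R)))) atTop
      (nhds ((1 - 0) ^ 4 * (4 * Real.pi * (1 / (1 + 0))))) := by
    apply Tendsto.mul ((tendsto_const_nhds.sub p18_lim1).pow 4)
    apply Tendsto.const_mul
    apply Tendsto.div tendsto_const_nhds (tendsto_const_nhds.add p18_lim1)
    norm_num
  have hu : Tendsto (fun R : ℝ => (1 + 2 / R) ^ 4 * (4 * Real.pi * (1 / (1 - 2 / R)))) atTop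
      (nhds ((1 + 0) ^ 4 * (4 * Real.pi * (1 / (1 - 0))))) := by
    apply Tendsto.mul ((tendsto_const_nhds.add p18_lim1).pow 4)
    apply Tendsto.const_mul
    apply Tendsto.div tendsto_const_nhds (tendsto_const_nhds.sub p18_lim1)
    norm_num
  have e1 : ((1 : ℝ) - 0) ^ 4 * (4 * Real.pi * (1 / (1 + 0))) = 4 * Real.pi := by norm_num
  have e2 : ((1 : ℝ) + 0) ^ 4 * (4 * Real.pi * (1 / (1 - 0))) = 4 * Real.pi := by norm_num
  rw [e1] at hl
  rw [e2] at hu
  refine tendsto_of_tendsto_of_tendsto_of_le_of_le' hl hu ?_ ?_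
  · filter_upwards [eventually_ge_atTop (4 : ℝ)] with R hR
    have hR0 : 0 < R := by linarith
    have h := mul_le_mul_of_nonneg_left (p18_bounds hR).1 hR0.le
    refine le_trans (le_of_eq ?_) h
    field_simp
  · filter_upwards [eventually_ge_atTop (4 : ℝ)] with R hR
    have hR0 : 0 < R := by linarith
    have hR2 : R - 2 ≠ 0 := by
      intro h; linarith
    have h := mul_le_mul_of_nonneg_left (p18_bounds hR).2 hR0.le
    refine h.trans (le_of_eq ?_)
    have h3 : 1 - 2 / R = (R - 2) / R := by field_simp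
    rw [h3]
    field_simp

theorem t18 : T18 := by
  constructor
  · have h := p18_summable (R := 4) le_rfl
    refine h.congr_cofinite ?_
    have hfin : Set.Finite {n : Mom | ¬ (p18a 4 n = if n = 0 then (0 : ℝ) else 1 / sq n ^ 2)} := by
      apply Set.Finite.subset (boxM 4).finite_toSet
      intro n hn
      by_contra hb
      apply hn
      have h1 := sq_ge' (R := 4) (n := n) (by simpa using hb)
      have h2 : ((4 : ℝ)) ^ 2 < sq n := by
        push_cast at h1
        linarith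
      have h3 : n ≠ 0 := by
        rintro rfl
        apply hb
        exact Finset.mem_coe.2 (zero_mem_boxM' 4)
      unfold p18a
      rw [if_pos h2, if_neg h3]
    exact hfin
  · intro ε hε
    have h := (Metric.tendsto_atTop.1 p18_limit) ε hε
    obtain ⟨R₀, hR₀⟩ := h
    refine ⟨max R₀ 1, by positivity, fun R hR => ?_⟩
    have h1 := hR₀ R (le_trans (le_max_left _ _) hR)
    have hR1 : (1 : ℝ) ≤ R := le_trans (le_max_right _ _) hR
    have hR0 : 0 < R := by linarith
    rw [Real.dist_eq] at h1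
    have h2 : (∑' n : Mom, if R ^ 2 < sq n then 1 / sq n ^ 2 else (0 : ℝ)) = ∑' n, p18a R n := rfl
    rw [h2, le_div_iff₀ hR0]
    have h3 : |∑' n, p18a R n - 4 * Real.pi / R| * R = |R * ∑' n, p18a R n - 4 * Real.pi| := by
      rw [← abs_of_pos hR0, ← abs_mul, abs_of_pos hR0]
      congr 1
      field_simp
    rw [h3]
    exact h1.le

end

end Pool.Agent.H751R2.LHY.MT
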