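import Pool.Agent.NH34.TC.Stm

/-!
# TC-15: the momentum distribution above `√P`, finite sets (helper72)
-/

open MeasureTheory UnitAddTorus Filter
open scoped ComplexConjugate ENNReal

namespace Pool.Agent.H751R2.LHY.MT

noncomputable section

/-- the final scalar inequality -/
theorem p19_scalar {t τ P U X a1 a2 a3 a4 E a6 ε : ℝ} (ht : 0 < t) (hτ : 0 < τ) (hP : 0 < P)
    (hU : 0 ≤ U) (hε : 0 < ε)
    (h : t * (τ * P * X) ≤ a1 + a2 + a3 + a4 + t * (τ * P * E) + a6)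
    (h12 : a1 + a2 ≤ ε / 8 * (t * τ * P * U)) (h3 : a3 ≤ ε / 8 * (t * τ * P * U))
    (h4 : a4 ≤ ε / 8 * (t * τ * P * U)) (hE : E ≤ ε / 4 * U)
    (h6 : a6 ≤ ε / 8 * (t * τ * P * U)) : X ≤ ε * U := by
  have hp : 0 < t * τ * P := by positivity
  have h7 : t * (τ * P * E) ≤ (t * τ * P) * (ε / 4 * U) := by
    calc t * (τ * P * E) = (t * τ * P) * E := by ring
      _ ≤ _ := mul_le_mul_of_nonneg_left hE hp.le
  have h8 : (t * τ * P) * X ≤ (t * τ * P) * (ε * U) := by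
    have h9 : 0 ≤ (t * τ * P) * (ε * U) := by positivity
    calc (t * τ * P) * X = t * (τ * P * X) := by ring
      _ ≤ _ := h
      _ ≤ 6 / 8 * ((t * τ * P) * (ε * U)) := by linarith
      _ ≤ (t * τ * P) * (ε * U) := by linarith
  exact le_of_mul_le_mul_left h8 hp

/-- the difference of two squares in `[0, a]` -/
theorem p19_abs {x y a : ℝ} (hx : 0 ≤ x) (hxa : x ≤ a) (hy : 0 ≤ y) (hya : y ≤ a) :
    |x - y| ≤ a := by
  rw [abs_le]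
  constructor <;> linarith

theorem p19_sq {x y V e : ℝ} (hx : |x| ≤ V) (hy0 : 0 ≤ y) (hy : y ≤ V) (h : |x - y| ≤ e) :
    |x ^ 2 - y ^ 2| ≤ 2 * V * e := by
  have h1 : x ^ 2 - y ^ 2 = (x + y) * (x - y) := by ring
  rw [h1, abs_mul]
  have h2 : |x + y| ≤ 2 * V := by
    rw [abs_le] at hx ⊢
    constructor <;> linarith [hx.1, hx.2]
  have h3 : 0 ≤ 2 * V := (abs_nonneg _).trans h2
  exact mul_le_mul h2 h (abs_nonneg _) h3

/-- the bound of the effective interaction -/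
theorem p19_gh {W : T3 → ℝ} (hW : Pot W) {q μ K V0 ℓ : ℝ} (hq : 0 < q) (hμ : 0 < μ) (hK : 0 ≤ K)
    (hℓ : 0 < ℓ) (hI : ∫ y, W y = V0 / ℓ ^ 3) {B0 : Finset Mom} {c : Mom → ℝ}
    (hc : Scat (fun y => min (W y) K) q μ B0 c) (n : Mom) :
    |ℓ ^ 3 * gh (fun y => min (W y) K) B0 c n| ≤ V0 := by
  have h1 : |gh (fun y => min (W y) K) B0 c n| ≤ V0 / ℓ ^ 3 := by
    refine (gh_le (pot_min hW hK) hq hμ hc n).trans ?_
    rw [← hI]
    exact integral_mono (pot_min hW hK).int hW.int (fun y => min_le_left _ _)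
  have h3 : 0 < ℓ ^ 3 := by positivity
  rw [abs_mul, abs_of_pos h3]
  rw [le_div_iff₀ h3] at h1
  linarith

theorem t19 (h5 : T05) (h16 : T16) (h17 : T17) : T19 := by
  classical
  intro v hv τ ε hτ hε
  obtain ⟨V0, hV0⟩ : ∃ V0, V0 = ∫ x, v x := ⟨_, rfl⟩
  have hV0p : 0 < V0 := by rw [hV0]; exact hv.pos
  obtain ⟨hsc0, hscV⟩ := h16 v hv τ hτ
  obtain ⟨sc, hsc⟩ : ∃ sc, sc = scC (2 * τ) v := ⟨_, rfl⟩
  rw [← hsc] at hsc0 hscV
  rw [← hV0] at hscV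
  obtain ⟨Ct, hCt, htail⟩ := tail_sum
  have hPi : 0 < Real.pi := Real.pi_pos
  obtain ⟨P0, hP0⟩ : ∃ P0, P0 = τ * Real.sqrt τ * (2 * Real.pi) ^ 3 := ⟨_, rfl⟩
  have hsτ : 0 < Real.sqrt τ := Real.sqrt_pos.2 hτ
  have hP0p : 0 < P0 := by rw [hP0]; positivity
  obtain ⟨C2, hC2⟩ : ∃ C2, C2 = Ct / (P0 * Real.sqrt τ) := ⟨_, rfl⟩
  have hC2p : 0 < C2 := by rw [hC2]; positivity
  obtain ⟨t, ht⟩ : ∃ t, t = min (1 / 4) (ε / (8 * V0 ^ 2 * C2)) := ⟨_, rfl⟩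
  have ht0 : 0 < t := by rw [ht]; exact lt_min (by norm_num) (by positivity)
  have ht4 : t ≤ 1 / 4 := by rw [ht]; exact min_le_left _ _
  have htε : t * (V0 ^ 2 * C2) ≤ ε / 8 := by
    have h1 : t ≤ ε / (8 * V0 ^ 2 * C2) := by rw [ht]; exact min_le_right _ _
    rw [le_div_iff₀ (by positivity)] at h1
    linarith
  obtain ⟨ε1, hε1⟩ : ∃ ε1, ε1 = ε / (4 * V0 * C2 + 1) := ⟨_, rfl⟩
  have hε1p : 0 < ε1 := by rw [hε1]; positivity
  have hε1b : V0 * ε1 * C2 / 2 ≤ ε / 8 := by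
    have h1 : ε1 * (4 * V0 * C2 + 1) = ε := by rw [hε1]; field_simp
    nlinarith
  obtain ⟨ρ₁, δ₂, hρ₁, hδ₂, h17'⟩ := h17 v hv τ ε1 hτ hε1p
  obtain ⟨c, hc⟩ : ∃ c, c = ε * t * τ / (8 * (7 * V0 + 1)) := ⟨_, rfl⟩
  have hcp : 0 < c := by rw [hc]; positivity
  have hcb : (7 * V0 + 1) * c = ε / 8 * (t * τ) := by rw [hc]; field_simp
  obtain ⟨C, hC⟩ : ∃ C, C = 7 * V0 / (t * τ) := ⟨_, rfl⟩
  have hCp : 0 < C := by rw [hC]; positivity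
  obtain ⟨K₀, hK₀⟩ : ∃ K₀, K₀ = 8 * V0 / τ + 32 * V0 ^ 3 * C2 / (t * τ * ε) := ⟨_, rfl⟩
  have hK₀p : 0 < K₀ := by rw [hK₀]; positivity
  refine ⟨c, C, K₀, hcp, hCp, hK₀p, fun K hK => ?_⟩
  have hKp : 0 < K := hK₀p.trans_le hK
  have hK1 : 8 * V0 ≤ K * τ := by
    have h1 : 8 * V0 / τ ≤ K := by
      refine le_trans ?_ hK
      rw [hK₀]
      have : 0 < 32 * V0 ^ 3 * C2 / (t * τ * ε) := by positivity
      linarith
    rwa [div_le_iff₀ hτ] at h1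
  have hK2 : 32 * V0 ^ 3 * C2 ≤ K * (t * τ * ε) := by
    have h1 : 32 * V0 ^ 3 * C2 / (t * τ * ε) ≤ K := by
      refine le_trans ?_ hK
      rw [hK₀]
      have : 0 < 8 * V0 / τ := by positivity
      linarith
    rwa [div_le_iff₀ (by positivity)] at h1
  obtain ⟨δ, hδ⟩ : ∃ δ, δ = min (min (K * ρ₁ / 2) δ₂) (δ₂ * (ε / (2 * V0 ^ 2 * C2)) ^ 2) :=
    ⟨_, rfl⟩
  have hδp : 0 < δ := by
    rw [hδ]
    exact lt_min (lt_min (by positivity) hδ₂) (by positivity)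
  have hδ1 : δ ≤ K * ρ₁ / 2 := by rw [hδ]; exact (min_le_left _ _).trans (min_le_left _ _)
  have hδ2 : δ ≤ δ₂ := by rw [hδ]; exact (min_le_left _ _).trans (min_le_right _ _)
  have hδ3 : δ ≤ δ₂ * (ε / (2 * V0 ^ 2 * C2)) ^ 2 := by rw [hδ]; exact min_le_right _ _
  refine ⟨δ, hδp, fun ρ P hρ hKP hPδ => ?_⟩
  have hPp : 0 < P := lt_of_lt_of_le (by positivity) hKP
  have hρρ₁ : ρ < ρ₁ := by
    have h1 : K * ρ ≤ K * ρ₁ / 2 := hKP.trans (hPδ.trans hδ1)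
    have h2 : K * ρ < K * ρ₁ := by
      have : 0 < K * ρ₁ := by positivity
      linarith
    exact lt_of_mul_lt_mul_left h2 hKp.le
  obtain ⟨ℓ₀, hℓ₀, h17''⟩ := h17' ρ hρ hρρ₁
  obtain ⟨r, hr⟩ : ∃ r, r = √P := ⟨_, rfl⟩
  have hrp : 0 < r := by rw [hr]; exact Real.sqrt_pos.2 hPp
  have hr2 : r ^ 2 = P := by rw [hr]; exact Real.sq_sqrt hPp.le
  obtain ⟨N₀, hN₀⟩ := exists_nat_ge (ρ * ℓ₀ ^ 3 + ρ * (2 * Real.pi / r) ^ 3 +
    8 * V0 / (t * τ * r * ε) + 1)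
  refine ⟨N₀, fun N hN ℓ hℓ hNℓ ψ hψ F hF => ?_⟩
  rw [← hr] at hψ ⊢
  rw [← hsc]
  have hNr : (N₀ : ℝ) ≤ N := by exact_mod_cast hN
  have p1 : 0 < ρ * ℓ₀ ^ 3 := by positivity
  have p2 : 0 < ρ * (2 * Real.pi / r) ^ 3 := by positivity
  have p3 : 0 < 8 * V0 / (t * τ * r * ε) := by positivity
  have hN1r : (1 : ℝ) ≤ N := by linarith
  have hN1 : 1 ≤ N := by exact_mod_cast hN1r
  have hNp : (0 : ℝ) < N := by linarith
  have hℓℓ₀ : ℓ₀ ≤ ℓ := by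
    have h1 : ρ * ℓ₀ ^ 3 ≤ ρ * ℓ ^ 3 := by rw [← hNℓ]; linarith
    exact (pow_le_pow_iff_left₀ hℓ₀.le hℓ.le (by norm_num)).1 (le_of_mul_le_mul_left h1 hρ)
  have hℓr : 2 * Real.pi / r ≤ ℓ := by
    have h1 : ρ * (2 * Real.pi / r) ^ 3 ≤ ρ * ℓ ^ 3 := by rw [← hNℓ]; linarith
    exact (pow_le_pow_iff_left₀ (by positivity) hℓ.le (by norm_num)).1
      (le_of_mul_le_mul_left h1 hρ)
  have hpP : (2 * Real.pi / ℓ) ^ 2 ≤ P := by
    rw [← hr2]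
    apply pow_le_pow_left₀ (by positivity)
    rw [div_le_iff₀ hrp] at hℓr
    rw [div_le_iff₀ hℓ]
    linarith
  have hNV : 8 * V0 ≤ N * (t * τ * r * ε) := by
    have h1 : 8 * V0 / (t * τ * r * ε) ≤ N := by linarith
    rwa [div_le_iff₀ (by positivity)] at h1
  obtain ⟨q, hq⟩ : ∃ q, q = τ * (2 * Real.pi / ℓ) ^ 2 := ⟨_, rfl⟩
  have hq0 : 0 < q := by rw [hq]; positivity
  have hκ : ∀ n : Mom, q * sq n = τ * ((2 * Real.pi / ℓ) ^ 2 * sq n) := by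
    intro n
    rw [hq]
    ring
  have hsq : Real.sqrt q = Real.sqrt τ * (2 * Real.pi / ℓ) := by
    rw [hq, Real.sqrt_mul hτ.le, Real.sqrt_sq (by positivity)]
  have hqP : q * Real.sqrt q = P0 / ℓ ^ 3 := by
    rw [hsq, hq, hP0]; field_simp
  obtain ⟨I, hI⟩ : ∃ I, I = V0 / ℓ ^ 3 := ⟨_, rfl⟩
  have hI0 : 0 < I := by rw [hI]; positivity
  obtain ⟨s, hs⟩ : ∃ s, s = ρ * V0 := ⟨_, rfl⟩
  have hs0 : 0 < s := by rw [hs]; positivity
  have hsN : s = N * I := by rw [hs, hI, hNℓ]; field_simp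
  have hWp := Wr_pot hv.meas hv.int hv.even hℓ
  have hWI : ∫ y, Wr v ℓ y = I := by rw [Wr_int_one hv.meas hv.int hv.nonneg hℓ, hI, hV0]
  have h8s : 8 * s ≤ τ * P := by
    rw [hs]
    have h1 : τ * (K * ρ) ≤ τ * P := mul_le_mul_of_nonneg_left hKP hτ.le
    have h2 : ρ * (8 * V0) ≤ ρ * (K * τ) := mul_le_mul_of_nonneg_left hK1 hρ.le
    linarith
  have hqL : q ≤ τ * P := by rw [hq]; exact mul_le_mul_of_nonneg_left hpP hτ.le
  have hqL2 : q ≤ τ * δ₂ := hqL.trans (mul_le_mul_of_nonneg_left (hPδ.trans hδ2) hτ.le)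
  obtain ⟨T1, hT1⟩ : ∃ T1, T1 = Ct * ℓ ^ 3 / (P0 * Real.sqrt (τ * P)) := ⟨_, rfl⟩
  obtain ⟨T2, hT2⟩ : ∃ T2, T2 = Ct * ℓ ^ 3 / (P0 * Real.sqrt (τ * δ₂)) := ⟨_, rfl⟩
  have hta1 := tail_T htail hq0 hqL hP0p hℓ hqP hT1
  have hta2 := tail_T htail hq0 hqL2 hP0p hℓ hqP hT2
  have hT1' : T1 = C2 * ℓ ^ 3 / r := by
    rw [hT1, hC2, hr, Real.sqrt_mul hτ.le]
    field_simp
  obtain ⟨r2, hr2d⟩ : ∃ r2, r2 = √δ₂ := ⟨_, rfl⟩
  have hr2p : 0 < r2 := by rw [hr2d]; exact Real.sqrt_pos.2 hδ₂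
  have hT2' : T2 = C2 * ℓ ^ 3 / r2 := by
    rw [hT2, hC2, hr2d, Real.sqrt_mul hτ.le]
    field_simp
  have hT10 : 0 < T1 := by rw [hT1']; positivity
  have hT20 : 0 < T2 := by rw [hT2']; positivity
  obtain ⟨U, hU⟩ : ∃ U, U = ρ * N / r := ⟨_, rfl⟩
  have hU0 : 0 < U := by rw [hU]; positivity
  have hUr : U * r = ρ * N := by rw [hU]; field_simp
  have hT1U : ρ ^ 2 * T1 = C2 * U := by
    rw [hT1', hU, hNℓ]
    field_simp
  have hrr2 : V0 ^ 2 / 4 * C2 * r ≤ ε / 8 * r2 := by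
    have h1 : r ≤ r2 * (ε / (2 * V0 ^ 2 * C2)) := by
      rw [hr]
      apply Real.sqrt_le_iff.2
      refine ⟨by positivity, ?_⟩
      rw [mul_pow, hr2d, Real.sq_sqrt hδ₂.le]
      exact hPδ.trans hδ3
    calc V0 ^ 2 / 4 * C2 * r ≤ V0 ^ 2 / 4 * C2 * (r2 * (ε / (2 * V0 ^ 2 * C2))) :=
          mul_le_mul_of_nonneg_left h1 (by positivity)
      _ = ε / 8 * r2 := by field_simp; ring
  have hT2U : V0 ^ 2 / 4 * (ρ ^ 2 * T2) ≤ ε / 8 * U := by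
    have h1 : ρ ^ 2 * T2 = C2 * (ρ * N) / r2 := by
      rw [hT2', hNℓ]
      field_simp
    rw [h1, hU]
    rw [show V0 ^ 2 / 4 * (C2 * (ρ * N) / r2) = (V0 ^ 2 / 4 * C2) * (ρ * N) / r2 by ring,
      show ε / 8 * (ρ * N / r) = (ε / 8) * (ρ * N) / r by ring,
      div_le_div_iff₀ hr2p hrp]
    have h2 := mul_le_mul_of_nonneg_right hrr2 (show 0 ≤ ρ * N by positivity)
    linarith
  obtain ⟨η, hη⟩ : ∃ η, η = c * ρ * r * N := ⟨_, rfl⟩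
  have hη0 : 0 ≤ η := by rw [hη]; positivity
  -- the choices
  obtain ⟨θ, hθ⟩ : ∃ θ : Mom → ℝ, ∀ n, θ n = if n ∈ F then τ * P / (q * sq n) else 0 :=
    ⟨_, fun n => rfl⟩
  obtain ⟨e, he⟩ : ∃ e : Mom → ℝ, ∀ n, e n = if (2 * Real.pi / ℓ) ^ 2 * sq n ≤ δ₂ then
      2 * ρ ^ 2 * V0 * ε1 else s ^ 2 := ⟨_, fun n => rfl⟩
  have hFL : ∀ n ∈ F, τ * P < q * sq n := by
    intro n hn
    rw [hκ]
    exact mul_lt_mul_of_pos_left (hF n hn).2 hτ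
  have hκp : ∀ n ∈ F, 0 < q * sq n := fun n hn => lt_trans (by positivity) (hFL n hn)
  have hmain := h5 N hN1 (Wr v ℓ) hWp (Wr_meas hv.meas ℓ) q I s (τ * P) T1 η t hq0 hWI hI0 hsN h8s
    hη0 ht0 ht4 hta1 F θ (fun _ => (ρ * sc) ^ 2) e
    (fun n hn => ⟨(hF n hn).1, hFL n hn⟩)
    (by
      intro n
      rw [hθ]
      split_ifs with hn
      · exact ⟨by have := hκp n hn; positivity, (div_le_one (hκp n hn)).2 (hFL n hn).le⟩
      · exact ⟨le_rfl, zero_le_one⟩)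
    (by
      intro n
      have h1 : -n ∈ F ↔ n ∈ F := by
        constructor
        · intro h
          have := (hF _ h).1
          rwa [neg_neg] at this
        · exact fun h => (hF n h).1
      rw [hθ, hθ, sq_neg]
      simp only [h1])
    (by
      filter_upwards [h17'' ℓ hℓℓ₀, eventually_ge_atTop 0] with K' hK' hK'0
      filter_upwards [hK'] with R hR
      intro cA hcA n hn
      have hcA' : Scat (fun y => min (Wr v ℓ y) K') (τ * (2 * Real.pi / ℓ) ^ 2)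
          (5 * (ρ * ∫ x, v x)) ((boxM R).erase 0) cA := by
        rw [← hq, ← hV0, ← hs]
        exact hcA
      obtain ⟨x, hx⟩ : ∃ x, x = ℓ ^ 3 * gh (fun y => min (Wr v ℓ y) K') ((boxM R).erase 0) cA n :=
        ⟨_, rfl⟩
      have hxV : |x| ≤ V0 := by
        rw [hx]
        exact p19_gh hWp hq0 (by positivity) hK'0 hℓ (by rw [hWI, hI]) hcA n
      have hNx : (N : ℝ) * gh (fun y => min (Wr v ℓ y) K') ((boxM R).erase 0) cA n = ρ * x := by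
        rw [hx, hNℓ]; ring
      rw [hNx, he]
      split_ifs with hpn
      · have h2 := hR cA hcA' n hpn
        rw [← hx, ← hsc] at h2
        have h3 := p19_sq hxV hsc0.le hscV h2
        rw [show (ρ * x) ^ 2 - (ρ * sc) ^ 2 = ρ ^ 2 * (x ^ 2 - sc ^ 2) by ring, abs_mul,
          abs_of_nonneg (sq_nonneg ρ)]
        calc ρ ^ 2 * |x ^ 2 - sc ^ 2| ≤ ρ ^ 2 * (2 * V0 * ε1) :=
              mul_le_mul_of_nonneg_left h3 (sq_nonneg ρ)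
          _ = 2 * ρ ^ 2 * V0 * ε1 := by ring
      · have h4 : ∀ y : ℝ, |y| ≤ V0 → (ρ * y) ^ 2 ≤ s ^ 2 := by
          intro y hy
          rw [hs, mul_pow, mul_pow]
          apply mul_le_mul_of_nonneg_left _ (sq_nonneg ρ)
          rw [← sq_abs y]
          exact pow_le_pow_left₀ (abs_nonneg y) hy 2
        exact p19_abs (sq_nonneg _) (h4 x hxV) (sq_nonneg _)
          (h4 sc (by rw [abs_of_pos hsc0]; exact hscV)))
    ψ
    (by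
      obtain ⟨hm, hn1, hmin⟩ := hψ
      have hcong : ∀ φ : Cfg N → ℂ, potE (fun y => ENNReal.ofReal (Wr v ℓ y)) φ =
          potE (perPot v ℓ) φ := fun φ => (potE_congr (perPot_ae hv.meas hv.int hℓ) φ).symm
      refine ⟨hm, hn1, fun φ hφ hφ1 => ?_⟩
      rw [hcong ψ, hcong φ, hq, hη]
      exact hmin φ hφ hφ1)
  -- rewriting the sums
  have hs1 : ∑ n ∈ F, θ n * (q * sq n) * occR ψ n = τ * P * ∑ n ∈ F, occR ψ n := by
    rw [Finset.mul_sum]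
    refine Finset.sum_congr rfl fun n hn => ?_
    have := hκp n hn
    rw [hθ, if_pos hn, div_mul_cancel₀ _ this.ne']
  have hs2 : ∑ n ∈ F, θ n * (ρ * sc) ^ 2 / (4 * (q * sq n)) =
      τ * P * ∑ n ∈ F, (ρ * sc) ^ 2 / (4 * (τ * ((2 * Real.pi / ℓ) ^ 2 * sq n)) ^ 2) := by
    rw [Finset.mul_sum]
    refine Finset.sum_congr rfl fun n hn => ?_
    have h1 := (hκp n hn).ne'
    rw [hθ, if_pos hn, ← hκ]
    obtain ⟨κ, hκ'⟩ : ∃ κ, κ = q * sq n := ⟨_, rfl⟩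
    rw [← hκ'] at h1 ⊢
    field_simp
  have hs3 : ∑ n ∈ F, θ n * e n / (4 * (q * sq n)) =
      τ * P * ∑ n ∈ F, e n / (4 * (q * sq n) ^ 2) := by
    rw [Finset.mul_sum]
    refine Finset.sum_congr rfl fun n hn => ?_
    have h1 := (hκp n hn).ne'
    rw [hθ, if_pos hn]
    obtain ⟨κ, hκ'⟩ : ∃ κ, κ = q * sq n := ⟨_, rfl⟩
    rw [← hκ'] at h1 ⊢
    field_simp
  have hs4 : ∑ n ∈ F, θ n / (q * sq n) = τ * P * ∑ n ∈ F, 1 / (q * sq n) ^ 2 := by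
    rw [Finset.mul_sum]
    refine Finset.sum_congr rfl fun n hn => ?_
    have h1 := (hκp n hn).ne'
    rw [hθ, if_pos hn]
    obtain ⟨κ, hκ'⟩ : ∃ κ, κ = q * sq n := ⟨_, rfl⟩
    rw [← hκ'] at h1 ⊢
    field_simp
  have hS1 : ∑ n ∈ F, 1 / (q * sq n) ^ 2 ≤ T1 := hta1 F hFL
  have hS2 : ∑ n ∈ F.filter (fun n => ¬ (2 * Real.pi / ℓ) ^ 2 * sq n ≤ δ₂), 1 / (q * sq n) ^ 2 ≤
      T2 := by
    apply hta2
    intro n hn
    rw [hκ]
    exact mul_lt_mul_of_pos_left (not_le.1 (Finset.mem_filter.1 hn).2) hτ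
  have hEb : ∑ n ∈ F, e n / (4 * (q * sq n) ^ 2) ≤ ε / 4 * U := by
    have h1 : ∀ n ∈ F, e n / (4 * (q * sq n) ^ 2) ≤ ρ ^ 2 * V0 * ε1 / 2 * (1 / (q * sq n) ^ 2) +
        (if ¬ (2 * Real.pi / ℓ) ^ 2 * sq n ≤ δ₂ then s ^ 2 / 4 * (1 / (q * sq n) ^ 2) else 0) := by
      intro n hn
      have h2 := hκp n hn
      rw [he]
      by_cases hpn : (2 * Real.pi / ℓ) ^ 2 * sq n ≤ δ₂
      · rw [if_pos hpn, if_neg (not_not.2 hpn)]
        apply le_of_eq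
        field_simp
        ring
      · rw [if_neg hpn, if_pos hpn]
        have h3 : 0 ≤ ρ ^ 2 * V0 * ε1 / 2 * (1 / (q * sq n) ^ 2) := by positivity
        have h4 : s ^ 2 / (4 * (q * sq n) ^ 2) = s ^ 2 / 4 * (1 / (q * sq n) ^ 2) := by
          field_simp
        linarith
    refine (Finset.sum_le_sum h1).trans ?_
    rw [Finset.sum_add_distrib, ← Finset.mul_sum, ← Finset.sum_filter, ← Finset.mul_sum]
    have h5' : ρ ^ 2 * V0 * ε1 / 2 * ∑ n ∈ F, 1 / (q * sq n) ^ 2 ≤ ε / 8 * U := by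
      calc ρ ^ 2 * V0 * ε1 / 2 * ∑ n ∈ F, 1 / (q * sq n) ^ 2
          ≤ ρ ^ 2 * V0 * ε1 / 2 * T1 := mul_le_mul_of_nonneg_left hS1 (by positivity)
        _ = V0 * ε1 / 2 * (ρ ^ 2 * T1) := by ring
        _ = (V0 * ε1 * C2 / 2) * U := by rw [hT1U]; ring
        _ ≤ ε / 8 * U := mul_le_mul_of_nonneg_right hε1b hU0.le
    have h6' : s ^ 2 / 4 * ∑ n ∈ F.filter (fun n => ¬ (2 * Real.pi / ℓ) ^ 2 * sq n ≤ δ₂),
        1 / (q * sq n) ^ 2 ≤ ε / 8 * U := by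
      calc _ ≤ s ^ 2 / 4 * T2 := mul_le_mul_of_nonneg_left hS2 (by positivity)
        _ = V0 ^ 2 / 4 * (ρ ^ 2 * T2) := by rw [hs]; ring
        _ ≤ _ := hT2U
    linarith
  have hOe : occE ψ (fun n => n ≠ 0 ∧ q * sq n ≤ τ * P) =
      occE ψ (fun n => n ≠ 0 ∧ (2 * Real.pi / ℓ) ^ 2 * sq n ≤ P) :=
    occE_congr ψ _ _ (by
      intro n
      rw [hκ]
      constructor
      · exact fun h => ⟨h.1, le_of_mul_le_mul_left h.2 hτ⟩
      · exact fun h => ⟨h.1, mul_le_mul_of_nonneg_left h.2 hτ.le⟩)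
  rw [hs1, hs2, hs3, hs4, ← mul_sub, abs_mul, abs_of_pos (show 0 < τ * P by positivity), hOe]
    at hmain
  obtain ⟨O, hO⟩ : ∃ O, O = (occE ψ (fun n => n ≠ 0 ∧ (2 * Real.pi / ℓ) ^ 2 * sq n ≤ P)).toReal :=
    ⟨_, rfl⟩
  rw [← hO] at hmain ⊢
  obtain ⟨X, hX⟩ : ∃ X, X = |∑ n ∈ F, occR ψ n - ∑ n ∈ F, (ρ * sc) ^ 2 /
      (4 * (τ * ((2 * Real.pi / ℓ) ^ 2 * sq n)) ^ 2)| := ⟨_, rfl⟩
  rw [← hX] at hmain ⊢
  have hCO : t * (τ * P * (C * (ρ / P) * O)) = 7 * s * O := by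
    rw [hC, hs]
    field_simp
  have hmain' : t * (τ * P * (X - C * (ρ / P) * O)) ≤
      0 + η + s + 4 * (N : ℝ) ^ 2 * s * I ^ 2 * T1
      + t * (τ * P * ∑ n ∈ F, e n / (4 * (q * sq n) ^ 2))
      + t ^ 2 * s ^ 2 * (τ * P * ∑ n ∈ F, 1 / (q * sq n) ^ 2) := by
    have h1 : t * (τ * P * (X - C * (ρ / P) * O)) =
        t * (τ * P * X) - t * (τ * P * (C * (ρ / P) * O)) := by ring
    rw [h1, hCO]
    linarith
  have hUP : U * P = ρ * N * r := by rw [← hr2, pow_two, ← mul_assoc, hUr]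
  have hfin := p19_scalar ht0 hτ hPp hU0.le hε hmain' ?_ ?_ ?_ hEb ?_
  · have h1 : ε * U = ε * ρ * N / r := by rw [hU]; ring
    rw [← h1]
    linarith
  · have h1 : 0 ≤ 7 * V0 * c * (ρ * N * r) := by positivity
    calc 0 + η ≤ η + 7 * V0 * c * (ρ * N * r) := by linarith
      _ = (7 * V0 + 1) * c * (ρ * N * r) := by rw [hη]; ring
      _ = ε / 8 * (t * τ * P * U) := by rw [hcb, ← hUP]; ring
  · have h1 := mul_le_mul_of_nonneg_left hNV hρ.le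
    have h2 : ε / 8 * (t * τ * P * U) = ε / 8 * (t * τ) * (ρ * N * r) := by rw [← hUP]; ring
    rw [h2, hs]
    linarith
  · have h1 : 4 * (N : ℝ) ^ 2 * s * I ^ 2 * T1 = 4 * V0 ^ 3 * C2 * ρ * U := by
      calc 4 * (N : ℝ) ^ 2 * s * I ^ 2 * T1 = 4 * s * (N * I) ^ 2 * T1 := by ring
        _ = 4 * s ^ 3 * T1 := by rw [← hsN]; ring
        _ = 4 * ρ * V0 ^ 3 * (ρ ^ 2 * T1) := by rw [hs]; ring
        _ = _ := by rw [hT1U]; ring
    rw [h1]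
    have h2 : 4 * V0 ^ 3 * C2 * ρ ≤ ε / 8 * (t * τ * P) := by
      have h3 := mul_le_mul_of_nonneg_right hK2 hρ.le
      have h4 := mul_le_mul_of_nonneg_left hKP (show 0 ≤ t * τ * ε by positivity)
      linarith
    calc 4 * V0 ^ 3 * C2 * ρ * U ≤ ε / 8 * (t * τ * P) * U :=
          mul_le_mul_of_nonneg_right h2 hU0.le
      _ = _ := by ring
  · calc t ^ 2 * s ^ 2 * (τ * P * ∑ n ∈ F, 1 / (q * sq n) ^ 2)
        ≤ t ^ 2 * s ^ 2 * (τ * P * T1) := by gcongr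
      _ = t * (V0 ^ 2) * (t * τ * P) * (ρ ^ 2 * T1) := by rw [hs]; ring
      _ = (t * (V0 ^ 2 * C2)) * (t * τ * P * U) := by rw [hT1U]; ring
      _ ≤ ε / 8 * (t * τ * P * U) := mul_le_mul_of_nonneg_right htε (by positivity)

end

end Pool.Agent.H751R2.LHY.MT
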