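import Pool.Agent.NH34.TC.Fin
import Pool.Agent.NH34.TC.P01
import Pool.Agent.NH34.TC.P02
import Pool.Agent.NH34.TC.P03
import Pool.Agent.NH34.TC.P05
import Pool.Agent.NH34.TC.P06
import Pool.Agent.NH34.TC.P08
import Pool.Agent.NH34.TC.P09
import Pool.Agent.NH34.TC.P10
import Pool.Agent.NH34.TC.P11
import Pool.Agent.NH34.TC.P12
import Pool.Agent.NH34.TC.P14
import Pool.Agent.NH34.TC.P15
import Pool.Agent.NH34.TC.P17
import Pool.Agent.NH34.TC.P18
import Pool.Agent.NH34.TC.P19

/-! Project TC: everything together. -/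

namespace Pool.Agent.H751R2.LHY.MT

theorem a10 : T10 := t10
theorem a11 : T11 := t11 t07 (t08 t06) (t09 t06) a10
theorem a14 : T14 := t14 t12 (t13 t06)
theorem a15 : T15 := t15 a14
theorem a16 : T16 := t16 a11
theorem a17 : T17 := t17 t01 a11 a15
theorem a05 : T05 := t05 t02 t03
theorem a19 : T19 := t19 a05 a16 a17

end Pool.Agent.H751R2.LHY.MT
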