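import Pool.Agent.NH34.TC.Stm

/-! Final assembly of project TC. -/

open MeasureTheory UnitAddTorus Filter
open scoped ComplexConjugate ENNReal

namespace Pool.Agent.H751R2.LHY.MT

noncomputable section

/-- the reference momentum distribution -/
def ref (a ρ ℓ : ℝ) (n : Mom) : ℝ :=
  (4 * Real.pi * a * ρ) ^ 2 / ((2 * Real.pi / ℓ) ^ 2 * sq n) ^ 2

lemma fin_box_neg {R : ℕ} {n : Mom} (h : n ∈ boxM R) : -n ∈ boxM R := by
  rw [mem_boxM'] at h ⊢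
  intro a
  have := h a
  simp only [Pi.neg_apply]
  omega

lemma fin_box_tendsto : Tendsto (fun R : ℕ => boxM R) atTop atTop := by
  apply Filter.tendsto_atTop_finset_of_monotone
  · intro R S h
    exact boxM_mono' h
  · intro n
    refine ⟨∑ a, (n a).natAbs, ?_⟩
    rw [mem_boxM']
    intro a
    have h1 : (n a).natAbs ≤ ∑ a, (n a).natAbs :=
      Finset.single_le_sum (f := fun a => (n a).natAbs) (fun _ _ => Nat.zero_le _)
        (Finset.mem_univ a)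
    omega

lemma fin_sq_zero : sq 0 = 0 := by simp [sq]

lemma fin_ref_nonneg (a ρ ℓ : ℝ) (n : Mom) : 0 ≤ ref a ρ ℓ n := by
  unfold ref; positivity

lemma fin_ref_eq {a ρ ℓ : ℝ} (n : Mom) :
    ref a ρ ℓ n = (4 * Real.pi * a * ρ) ^ 2 / (2 * Real.pi / ℓ) ^ 4 * (1 / sq n ^ 2) := by
  unfold ref
  rw [mul_pow ((2 * Real.pi / ℓ) ^ 2), ← pow_mul, div_mul_div_comm, mul_one]

lemma fin_ref_summable (h18 : T18) (a ρ ℓ : ℝ) : Summable (ref a ρ ℓ) := by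
  have h := (h18.1).mul_left ((4 * Real.pi * a * ρ) ^ 2 / (2 * Real.pi / ℓ) ^ 4)
  refine h.congr fun n => ?_
  by_cases hn : n = 0
  · subst hn
    simp [ref, fin_sq_zero]
  · rw [if_neg hn, fin_ref_eq]

/-- from finite sets to arbitrary symmetric sets of momenta -/
lemma fin_limit (h4 : T04) (h18 : T18) {N : ℕ} {ψ : Cfg N → ℂ} (hψ : MemLp ψ 2) {a ρ ℓ P β : ℝ}
    (hF : ∀ F : Finset Mom, (∀ n ∈ F, -n ∈ F ∧ P < (2 * Real.pi / ℓ) ^ 2 * sq n) →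
      |∑ n ∈ F, occR ψ n - ∑ n ∈ F, ref a ρ ℓ n| ≤ β)
    (A : Mom → Prop) [DecidablePred A] (hA : ∀ n, A (-n) ↔ A n)
    (hP : ∀ n, A n → P < (2 * Real.pi / ℓ) ^ 2 * sq n) :
    |(occE ψ A).toReal - ∑' n, (if A n then ref a ρ ℓ n else 0)| ≤ β := by
  have h1 := (h4 N ψ hψ A).2
  have h2 : Summable (fun n => if A n then ref a ρ ℓ n else 0) := by
    refine Summable.of_nonneg_of_le (fun n => ?_) (fun n => ?_) (fin_ref_summable h18 a ρ ℓ)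
    · split_ifs
      · exact fin_ref_nonneg _ _ _ _
      · exact le_rfl
    · split_ifs
      · exact le_rfl
      · exact fin_ref_nonneg _ _ _ _
  have h3 : Tendsto (fun R : ℕ => ∑ n ∈ boxM R, (if A n then occR ψ n else 0)) atTop
      (nhds (occE ψ A).toReal) := h1.comp fin_box_tendsto
  have h4 : Tendsto (fun R : ℕ => ∑ n ∈ boxM R, (if A n then ref a ρ ℓ n else 0)) atTop
      (nhds (∑' n, (if A n then ref a ρ ℓ n else 0))) := h2.hasSum.comp fin_box_tendsto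
  have h5 := (h3.sub h4).abs
  refine le_of_tendsto h5 (Filter.Eventually.of_forall fun R => ?_)
  have h6 := hF ((boxM R).filter A) (by
    intro n hn
    rw [Finset.mem_filter] at hn ⊢
    exact ⟨⟨fin_box_neg hn.1, (hA n).2 hn.2⟩, hP n hn.2⟩)
  rw [Finset.sum_filter, Finset.sum_filter] at h6
  exact h6

lemma fin_mono (h4 : T04) {N : ℕ} {ψ : Cfg N → ℂ} (hψ : MemLp ψ 2) (A B : Mom → Prop)
    [DecidablePred A] [DecidablePred B] (h : ∀ n, A n → B n) :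
    (occE ψ A).toReal ≤ (occE ψ B).toReal := by
  have h1 := (h4 N ψ hψ A).2
  have h2 := (h4 N ψ hψ B).2
  refine hasSum_le (fun n => ?_) h1 h2
  have h0 : 0 ≤ occR ψ n := ENNReal.toReal_nonneg
  by_cases hA : A n
  · rw [if_pos hA, if_pos (h n hA)]
  · rw [if_neg hA]
    split_ifs
    · exact h0
    · exact le_rfl

/-- the total reference number above `√P` -/
lemma fin_total (h18 : T18) (a ρ P ε : ℝ) (hρ : 0 < ρ) (hP : 0 < P) (hε : 0 < ε) :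
    ∃ ℓ₀ : ℝ, 0 < ℓ₀ ∧ ∀ ℓ : ℝ, ℓ₀ ≤ ℓ → ∀ N : ℕ, (N : ℝ) = ρ * ℓ ^ 3 →
      |(∑' n, (if P < (2 * Real.pi / ℓ) ^ 2 * sq n then ref a ρ ℓ n else 0)) -
        8 * a ^ 2 * ρ * N / √P| ≤ ε * ρ * N / √P := by
  have hPi : 0 < Real.pi := Real.pi_pos
  have hsP : 0 < √P := Real.sqrt_pos.2 hP
  obtain ⟨ε', hε'⟩ : ∃ ε', ε' = ε / (2 * a ^ 2 / Real.pi + 1) := ⟨_, rfl⟩
  have hε'0 : 0 < ε' := by rw [hε']; positivity
  obtain ⟨R₀, hR₀, hR⟩ := h18.2 ε' hε'0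
  refine ⟨2 * Real.pi * R₀ / √P, by positivity, fun ℓ hℓ N hN => ?_⟩
  have hℓ0 : 0 < ℓ := lt_of_lt_of_le (by positivity) hℓ
  obtain ⟨R, hRd⟩ : ∃ R, R = √P * ℓ / (2 * Real.pi) := ⟨_, rfl⟩
  have hR1 : R₀ ≤ R := by
    rw [hRd, le_div_iff₀ (by positivity)]
    rw [div_le_iff₀ hsP] at hℓ
    linarith
  have hRpos : 0 < R := by rw [hRd]; positivity
  have h1 := hR R hR1
  have hcond : ∀ n : Mom, P < (2 * Real.pi / ℓ) ^ 2 * sq n ↔ R ^ 2 < sq n := by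
    intro n
    have e1 : R ^ 2 = P / (2 * Real.pi / ℓ) ^ 2 := by
      rw [hRd, div_pow, mul_pow, Real.sq_sqrt hP.le]
      field_simp
    rw [e1, div_lt_iff₀ (by positivity), mul_comm]
  have hD : (∑' n, (if P < (2 * Real.pi / ℓ) ^ 2 * sq n then ref a ρ ℓ n else 0)) =
      (4 * Real.pi * a * ρ) ^ 2 / (2 * Real.pi / ℓ) ^ 4 *
        ∑' n : Mom, (if R ^ 2 < sq n then 1 / sq n ^ 2 else (0 : ℝ)) := by
    rw [← tsum_mul_left]
    refine tsum_congr fun n => ?_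
    by_cases h : R ^ 2 < sq n
    · rw [if_pos ((hcond n).2 h), if_pos h, fin_ref_eq]
    · rw [if_neg (fun h' => h ((hcond n).1 h')), if_neg h, mul_zero]
  rw [hD]
  obtain ⟨S, hS⟩ : ∃ S, S = ∑' n : Mom, (if R ^ 2 < sq n then 1 / sq n ^ 2 else (0 : ℝ)) := ⟨_, rfl⟩
  rw [← hS] at h1 ⊢
  obtain ⟨D, hDd⟩ : ∃ D, D = (4 * Real.pi * a * ρ) ^ 2 / (2 * Real.pi / ℓ) ^ 4 := ⟨_, rfl⟩
  have hD0 : 0 ≤ D := by rw [hDd]; positivity
  have e2 : D * (4 * Real.pi / R) = 8 * a ^ 2 * ρ * N / √P := by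
    rw [hDd, hRd, hN]
    field_simp
    ring
  have e3 : D * (ε' / R) = (2 * a ^ 2 / Real.pi) * ε' * ρ * N / √P := by
    rw [hDd, hRd, hN]
    field_simp
    ring
  rw [← hDd, ← e2, ← mul_sub, abs_mul, abs_of_nonneg hD0]
  calc D * |S - 4 * Real.pi / R| ≤ D * (ε' / R) := mul_le_mul_of_nonneg_left h1 hD0
    _ = (2 * a ^ 2 / Real.pi) * ε' * ρ * N / √P := e3
    _ ≤ ε * ρ * N / √P := by
        apply div_le_div_of_nonneg_right _ hsP.le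
        apply mul_le_mul_of_nonneg_right _ (Nat.cast_nonneg N)
        apply mul_le_mul_of_nonneg_right _ hρ.le
        rw [hε', mul_div_assoc', div_le_iff₀ (by positivity)]
        nlinarith [hε.le]

theorem main (h4 : T04) (h16 : T16) (h18 : T18) (h19 : T19) (v : (Fin 3 → ℝ) → ℝ) (hv : PotV v)
    (m : ℝ) (hm : 0 < m) (a : ℝ) (ha : a = m / (4 * Real.pi) * scC (2 * (1 / (2 * m))) v) :
    0 < a ∧ ∀ ε : ℝ, 0 < ε → ∃ c C K δ : ℝ, 0 < c ∧ 0 < C ∧ 0 < K ∧ 0 < δ ∧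
    ∀ ρ P : ℝ, 0 < ρ → K * ρ ≤ P → P ≤ δ → ∃ N₀ : ℕ, ∀ N : ℕ, N₀ ≤ N → ∀ ℓ : ℝ, 0 < ℓ →
      (N : ℝ) = ρ * ℓ ^ 3 → ∀ ψ : Cfg N → ℂ,
      NearMin (1 / (2 * m) * (2 * Real.pi / ℓ) ^ 2) (c * ρ * √P * N) (perPot v ℓ) ψ →
      (∀ (A : Mom → Prop) [DecidablePred A], (∀ n, A (-n) ↔ A n) →
        (∀ n, A n → P < (2 * Real.pi / ℓ) ^ 2 * sq n) →
        |(occE ψ A).toReal - ∑' n, (if A n then ref a ρ ℓ n else 0)| ≤ ε * ρ * N / √P +
          C * (ρ / P) * (occE ψ (fun n => n ≠ 0 ∧ (2 * Real.pi / ℓ) ^ 2 * sq n ≤ P)).toReal) ∧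
      |(occE ψ (fun n => P < (2 * Real.pi / ℓ) ^ 2 * sq n)).toReal - 8 * a ^ 2 * ρ * N / √P| ≤
        ε * ρ * N / √P +
          C * (ρ / P) * (occE ψ (fun n => n ≠ 0 ∧ (2 * Real.pi / ℓ) ^ 2 * sq n ≤ P)).toReal ∧
      (8 * a ^ 2 - ε) * ρ * N / √P ≤ (occE ψ (fun n => n ≠ 0)).toReal := by
  have hPi : 0 < Real.pi := Real.pi_pos
  have hτ : 0 < 1 / (2 * m) := by positivity
  obtain ⟨hsc, _⟩ := h16 v hv _ hτ
  obtain ⟨sc, hscd⟩ : ∃ sc, sc = scC (2 * (1 / (2 * m))) v := ⟨_, rfl⟩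
  rw [← hscd] at ha hsc
  have ha0 : 0 < a := by rw [ha]; positivity
  refine ⟨ha0, fun ε hε => ?_⟩
  obtain ⟨c, C, K₀, hc, hC, hK₀, hK⟩ := h19 v hv (1 / (2 * m)) (ε / 2) hτ (by positivity)
  obtain ⟨K, hKd⟩ : ∃ K, K = max K₀ C := ⟨_, rfl⟩
  have hKK₀ : K₀ ≤ K := by rw [hKd]; exact le_max_left _ _
  have hKC : C ≤ K := by rw [hKd]; exact le_max_right _ _
  have hK0 : 0 < K := hK₀.trans_le hKK₀
  obtain ⟨δ, hδ, hmain⟩ := hK K hKK₀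
  refine ⟨c, C, K, δ, hc, hC, hK0, hδ, fun ρ P hρ hKρ hPδ => ?_⟩
  have hP : 0 < P := (mul_pos hK0 hρ).trans_le hKρ
  have hsP : 0 < √P := Real.sqrt_pos.2 hP
  obtain ⟨N₁, hN₁⟩ := hmain ρ P hρ hKρ hPδ
  obtain ⟨ℓ₀, hℓ₀, htot⟩ := fin_total h18 a ρ P (ε / 2) hρ hP (by positivity)
  obtain ⟨N₂, hN₂⟩ := exists_nat_ge (ρ * ℓ₀ ^ 3)
  refine ⟨max N₁ N₂, fun N hN ℓ hℓ hNℓ ψ hψ => ?_⟩
  have hψ2 : MemLp ψ 2 := hψ.1
  have hℓℓ₀ : ℓ₀ ≤ ℓ := by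
    by_contra h
    push Not at h
    have h1 : ℓ ^ 3 < ℓ₀ ^ 3 := pow_lt_pow_left₀ h hℓ.le (by norm_num)
    have h2 := mul_lt_mul_of_pos_left h1 hρ
    have h3 : (N₂ : ℝ) ≤ N := by exact_mod_cast (le_max_right _ _).trans hN
    linarith
  have hNn : (0 : ℝ) ≤ N := Nat.cast_nonneg N
  have hrefeq : ∀ n : Mom, (ρ * scC (2 * (1 / (2 * m))) v) ^ 2 /
      (4 * ((1 / (2 * m)) * ((2 * Real.pi / ℓ) ^ 2 * sq n)) ^ 2) = ref a ρ ℓ n := by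
    intro n
    rw [← hscd]
    unfold ref
    have e1 : 4 * Real.pi * a * ρ = m * (ρ * sc) := by rw [ha]; field_simp
    rw [e1, mul_pow m, mul_pow (1 / (2 * m))]
    by_cases h0 : (2 * Real.pi / ℓ) ^ 2 * sq n = 0
    · rw [h0]; simp
    · field_simp
      ring
  obtain ⟨O, hO⟩ : ∃ O, O = (occE ψ (fun n => n ≠ 0 ∧ (2 * Real.pi / ℓ) ^ 2 * sq n ≤ P)).toReal :=
    ⟨_, rfl⟩
  have hO0 : 0 ≤ O := by rw [hO]; exact ENNReal.toReal_nonneg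
  have h1 := hN₁ N ((le_max_left _ _).trans hN) ℓ hℓ hNℓ ψ hψ
  rw [← hO] at h1 ⊢
  have hcore : ∀ (A : Mom → Prop) [DecidablePred A], (∀ n, A (-n) ↔ A n) →
          (∀ n, A n → P < (2 * Real.pi / ℓ) ^ 2 * sq n) →
          |(occE ψ A).toReal - ∑' n, (if A n then ref a ρ ℓ n else 0)| ≤
            ε / 2 * ρ * N / √P + C * (ρ / P) * O := by
    intro A _ hA hAP
    refine fin_limit h4 h18 hψ2 (fun F hF => ?_) A hA hAP
    have h2 := h1 F hF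
    rw [Finset.sum_congr rfl (fun n _ => hrefeq n)] at h2
    exact h2
  have hhalf : ε / 2 * ρ * N / √P + ε / 2 * ρ * N / √P = ε * ρ * N / √P := by ring
  have hhalf0 : 0 ≤ ε / 2 * ρ * N / √P := by positivity
  have hcore2 : |(occE ψ (fun n => P < (2 * Real.pi / ℓ) ^ 2 * sq n)).toReal -
      8 * a ^ 2 * ρ * N / √P| ≤ ε * ρ * N / √P + C * (ρ / P) * O := by
    have h1 := hcore (fun n => P < (2 * Real.pi / ℓ) ^ 2 * sq n)
      (fun n => by simp only [sq_neg]) (fun n h => h)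
    have h2 := htot ℓ hℓℓ₀ N hNℓ
    have h3 := (abs_sub_le _ _ _).trans (add_le_add h1 h2)
    linarith
  refine ⟨fun A _ hA hAP => (hcore A hA hAP).trans (by linarith), hcore2, ?_⟩
  have h2 : (occE ψ (fun n => P < (2 * Real.pi / ℓ) ^ 2 * sq n)).toReal + O ≤
      (occE ψ (fun n => n ≠ 0)).toReal := by
    rw [hO]
    have e1 := (h4 N ψ hψ2 (fun n => P < (2 * Real.pi / ℓ) ^ 2 * sq n)).2
    have e2 := (h4 N ψ hψ2 (fun n => n ≠ 0 ∧ (2 * Real.pi / ℓ) ^ 2 * sq n ≤ P)).2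
    have e3 := (h4 N ψ hψ2 (fun n => n ≠ 0)).2
    refine hasSum_le (fun n => ?_) (e1.add e2) e3
    have h0 : 0 ≤ occR ψ n := ENNReal.toReal_nonneg
    by_cases hn : n = 0
    · subst hn
      have : ¬ P < (2 * Real.pi / ℓ) ^ 2 * sq 0 := by
        rw [fin_sq_zero, mul_zero]; linarith
      simp [this]
    · by_cases hp : P < (2 * Real.pi / ℓ) ^ 2 * sq n
      · have hp' : ¬ ((2 * Real.pi / ℓ) ^ 2 * sq n ≤ P) := not_le.2 hp
        rw [if_pos hp, if_neg (fun h => hp' h.2), if_pos hn, add_zero]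
      · have hp' : (2 * Real.pi / ℓ) ^ 2 * sq n ≤ P := not_lt.1 hp
        rw [if_neg hp, if_pos ⟨hn, hp'⟩, if_pos hn, zero_add]
  have h3 := (abs_le.1 hcore2).1
  have h4 : C * (ρ / P) * O ≤ O := by
    have : C * (ρ / P) ≤ 1 := by
      rw [mul_div_assoc', div_le_one hP]
      exact (mul_le_mul_of_nonneg_right hKC hρ.le).trans hKρ
    calc C * (ρ / P) * O ≤ 1 * O := mul_le_mul_of_nonneg_right this hO0
      _ = O := one_mul O
  have e : (8 * a ^ 2 - ε) * ρ * N / √P = 8 * a ^ 2 * ρ * N / √P - ε * ρ * N / √P := by ring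
  rw [e]; linarith

end

end Pool.Agent.H751R2.LHY.MT
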