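import Pool.Agent.H751R2.LHY.Main

/-!
# Momentum tail of the dilute Bose gas: definitions and statements of the parts (project TC, helper34)

Notation of `Pool.Agent.H751R2.LHY`: `T3` unit torus, `Mom = Fin 3 → ℤ`, `κ n = q * sq n` kinetic energy of the
momentum `2π n/ℓ`, `q = τ (2π/ℓ)²`, `τ = 1/(2m)`, `Wr v ℓ` the periodised potential.
-/

open MeasureTheory UnitAddTorus Filter
open scoped ComplexConjugate ENNReal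

namespace Pool.Agent.H751R2.LHY.MT



noncomputable section

/-- `|∇φ|²` -/
def gsq (φ : (Fin 3 → ℝ) → ℝ) (x : Fin 3 → ℝ) : ℝ := ∑ a, (fderiv ℝ φ x (Pi.single a 1)) ^ 2

/-- the two-body energy of `1 - φ` -/
def scE (κ : ℝ) (v φ : (Fin 3 → ℝ) → ℝ) : ℝ := ∫ x, (κ * gsq φ x + v x * (1 - φ x) ^ 2)

/-- infimum of the two-body energy (`4πa/m` for `κ = 1/m`) -/
def scC (κ : ℝ) (v : (Fin 3 → ℝ) → ℝ) : ℝ :=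
  sInf {E | ∃ φ : (Fin 3 → ℝ) → ℝ, ContDiff ℝ 1 φ ∧ HasCompactSupport φ ∧ E = scE κ v φ}

/-- standing assumptions on the potential -/
structure PotV (v : (Fin 3 → ℝ) → ℝ) : Prop where
  meas : Measurable v
  int : Integrable v
  nonneg : ∀ x, 0 ≤ v x
  even : ∀ x, v (-x) = v x
  pos : 0 < ∫ x, v x

/-- representative of a point of the torus in `(-1/2, 1/2]³` -/
def cen (y : T3) : Fin 3 → ℝ := (measurableEquivPiIoc (fun _ : Fin 3 => (-(1 / 2) : ℝ)) y).1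

/-- cosine coefficient on the box of side `ℓ` -/
def cc (φ : (Fin 3 → ℝ) → ℝ) (ℓ : ℝ) (n : Mom) : ℝ :=
  (1 / ℓ ^ 3) * ∫ x : Fin 3 → ℝ, φ x * Real.cos (∑ a, (2 * Real.pi / ℓ * n a) * x a)

/-- the trigonometric polynomial `w` in the original variable -/
def wt (B : Finset Mom) (c : Mom → ℝ) (ℓ : ℝ) (x : Fin 3 → ℝ) : ℝ :=
  ∑ n ∈ B, c n * Real.cos (∑ a, (2 * Real.pi / ℓ * n a) * x a)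

/-- expected number of particles with momentum `n` -/
def occR {N : ℕ} (ψ : Cfg N → ℂ) (n : Mom) : ℝ := (occE ψ (fun k => k = n)).toReal

/-! ### the many-body part -/

/-- near `0` the effective interaction is almost constant -/
def T01 : Prop := ∀ (W : T3 → ℝ), Pot W → ∀ q μ : ℝ, 0 < q → 0 < μ →
  ∀ (B0 : Finset Mom) (c : Mom → ℝ), Scat W q μ B0 c → ∀ n : Mom,
    (gh W B0 c 0 - gh W B0 c n) ^ 2 ≤ (∫ y, W y) * (2 * ∫ y, W y * (1 - cs n y))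

/-- two-sided version of `Xbound` -/
def T02 : Prop := ∀ (W : T3 → ℝ), Pot W → ∀ (q : ℝ), 0 < q → ∀ (N : ℕ) (I s L T t σ : ℝ), 1 ≤ N →
  ∫ y, W y ≤ I → 0 < I → s = N * I → 8 * s ≤ L → 0 ≤ t → t ≤ 1 / 4 → (σ = 1 ∨ σ = -1) →
  ∀ (B0 : Finset Mom) (c : Mom → ℝ), Scat W q (5 * s) B0 c →
  ∑ n ∈ B0.filter (fun n => ¬ q * sq n ≤ L), 1 / (q * sq n) ^ 2 ≤ T →
  ∀ θ : Mom → ℝ, (∀ n, 0 ≤ θ n ∧ θ n ≤ 1) →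
  ∀ Γ : ℝ, Γ = gh W B0 c 0 + ∑ n ∈ B0, (2 * (q * sq n) + 2 * (5 * s)) * c n ^ 2 →
  ∀ A : Mom → ℝ, (∀ n, A n = if q * sq n ≤ L then q * sq n + 5 * s
    else q * sq n * (1 + σ * t * θ n) - Γ * N) →
  ((N : ℝ) ^ 2 / 2) * (gh W B0 c 0 - s * (0.4 * ∑ n ∈ B0, c n ^ 2 + 8 * I ^ 2 * T)) - s
      + ∑ n ∈ B0.filter (fun n => ¬ q * sq n ≤ L),
          (σ * t * θ n - 4 * (t * θ n) ^ 2) * ((N * gh W B0 c n) ^ 2 / (4 * (q * sq n))) ≤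
    (1 / 2) * Γ * ((N : ℝ) ^ 2 - N)
      - ∑ n ∈ B0, ((N * |gh W B0 c n|) ^ 2 / (4 * A n)) *
        (1 + ((N * |gh W B0 c n|) / A n) ^ 2) ∧ 0 ≤ Γ ∧ Γ * N ≤ 2 * s

/-- occupation numbers of the truncated states converge -/
def T03 : Prop := ∀ (N : ℕ) (ψ : Cfg N → ℂ), MemLp ψ 2 → ∀ n : Mom,
  Tendsto (fun R : ℕ => occ (boxM R) (coef ψ) n) atTop (nhds (occR ψ n))

/-- `occE` as a sum over the momenta -/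
def T04 : Prop := ∀ (N : ℕ) (ψ : Cfg N → ℂ), MemLp ψ 2 → ∀ (A : Mom → Prop) [DecidablePred A],
  occE ψ A ≠ ⊤ ∧ HasSum (fun n => if A n then occR ψ n else 0) (occE ψ A).toReal

/-- near minimisers up to `η` -/
def NearMin {N : ℕ} (q η : ℝ) (W : T3 → ℝ≥0∞) (ψ : Cfg N → ℂ) : Prop :=
  MemLp ψ 2 ∧ ∫ x, ‖ψ x‖ ^ 2 = 1 ∧ ∀ φ : Cfg N → ℂ, MemLp φ 2 → ∫ x, ‖φ x‖ ^ 2 = 1 →
    kinE q ψ + potE W ψ ≤ kinE q φ + potE W φ + ENNReal.ofReal η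

/-- the momentum distribution of near minimisers, one torus; `g` is an approximation of the
squares `(N gh)²` of the effective interaction -/
def T05 : Prop := ∀ (N : ℕ), 1 ≤ N → ∀ (W : T3 → ℝ), Pot W → Measurable W →
  ∀ (q I s L T η t : ℝ), 0 < q → ∫ y, W y = I → 0 < I → s = N * I → 8 * s ≤ L → 0 ≤ η →
  0 < t → t ≤ 1 / 4 →
  (∀ F : Finset Mom, (∀ n ∈ F, L < q * sq n) → ∑ n ∈ F, 1 / (q * sq n) ^ 2 ≤ T) →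
  ∀ (F : Finset Mom) (θ g e : Mom → ℝ), (∀ n ∈ F, -n ∈ F ∧ L < q * sq n) →
  (∀ n, 0 ≤ θ n ∧ θ n ≤ 1) → (∀ n, θ (-n) = θ n) →
  (∀ᶠ K : ℝ in atTop, ∀ᶠ R : ℕ in atTop, ∀ cA : Mom → ℝ,
    Scat (fun y => min (W y) K) q (5 * s) ((boxM R).erase 0) cA → ∀ n ∈ F,
      |(N * gh (fun y => min (W y) K) ((boxM R).erase 0) cA n) ^ 2 - g n| ≤ e n) →
  ∀ ψ : Cfg N → ℂ, NearMin q η (fun y => ENNReal.ofReal (W y)) ψ →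
  t * |∑ n ∈ F, θ n * (q * sq n) * occR ψ n - ∑ n ∈ F, θ n * g n / (4 * (q * sq n))| ≤
    7 * s * (occE ψ (fun n => n ≠ 0 ∧ q * sq n ≤ L)).toReal + η + s + 4 * (N : ℝ) ^ 2 * s * I ^ 2 * T
      + t * ∑ n ∈ F, θ n * e n / (4 * (q * sq n)) + t ^ 2 * s ^ 2 * ∑ n ∈ F, θ n / (q * sq n)

/-! ### the scattering problem -/

/-- integration over the torus in the representatives -/
def T06 : Prop := ∀ (ℓ : ℝ), 0 < ℓ → ∀ f : (Fin 3 → ℝ) → ℝ, Integrable f →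
  (∀ x, f x ≠ 0 → ∀ a, |x a| < ℓ / 2) →
  Integrable (fun y : T3 => f (ℓ • cen y)) ∧ ∫ y : T3, f (ℓ • cen y) = (1 / ℓ ^ 3) * ∫ x, f x

/-- symmetrisation -/
def T07 : Prop := ∀ (v : (Fin 3 → ℝ) → ℝ), PotV v → ∀ κ : ℝ, 0 < κ →
  ∀ φ : (Fin 3 → ℝ) → ℝ, ContDiff ℝ 1 φ → HasCompactSupport φ →
  scE κ v (fun x => (φ x + φ (-x)) / 2) ≤ scE κ v φ

/-- gradient part of the Fourier coefficients -/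
def T08 : Prop := ∀ (φ : (Fin 3 → ℝ) → ℝ), ContDiff ℝ 1 φ → ∀ ℓ : ℝ, 0 < ℓ → HasCompactSupport φ →
  (∀ x, φ x ≠ 0 → ∀ a, |x a| ≤ ℓ / 4) → ∀ B : Finset Mom,
  ∑ n ∈ B, (2 * Real.pi / ℓ) ^ 2 * sq n * cc φ ℓ n ^ 2 ≤ (1 / ℓ ^ 3) * ∫ x, gsq φ x

/-- the Fourier series converges in `L²` -/
def T09 : Prop := ∀ (φ : (Fin 3 → ℝ) → ℝ), ContDiff ℝ 1 φ → (∀ x, φ (-x) = φ x) → ∀ ℓ : ℝ, 0 < ℓ →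
  HasCompactSupport φ → (∀ x, φ x ≠ 0 → ∀ a, |x a| ≤ ℓ / 4) →
  (∀ B : Finset Mom, ∑ n ∈ B, cc φ ℓ n ^ 2 ≤ (1 / ℓ ^ 3) * ∫ x, φ x ^ 2) ∧
  Tendsto (fun R : ℕ => ∫ y : T3,
    (wf ((boxM R).erase 0) (cc φ ℓ) y - (φ (ℓ • cen y) - cc φ ℓ 0)) ^ 2) atTop (nhds 0)

/-- potential energy on the torus against potential energy in space -/
def T10 : Prop := ∀ (v : (Fin 3 → ℝ) → ℝ), PotV v →
  ∀ φ : (Fin 3 → ℝ) → ℝ, ContDiff ℝ 1 φ → HasCompactSupport φ → ∀ ε : ℝ, 0 < ε →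
  ∃ ℓ₀ : ℝ, 0 < ℓ₀ ∧ ∀ ℓ : ℝ, ℓ₀ ≤ ℓ → (∀ x, φ x ≠ 0 → ∀ a, |x a| ≤ ℓ / 4) ∧
    ℓ ^ 3 * ∫ y : T3, Wr v ℓ y * (1 - (φ (ℓ • cen y) - cc φ ℓ 0)) ^ 2 ≤
      (∫ x, v x * (1 - φ x) ^ 2) + ε

/-- upper bound for the effective interaction -/
def T11 : Prop := ∀ (v : (Fin 3 → ℝ) → ℝ), PotV v → ∀ τ : ℝ, 0 < τ →
  ∀ φ : (Fin 3 → ℝ) → ℝ, ContDiff ℝ 1 φ → HasCompactSupport φ → ∀ ε : ℝ, 0 < ε →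
  ∃ ℓ₀ C : ℝ, 0 < ℓ₀ ∧ 0 ≤ C ∧ ∀ ℓ μ K : ℝ, ℓ₀ ≤ ℓ → 0 < μ → 0 ≤ K → ∀ᶠ R : ℕ in atTop,
    ∀ cA : Mom → ℝ, Scat (fun y => min (Wr v ℓ y) K) (τ * (2 * Real.pi / ℓ) ^ 2) μ
      ((boxM R).erase 0) cA →
    ℓ ^ 3 * gh (fun y => min (Wr v ℓ y) K) ((boxM R).erase 0) cA 0 ≤
      scE (2 * τ) v φ + C * μ + ε

/-- cut-off function -/
def T12 : Prop := ∃ (χ : (Fin 3 → ℝ) → ℝ) (C : ℝ), 0 < C ∧ ContDiff ℝ 1 χ ∧ (∀ x, 0 ≤ χ x ∧ χ x ≤ 1) ∧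
  (∀ x, (∀ a, |x a| ≤ 1) → χ x = 1) ∧ (∀ x, χ x ≠ 0 → ∀ a, |x a| ≤ 2) ∧ ∀ x, gsq χ x ≤ C

/-- squares of trigonometric polynomials over a cube -/
def T13 : Prop := ∀ (B : Finset Mom), Sym B → ∀ c : Mom → ℝ, (∀ n, c (-n) = c n) → ∀ ℓ : ℝ, 0 < ℓ →
  ContDiff ℝ 1 (wt B c ℓ) ∧
  (∫ x in {x : Fin 3 → ℝ | ∀ a, |x a| ≤ ℓ / 2}, wt B c ℓ x ^ 2) = ℓ ^ 3 * ∑ n ∈ B, c n ^ 2 ∧
  (∫ x in {x : Fin 3 → ℝ | ∀ a, |x a| ≤ ℓ / 2}, gsq (wt B c ℓ) x) =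
    ℓ ^ 3 * ((2 * Real.pi / ℓ) ^ 2 * ∑ n ∈ B, sq n * c n ^ 2)

/-- lower bound for the two-body energy on the torus, with a cut-off at the distance `r` -/
def T14 : Prop := ∃ C : ℝ, 0 < C ∧ ∀ (v : (Fin 3 → ℝ) → ℝ), PotV v → ∀ τ ε r ℓ : ℝ, 0 < τ → 0 < ε →
  0 < r → 4 * r ≤ ℓ → ∀ B : Finset Mom, Sym B → ∀ c : Mom → ℝ, (∀ n, c (-n) = c n) →
  scC (2 * τ) v ≤ (1 + ε) * (ℓ ^ 3 * Qf (Wr v ℓ) (τ * (2 * Real.pi / ℓ) ^ 2) 0 B c)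
    + τ * C * (1 + 1 / ε) / r ^ 2 * (ℓ ^ 3 * ∑ n ∈ B, c n ^ 2)
    + ∫ x in {x : Fin 3 → ℝ | ¬ ∀ a, |x a| ≤ r}, v x

/-- lower bound with the gap `μ` -/
def T15 : Prop := ∀ (v : (Fin 3 → ℝ) → ℝ), PotV v → ∀ τ ε : ℝ, 0 < τ → 0 < ε →
  ∃ μ₀ : ℝ, 0 < μ₀ ∧ ∀ μ : ℝ, 0 < μ → μ ≤ μ₀ → ∃ ℓ₀ : ℝ, 0 < ℓ₀ ∧ ∀ ℓ : ℝ, ℓ₀ ≤ ℓ →
  ∀ B : Finset Mom, Sym B → ∀ c : Mom → ℝ, (∀ n, c (-n) = c n) →
    scC (2 * τ) v ≤ (1 + ε) * (ℓ ^ 3 * Qf (Wr v ℓ) (τ * (2 * Real.pi / ℓ) ^ 2) μ B c) + ε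

/-- bounds of the scattering constant -/
def T16 : Prop := ∀ (v : (Fin 3 → ℝ) → ℝ), PotV v → ∀ τ : ℝ, 0 < τ →
  0 < scC (2 * τ) v ∧ scC (2 * τ) v ≤ ∫ x, v x

/-- the effective interaction converges to the scattering constant -/
def T17 : Prop := ∀ (v : (Fin 3 → ℝ) → ℝ), PotV v → ∀ τ ε : ℝ, 0 < τ → 0 < ε →
  ∃ ρ₁ δ₂ : ℝ, 0 < ρ₁ ∧ 0 < δ₂ ∧ ∀ ρ : ℝ, 0 < ρ → ρ < ρ₁ → ∃ ℓ₀ : ℝ, 0 < ℓ₀ ∧ ∀ ℓ : ℝ, ℓ₀ ≤ ℓ →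
  ∀ᶠ K : ℝ in atTop, ∀ᶠ R : ℕ in atTop, ∀ cA : Mom → ℝ,
    Scat (fun y => min (Wr v ℓ y) K) (τ * (2 * Real.pi / ℓ) ^ 2) (5 * (ρ * ∫ x, v x))
      ((boxM R).erase 0) cA →
    ∀ n : Mom, (2 * Real.pi / ℓ) ^ 2 * sq n ≤ δ₂ →
      |ℓ ^ 3 * gh (fun y => min (Wr v ℓ y) K) ((boxM R).erase 0) cA n - scC (2 * τ) v| ≤ ε

/-! ### lattice sums -/

/-- the tail of the lattice sum -/
def T18 : Prop := Summable (fun n : Mom => if n = 0 then (0 : ℝ) else 1 / sq n ^ 2) ∧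
  ∀ ε : ℝ, 0 < ε → ∃ R₀ : ℝ, 0 < R₀ ∧ ∀ R : ℝ, R₀ ≤ R →
    |(∑' n : Mom, if R ^ 2 < sq n then 1 / sq n ^ 2 else (0 : ℝ)) - 4 * Real.pi / R| ≤ ε / R

/-! ### assembly -/

/-- the momentum distribution above `√P`, finite sets of momenta; the last term is
`C ρ/P` times the number of particles with momentum at most `√P` -/
def T19 : Prop := ∀ (v : (Fin 3 → ℝ) → ℝ), PotV v → ∀ τ ε : ℝ, 0 < τ → 0 < ε →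
  ∃ c C K₀ : ℝ, 0 < c ∧ 0 < C ∧ 0 < K₀ ∧ ∀ K : ℝ, K₀ ≤ K → ∃ δ : ℝ, 0 < δ ∧
  ∀ ρ P : ℝ, 0 < ρ → K * ρ ≤ P → P ≤ δ →
  ∃ N₀ : ℕ, ∀ N : ℕ, N₀ ≤ N → ∀ ℓ : ℝ, 0 < ℓ → (N : ℝ) = ρ * ℓ ^ 3 →
  ∀ ψ : Cfg N → ℂ, NearMin (τ * (2 * Real.pi / ℓ) ^ 2) (c * ρ * √P * N) (perPot v ℓ) ψ →
  ∀ F : Finset Mom, (∀ n ∈ F, -n ∈ F ∧ P < (2 * Real.pi / ℓ) ^ 2 * sq n) →
    |∑ n ∈ F, occR ψ n - ∑ n ∈ F, (ρ * scC (2 * τ) v) ^ 2 /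
      (4 * (τ * ((2 * Real.pi / ℓ) ^ 2 * sq n)) ^ 2)| ≤ ε * ρ * N / √P +
      C * (ρ / P) * (occE ψ (fun n => n ≠ 0 ∧ (2 * Real.pi / ℓ) ^ 2 * sq n ≤ P)).toReal

end

end Pool.Agent.H751R2.LHY.MT
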